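import Mathlib

/-!
# E-T (MP_12a1af_nt), project T*: the abstract factorial moment lemma

Finite product space `∀ i, X i` with the counting measure.  Events `E w` depend on the coordinates
in `S w`.  Solutions are added one at a time; `R w' w` says that `w` may follow `w'`.
If, whatever the values of the coordinates used by at most `t` earlier solutions are, the expected
number of admissible new solutions is at most `B`, then the expected number of admissible ordered
`t`-tuples is at most `B ^ t`.
-/

open Finset

namespace Pool.Agent.ETS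

variable {ι : Type*} [Fintype ι] [DecidableEq ι] {X : ι → Type*} [∀ i, Fintype (X i)]
  [∀ i, DecidableEq (X i)]

/-- the points which agree with `x` on `U` -/
def fib (U : Finset ι) (x : ∀ i, X i) : Finset (∀ i, X i) :=
  univ.filter (fun y => ∀ i ∈ U, y i = x i)

lemma mem_fib {U : Finset ι} {x y : ∀ i, X i} : y ∈ fib U x ↔ ∀ i ∈ U, y i = x i := by
  simp [fib]

lemma mem_fib_comm {U : Finset ι} {x y : ∀ i, X i} : y ∈ fib U x ↔ x ∈ fib U y := by
  simp only [mem_fib]
  exact ⟨fun h i hi => (h i hi).symm, fun h i hi => (h i hi).symm⟩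

lemma self_mem_fib (U : Finset ι) (x : ∀ i, X i) : x ∈ fib U x := by
  simp [mem_fib]

lemma fib_eq_of_mem {U : Finset ι} {x y : ∀ i, X i} (h : y ∈ fib U x) : fib U y = fib U x := by
  ext z
  simp only [mem_fib] at h ⊢
  constructor
  · intro hz i hi
    rw [hz i hi, h i hi]
  · intro hz i hi
    rw [hz i hi, h i hi]

/-- replace the coordinates in `U` by those of `x` -/
def patch (U : Finset ι) (x y : ∀ i, X i) : ∀ i, X i := fun i => if i ∈ U then x i else y i

lemma patch_mem (U : Finset ι) (x y : ∀ i, X i) : patch U x y ∈ fib U x := by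
  simp only [mem_fib, patch]
  intro i hi
  simp [hi]

lemma card_fib_le (U : Finset ι) (x x' : ∀ i, X i) : (fib U x).card ≤ (fib U x').card := by
  refine Finset.card_le_card_of_injOn (fun y => patch U x' y) (fun y _ => patch_mem U x' y) ?_
  intro y hy z hz hyz
  have hy' : y ∈ fib U x := hy
  have hz' : z ∈ fib U x := hz
  rw [mem_fib] at hy' hz'
  funext i
  by_cases hi : i ∈ U
  · rw [hy' i hi, hz' i hi]
  · have := congrFun hyz i
    simpa [patch, hi] using this

lemma card_fib_const (U : Finset ι) (x x' : ∀ i, X i) : (fib U x).card = (fib U x').card :=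
  le_antisymm (card_fib_le U x x') (card_fib_le U x' x)

lemma card_fib_pos (U : Finset ι) (x : ∀ i, X i) : 0 < (fib U x).card :=
  Finset.card_pos.mpr ⟨x, self_mem_fib U x⟩

/-- averaging over the fibres -/
lemma sum_avg (U : Finset ι) (G F : (∀ i, X i) → ℝ) (hG : ∀ x y, y ∈ fib U x → G y = G x)
    (x₀ : ∀ i, X i) :
    ((fib U x₀).card : ℝ) * ∑ x, G x * F x = ∑ x, G x * ∑ y ∈ fib U x, F y := by
  have h1 : ∑ x, G x * ∑ y ∈ fib U x, F y = ∑ x, ∑ y, if y ∈ fib U x then G x * F y else 0 := by
    refine Finset.sum_congr rfl (fun x _ => ?_)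
    rw [Finset.mul_sum, ← Finset.sum_filter]
    refine Finset.sum_congr ?_ (fun _ _ => rfl)
    ext y
    simp
  rw [h1, Finset.sum_comm, Finset.mul_sum]
  refine Finset.sum_congr rfl (fun y _ => ?_)
  have h2 : ∀ x, (if y ∈ fib U x then G x * F y else 0) = if x ∈ fib U y then G y * F y else 0 := by
    intro x
    by_cases h : y ∈ fib U x
    · have h' : x ∈ fib U y := mem_fib_comm.mp h
      rw [if_pos h, if_pos h', hG y x h']
    · have h' : x ∉ fib U y := fun h'' => h (mem_fib_comm.mpr h'')
      rw [if_neg h, if_neg h']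
  rw [Finset.sum_congr rfl (fun x _ => h2 x), ← Finset.sum_filter, Finset.sum_const]
  have h3 : (univ.filter (fun x => x ∈ fib U y)) = fib U y := by
    ext x; simp
  rw [h3, card_fib_const U x₀ y, nsmul_eq_mul]

lemma sum_avg_le (U : Finset ι) (G F : (∀ i, X i) → ℝ) (hG : ∀ x y, y ∈ fib U x → G y = G x)
    (hG0 : ∀ x, 0 ≤ G x) (B : ℝ)
    (hF : ∀ x, ∑ y ∈ fib U x, F y ≤ B * (fib U x).card) :
    ∑ x, G x * F x ≤ B * ∑ x, G x := by
  rcases isEmpty_or_nonempty (∀ i, X i) with hE | ⟨⟨x₀⟩⟩
  · simp
  have h := sum_avg U G F hG x₀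
  have hc : (0 : ℝ) < (fib U x₀).card := by exact_mod_cast card_fib_pos U x₀
  have h2 : ∑ x, G x * ∑ y ∈ fib U x, F y ≤ ∑ x, G x * (B * (fib U x₀).card) := by
    refine Finset.sum_le_sum (fun x _ => ?_)
    refine mul_le_mul_of_nonneg_left ?_ (hG0 x)
    rw [card_fib_const U x₀ x]
    exact hF x
  rw [← h, ← Finset.sum_mul] at h2
  have h3 : ((fib U x₀).card : ℝ) * ∑ x, G x * F x
      ≤ ((fib U x₀).card : ℝ) * (B * ∑ x, G x) := by
    calc ((fib U x₀).card : ℝ) * ∑ x, G x * F x ≤ (∑ x, G x) * (B * (fib U x₀).card) := h2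
      _ = _ := by ring
  exact le_of_mul_le_mul_left h3 hc

variable {Ω : Type*} [Fintype Ω] [DecidableEq Ω]

open Classical in
/-- number of admissible `t`-tuples of solutions at the point `x` -/
noncomputable def ntup (E : Ω → (∀ i, X i) → Prop) (R : Ω → Ω → Prop) (t : ℕ) (x : ∀ i, X i) : ℕ :=
  (univ.filter (fun f : Fin t → Ω => (∀ j, E (f j) x) ∧ ∀ i j, i < j → R (f i) (f j))).card

open Classical in
/-- number of solutions at `y` admissible after all members of `T` -/
noncomputable def nnew (E : Ω → (∀ i, X i) → Prop) (R : Ω → Ω → Prop) (T : Finset Ω)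
    (y : ∀ i, X i) : ℕ :=
  (univ.filter (fun w : Ω => E w y ∧ ∀ w' ∈ T, R w' w)).card

open Classical in
/-- **The factorial moment lemma.** -/
theorem factMoment (S : Ω → Finset ι) (E : Ω → (∀ i, X i) → Prop)
    (hE : ∀ w x y, (∀ i ∈ S w, y i = x i) → (E w y ↔ E w x)) (R : Ω → Ω → Prop)
    (U₀ : Finset ι) (B : ℝ) (hB0 : 0 ≤ B) (t : ℕ)
    (hB : ∀ T : Finset Ω, T.card ≤ t → ∀ x : (∀ i, X i),
      ∑ y ∈ fib (U₀ ∪ T.biUnion S) x, (nnew E R T y : ℝ) ≤ B * (fib (U₀ ∪ T.biUnion S) x).card) :
    ∀ s ≤ t + 1, ∑ x : (∀ i, X i), (ntup E R s x : ℝ) ≤ B ^ s * Fintype.card (∀ i, X i) := by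
  intro s
  induction s with
  | zero =>
    intro _
    simp only [pow_zero, one_mul]
    have : ∀ x : (∀ i, X i), (ntup E R 0 x : ℝ) ≤ 1 := by
      intro x
      have : ntup E R 0 x ≤ (univ : Finset (Fin 0 → Ω)).card := Finset.card_le_card (filter_subset _ _)
      have h2 : (univ : Finset (Fin 0 → Ω)).card = 1 := by simp
      rw [h2] at this
      exact_mod_cast this
    calc ∑ x : (∀ i, X i), (ntup E R 0 x : ℝ) ≤ ∑ x : (∀ i, X i), (1 : ℝ) :=
          Finset.sum_le_sum (fun x _ => this x)
      _ = Fintype.card (∀ i, X i) := by simp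
  | succ s ih =>
    intro hs
    have ih' := ih (by omega)
    -- decompose the tuples
    have key : ∀ x : (∀ i, X i), (ntup E R (s+1) x : ℝ) =
        ∑ f : Fin s → Ω, (if (∀ j, E (f j) x) ∧ ∀ i j, i < j → R (f i) (f j) then (1:ℝ) else 0) *
          (nnew E R (univ.image f) x : ℝ) := by
      intro x
      unfold ntup nnew
      rw [Finset.card_filter]
      push_cast
      rw [← (Fin.snocEquiv (fun _ : Fin (s+1) => Ω)).sum_comp]
      rw [Fintype.sum_prod_type, Finset.sum_comm]
      refine Finset.sum_congr rfl (fun f _ => ?_)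
      rw [Finset.card_filter]
      push_cast
      rw [Finset.mul_sum]
      refine Finset.sum_congr rfl (fun w _ => ?_)
      have hiff : ((∀ j, E ((Fin.snocEquiv (fun _ : Fin (s+1) => Ω)) (w, f) j) x) ∧
          ∀ i j, i < j → R ((Fin.snocEquiv (fun _ : Fin (s+1) => Ω)) (w, f) i)
            ((Fin.snocEquiv (fun _ : Fin (s+1) => Ω)) (w, f) j)) ↔
          (((∀ j, E (f j) x) ∧ ∀ i j, i < j → R (f i) (f j)) ∧
            (E w x ∧ ∀ w' ∈ univ.image f, R w' w)) := by
        simp only [Fin.snocEquiv, Equiv.coe_fn_mk, Finset.mem_image, Finset.mem_univ, true_and,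
          forall_exists_index, forall_apply_eq_imp_iff]
        constructor
        · rintro ⟨h1, h2⟩
          refine ⟨⟨fun j => ?_, fun i j hij => ?_⟩, ?_, fun j => ?_⟩
          · simpa using h1 j.castSucc
          · have := h2 i.castSucc j.castSucc (by simpa using hij)
            simpa using this
          · simpa using h1 (Fin.last s)
          · have := h2 j.castSucc (Fin.last s) (Fin.castSucc_lt_last j)
            simpa using this
        · rintro ⟨⟨h1, h2⟩, h3, h4⟩
          refine ⟨fun j => ?_, fun i j hij => ?_⟩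
          · refine Fin.lastCases ?_ (fun j => ?_) j
            · simpa using h3
            · simpa using h1 j
          · revert hij
            refine Fin.lastCases ?_ (fun j => ?_) j
            · refine Fin.lastCases ?_ (fun i => ?_) i
              · intro h; exact absurd h (lt_irrefl _)
              · intro _
                simpa using h4 i
            · refine Fin.lastCases ?_ (fun i => ?_) i
              · intro h
                exact absurd h (not_lt.mpr (Fin.le_last _))
              · intro h
                have := h2 i j (by simpa using h)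
                simpa using this
      by_cases hA : ((∀ j, E (f j) x) ∧ ∀ i j, i < j → R (f i) (f j))
      · by_cases hB : (E w x ∧ ∀ w' ∈ univ.image f, R w' w)
        · rw [if_pos (hiff.mpr ⟨hA, hB⟩), if_pos hA, if_pos hB]; ring
        · rw [if_neg (fun h => hB (hiff.mp h).2), if_pos hA, if_neg hB]; ring
      · rw [if_neg (fun h => hA (hiff.mp h).1), if_neg hA]; ring
    calc ∑ x : (∀ i, X i), (ntup E R (s+1) x : ℝ)
        = ∑ f : Fin s → Ω, ∑ x : (∀ i, X i),
          (if (∀ j, E (f j) x) ∧ ∀ i j, i < j → R (f i) (f j) then (1:ℝ) else 0) *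
          (nnew E R (univ.image f) x : ℝ) := by
          rw [Finset.sum_comm]
          exact Finset.sum_congr rfl (fun x _ => key x)
      _ ≤ ∑ f : Fin s → Ω, B * ∑ x : (∀ i, X i),
          (if (∀ j, E (f j) x) ∧ ∀ i j, i < j → R (f i) (f j) then (1:ℝ) else 0) := by
          refine Finset.sum_le_sum (fun f _ => ?_)
          refine sum_avg_le (U₀ ∪ (univ.image f).biUnion S) _ _ ?_ ?_ B ?_
          · intro x y hy
            rw [mem_fib] at hy
            have : ∀ j, E (f j) y ↔ E (f j) x := by
              intro j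
              refine hE (f j) x y (fun i hi => hy i ?_)
              refine mem_union_right _ (mem_biUnion.mpr ⟨f j, mem_image_of_mem _ (mem_univ j), hi⟩)
            have h2 : ((∀ j, E (f j) y) ∧ ∀ i j, i < j → R (f i) (f j)) ↔
                ((∀ j, E (f j) x) ∧ ∀ i j, i < j → R (f i) (f j)) := by
              simp only [this]
            simp only [h2]
          · intro x
            split_ifs <;> norm_num
          · intro x
            refine hB (univ.image f) ?_ x
            calc (univ.image f).card ≤ (univ : Finset (Fin s)).card := Finset.card_image_le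
              _ = s := by simp
              _ ≤ t := by omega
      _ = B * ∑ x : (∀ i, X i), (ntup E R s x : ℝ) := by
          rw [← Finset.mul_sum, Finset.sum_comm]
          congr 1
          refine Finset.sum_congr rfl (fun x _ => ?_)
          unfold ntup
          rw [Finset.card_filter]
          push_cast
          rfl
      _ ≤ B * (B ^ s * Fintype.card (∀ i, X i)) := mul_le_mul_of_nonneg_left ih' hB0
      _ = B ^ (s+1) * Fintype.card (∀ i, X i) := by ring

end Pool.Agent.ETS
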