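import Mathlib
import Pool.Agent.ETS.FM

/-!
# E-T (MP_12a1af_nt), project T*: layouts, hashed elements and the far lemma
-/

open Finset

namespace Pool.Agent.ETS

/-- A layout: region `i` occupies the positions `[bot i, bot (i+1))`, its variable runs through
`V i` and has the content `c i v`; `core i v` is the part of the variable on which the shift of the
region `i + 1` may depend (the shifts of the later regions depend on everything). -/
structure Lay (N : ℕ) where
  bot : ℕ → ℕ
  V : ℕ → Finset (Fin N)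
  c : ℕ → Fin N → ℕ
  core : ℕ → Fin N → Fin N

/-- length of region `i` -/
def Lay.len {N : ℕ} (A : Lay N) (i : ℕ) : ℕ := A.bot (i + 1) - A.bot i

/-- the number with the digits blocks `w i` in the regions `i < m` -/
def pval (b : ℕ → ℕ) (w : ℕ → ℕ) (m : ℕ) : ℕ := ∑ i ∈ range m, 2 ^ b i * w i

lemma pval_succ (b w : ℕ → ℕ) (m : ℕ) : pval b w (m+1) = pval b w m + 2 ^ b m * w m := by
  simp [pval, sum_range_succ]

lemma pval_lt {b w : ℕ → ℕ} (hb0 : b 0 = 0) (hb : Monotone b) (hw : ∀ i, w i < 2 ^ (b (i+1) - b i))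
    (m : ℕ) : pval b w m < 2 ^ b m := by
  induction m with
  | zero => simp [pval, hb0]
  | succ m ih =>
    rw [pval_succ]
    have h1 : b m ≤ b (m+1) := hb (Nat.le_succ m)
    have h2 : 2 ^ b (m+1) = 2 ^ b m * 2 ^ (b (m+1) - b m) := by
      rw [← pow_add]; congr 1; omega
    have h3 : w m + 1 ≤ 2 ^ (b (m+1) - b m) := hw m
    calc pval b w m + 2 ^ b m * w m < 2 ^ b m + 2 ^ b m * w m := by omega
      _ = 2 ^ b m * (w m + 1) := by ring
      _ ≤ 2 ^ b m * 2 ^ (b (m+1) - b m) := Nat.mul_le_mul_left _ h3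
      _ = _ := h2.symm

/-- upper part: `pval` beyond `j` is divisible by `2 ^ b j` -/
lemma pval_split {b w : ℕ → ℕ} (hb : Monotone b) {j m : ℕ} (hjm : j ≤ m) :
    ∃ u, pval b w m = pval b w j + 2 ^ b j * u := by
  induction m, hjm using Nat.le_induction with
  | base => exact ⟨0, by simp⟩
  | succ m hjm ih =>
    obtain ⟨u, hu⟩ := ih
    refine ⟨u + 2 ^ (b m - b j) * w m, ?_⟩
    rw [pval_succ, hu]
    have : 2 ^ b m = 2 ^ b j * 2 ^ (b m - b j) := by
      rw [← pow_add]; congr 1; have := hb hjm; omega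
    rw [this]; ring

lemma pval_split_lt {b w : ℕ → ℕ} (hb0 : b 0 = 0) (hb : Monotone b)
    (hw : ∀ i, w i < 2 ^ (b (i+1) - b i)) {j m : ℕ} (hjm : j ≤ m) :
    ∃ u, u < 2 ^ (b m - b j) ∧ pval b w m = pval b w j + 2 ^ b j * u := by
  obtain ⟨u, hu⟩ := pval_split (w := w) hb hjm
  refine ⟨u, ?_, hu⟩
  have h1 := pval_lt hb0 hb hw m
  have h2 : 2 ^ b m = 2 ^ b j * 2 ^ (b m - b j) := by
    rw [← pow_add]; congr 1; have := hb hjm; omega
  have h3 : 2 ^ b j * u < 2 ^ b j * 2 ^ (b m - b j) := by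
    rw [← h2]; omega
  exact lt_of_mul_lt_mul_left h3 (Nat.zero_le _)

/-- the digit blocks can be read off -/
lemma pval_inj {b w w' : ℕ → ℕ} (hb0 : b 0 = 0) (hb : Monotone b)
    (hw : ∀ i, w i < 2 ^ (b (i+1) - b i)) (hw' : ∀ i, w' i < 2 ^ (b (i+1) - b i)) {m : ℕ}
    (h : pval b w m = pval b w' m) : ∀ i < m, w i = w' i := by
  induction m with
  | zero => intro i hi; omega
  | succ m ih =>
    rw [pval_succ, pval_succ] at h
    have h1 := pval_lt hb0 hb hw m
    have h2 := pval_lt hb0 hb hw' m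
    have hpos : 0 < 2 ^ b m := by positivity
    have e1 : w m = w' m := by
      have := congrArg (· / 2 ^ b m) h
      simp only [Nat.add_mul_div_left _ _ hpos, Nat.div_eq_of_lt h1, Nat.div_eq_of_lt h2,
        zero_add] at this
      exact this
    have e2 : pval b w m = pval b w' m := by
      rw [e1] at h; omega
    intro i hi
    rcases Nat.lt_succ_iff_lt_or_eq.mp hi with hi' | rfl
    · exact ih e2 i hi'
    · exact e1

lemma pval_congr {b w w' : ℕ → ℕ} {m : ℕ} (h : ∀ i < m, w i = w' i) : pval b w m = pval b w' m := by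
  unfold pval
  exact sum_congr rfl (fun i hi => by rw [h i (mem_range.mp hi)])

section

variable {M N Kmax : ℕ}

/-- the hash key of region `m`: all variables below `m - 1` and the core of variable `m - 1` -/
def key (A : Lay N) (m : ℕ) (z : Fin M → Fin N) : Fin M → Option (Fin N) :=
  fun j => if j.val + 1 < m then some (z j) else
    if j.val + 1 = m then some (A.core j.val (z j)) else none

lemma key_eq_iff {A : Lay N} {m : ℕ} {z z' : Fin M → Fin N} :
    key A m z = key A m z' ↔ (∀ j : Fin M, j.val + 1 < m → z j = z' j) ∧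
      (∀ j : Fin M, j.val + 1 = m → A.core j.val (z j) = A.core j.val (z' j)) := by
  constructor
  · intro h
    refine ⟨fun j hj => ?_, fun j hj => ?_⟩
    · have := congrFun h j
      simpa [key, hj] using this
    · have := congrFun h j
      have h2 : ¬ (j.val + 1 < m) := by omega
      simpa [key, hj, h2] using this
  · rintro ⟨h1, h2⟩
    funext j
    by_cases hj : j.val + 1 < m
    · simp [key, hj, h1 j hj]
    · by_cases hj' : j.val + 1 = m
      · simp only [key]
        rw [if_neg hj, if_neg hj, if_pos hj', if_pos hj', h2 j hj']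
      · simp [key, hj, hj']

lemma key_mono {A : Lay N} {m m' : ℕ} (h : m ≤ m') {z z' : Fin M → Fin N}
    (hz : key A m' z = key A m' z') : key A m z = key A m z' := by
  rcases Nat.eq_or_lt_of_le h with rfl | h
  · exact hz
  rw [key_eq_iff] at hz ⊢
  refine ⟨fun j hj => hz.1 j (by omega), fun j hj => ?_⟩
  rw [hz.1 j (by omega)]

/-- indices of the hash values: scale, region, key -/
abbrev Ind (M N Kmax : ℕ) := Fin (Kmax + 1) × Fin M × (Fin M → Option (Fin N))

/-- values of the hash functions -/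
abbrev Xsp (lay : ℕ → Lay N) (q : Ind M N Kmax) : Type := Fin (2 ^ (lay q.1).len q.2.1)

/-- the digit block of region `m` -/
def dig (lay : ℕ → Lay N) (L : Fin (Kmax+1)) (x : ∀ q : Ind M N Kmax, Xsp lay q)
    (z : Fin M → Fin N) (m : ℕ) : ℕ :=
  if h : m < M then
    ((lay L).c m (z ⟨m, h⟩) + (x (L, ⟨m, h⟩, key (lay L) m z)).val) % 2 ^ (lay L).len m
  else 0

lemma dig_lt (lay : ℕ → Lay N) (L : Fin (Kmax+1)) (x : ∀ q : Ind M N Kmax, Xsp lay q)
    (z : Fin M → Fin N) (m : ℕ) : dig lay L x z m < 2 ^ ((lay L).bot (m+1) - (lay L).bot m) := by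
  unfold dig
  split_ifs with h
  · exact Nat.mod_lt _ (by positivity)
  · positivity

/-- the element of scale `L` with the variables `z` -/
def elt (lay : ℕ → Lay N) (L : Fin (Kmax+1)) (x : ∀ q : Ind M N Kmax, Xsp lay q)
    (z : Fin M → Fin N) : ℕ := 2 ^ L.val + pval (lay L).bot (dig lay L x z) M

/-- possible pairs of blocks of variables: `b = (z_(i-1), z_i)` of scale `K` and
`b' = (z'_(i'-1), z'_i')` of scale `K'` -/
def Cons (A A' : Lay N) (K K' i i' n a κ₁ κ₂ a' κ₁' κ₂' : ℕ) (b b' : Fin N × Fin N) : Prop :=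
  ∃ u u', u < 2 ^ (K - A.bot (i+1)) ∧ u' < 2 ^ (K' - A'.bot (i'+1)) ∧
    (2 ^ K + (a + 2 ^ A.bot (i-1) * ((A.c (i-1) b.1 + κ₁) % 2 ^ A.len (i-1)) +
      2 ^ A.bot i * ((A.c i b.2 + κ₂) % 2 ^ A.len i) + 2 ^ A.bot (i+1) * u)) +
    (2 ^ K' + (a' + 2 ^ A'.bot (i'-1) * ((A'.c (i'-1) b'.1 + κ₁') % 2 ^ A'.len (i'-1)) +
      2 ^ A'.bot i' * ((A'.c i' b'.2 + κ₂') % 2 ^ A'.len i') + 2 ^ A'.bot (i'+1) * u'))
      = n

end

end Pool.Agent.ETS
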