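import Mathlib
import Pool.Agent.ETS.Far

/-!
# E-T (MP_12a1af_nt), project T*: counting the hash values for one pair of variable tuples
-/

open Finset

namespace Pool.Agent.ETS

section fibcard

variable {ι : Type*} [Fintype ι] [DecidableEq ι] {X : ι → Type*} [∀ i, Fintype (X i)]
  [∀ i, DecidableEq (X i)]

lemma card_fib_insert {U : Finset ι} {q : ι} (hq : q ∉ U) (x : ∀ i, X i) :
    (fib U x).card = Fintype.card (X q) * (fib (insert q U) x).card := by
  classical
  have h1 : (fib U x).card = ∑ v : X q, ((fib U x).filter (fun y => y q = v)).card := by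
    refine Finset.card_eq_sum_card_fiberwise (f := fun y : (∀ i, X i) => y q) (t := univ) ?_
    intro y _
    simp
  have h2 : ∀ v : X q, ((fib U x).filter (fun y => y q = v)).card = (fib (insert q U) x).card := by
    intro v
    have h3 : (fib U x).filter (fun y => y q = v) = fib (insert q U) (Function.update x q v) := by
      ext y
      simp only [mem_filter, mem_fib, mem_insert, forall_eq_or_imp, Function.update_self]
      constructor
      · rintro ⟨h, rfl⟩
        refine ⟨rfl, fun i hi => ?_⟩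
        have : i ≠ q := fun h' => hq (h' ▸ hi)
        rw [Function.update_of_ne this]
        exact h i hi
      · rintro ⟨h, h'⟩
        refine ⟨fun i hi => ?_, h⟩
        have : i ≠ q := fun h' => hq (h' ▸ hi)
        have h4 := h' i hi
        rwa [Function.update_of_ne this] at h4
    rw [h3]
    exact card_fib_const _ _ _
  rw [h1, Finset.sum_congr rfl (fun v _ => h2 v)]
  simp

lemma card_fib_union {U Q : Finset ι} (hd : Disjoint U Q) (x : ∀ i, X i) :
    (fib U x).card = (∏ q ∈ Q, Fintype.card (X q)) * (fib (U ∪ Q) x).card := by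
  classical
  induction Q using Finset.induction_on with
  | empty => simp
  | insert q Q hq ih =>
    have hd' : Disjoint U Q := Disjoint.mono_right (subset_insert q Q) hd
    have hqU : q ∉ U := fun h => (Finset.disjoint_left.mp hd) h (mem_insert_self q Q)
    rw [ih hd', prod_insert hq, card_fib_insert (U := U ∪ Q) (q := q) (by simp [hq, hqU]) x]
    have : insert q (U ∪ Q) = U ∪ insert q Q := by
      ext a; simp
    rw [this]
    ring

end fibcard

section

variable {M N Kmax : ℕ} (lay : ℕ → Lay N)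

/-- standing assumptions on the layouts -/
structure GoodLay (M : ℕ) (lay : ℕ → Lay N) (Kmax : ℕ) : Prop where
  bot0 : ∀ L ≤ Kmax, (lay L).bot 0 = 0
  mono : ∀ L ≤ Kmax, Monotone (lay L).bot
  top : ∀ L ≤ Kmax, (lay L).bot M = L

/-- hash indices used by `z` in the regions `m ∈ [i, M)` -/
def hidx (L : Fin (Kmax+1)) (z : Fin M → Fin N) (i : ℕ) : Finset (Ind M N Kmax) :=
  (univ.filter (fun m : Fin M => i ≤ m.val)).image (fun m => (L, m, key (lay L) m.val z))

lemma mem_hidx {L : Fin (Kmax+1)} {z : Fin M → Fin N} {i : ℕ} {q : Ind M N Kmax} :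
    q ∈ hidx lay L z i ↔ ∃ m : Fin M, i ≤ m.val ∧ q = (L, m, key (lay L) m.val z) := by
  simp only [hidx, mem_image, mem_filter, mem_univ, true_and]
  constructor
  · rintro ⟨m, hm, rfl⟩; exact ⟨m, hm, rfl⟩
  · rintro ⟨m, hm, rfl⟩; exact ⟨m, hm, rfl⟩

lemma prod_hidx (hG : GoodLay M lay Kmax) (L : Fin (Kmax+1)) (z : Fin M → Fin N) {i : ℕ}
    (hi : i ≤ M) :
    ∏ q ∈ hidx lay L z i, Fintype.card (Xsp lay q) = 2 ^ (L.val - (lay L).bot i) := by
  unfold hidx
  rw [prod_image (by
    intro a _ b _ hab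
    simp only [Prod.mk.injEq] at hab
    exact hab.2.1)]
  have hL : L.val ≤ Kmax := by have := L.isLt; omega
  simp only [Fintype.card_fin]
  rw [Finset.prod_pow_eq_pow_sum]
  congr 1
  have h1 : ∑ m ∈ univ.filter (fun m : Fin M => i ≤ m.val), (lay L).len m.val
      = ∑ m ∈ (range M).filter (fun m => i ≤ m), (lay L).len m := by
    rw [Finset.sum_filter, Finset.sum_filter]
    exact Fin.sum_univ_eq_sum_range (fun m => if i ≤ m then (lay L).len m else 0) M
  rw [h1]
  have h2 : (range M).filter (fun m => i ≤ m) = Ico i M := by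
    ext m; simp [and_comm]
  rw [h2]
  unfold Lay.len
  rw [Finset.sum_Ico_eq_sum_range]
  have h3 : ∀ k, ∑ m ∈ range k, ((lay L).bot (i + m + 1) - (lay L).bot (i + m))
      = (lay L).bot (i + k) - (lay L).bot i := by
    intro k
    induction k with
    | zero => simp
    | succ k ih =>
      rw [sum_range_succ, ih]
      have a1 : (lay L).bot i ≤ (lay L).bot (i+k) := hG.mono L hL (by omega)
      have a2 : (lay L).bot (i+k) ≤ (lay L).bot (i+k+1) := hG.mono L hL (by omega)
      have : i + (k+1) = i + k + 1 := by ring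
      rw [this]
      omega
  rw [h3]
  have : i + (M - i) = M := by omega
  rw [this, hG.top L hL]

/-- equal elements have equal hash values along the variables -/
lemma hash_eq_of_dig_eq {L : Fin (Kmax+1)} {x y : ∀ q : Ind M N Kmax, Xsp lay q}
    {z : Fin M → Fin N} {m : Fin M} (h : dig lay L x z m.val = dig lay L y z m.val) :
    x (L, m, key (lay L) m.val z) = y (L, m, key (lay L) m.val z) := by
  unfold dig at h
  rw [dif_pos m.isLt, dif_pos m.isLt] at h
  have h1 : (x (L, m, key (lay L) m.val z)).val < 2 ^ (lay L).len m.val := (x (L, m, key (lay L) m.val z)).isLt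
  have h2 : (y (L, m, key (lay L) m.val z)).val < 2 ^ (lay L).len m.val := (y (L, m, key (lay L) m.val z)).isLt
  apply Fin.ext
  have h3 : ((lay L).c m.val (z m) + (x (L, m, key (lay L) m.val z)).val) ≡
      ((lay L).c m.val (z m) + (y (L, m, key (lay L) m.val z)).val) [MOD 2 ^ (lay L).len m.val] := h
  have h4 := Nat.ModEq.add_left_cancel' _ h3
  have h5 := h4.eq_of_lt_of_lt h1 h2
  exact h5

lemma dig_congr {L : Fin (Kmax+1)} {x y : ∀ q : Ind M N Kmax, Xsp lay q}
    {z : Fin M → Fin N} {m : ℕ} (h : ∀ hm : m < M, x (L, ⟨m, hm⟩, key (lay L) m z) = y (L, ⟨m, hm⟩, key (lay L) m z)) :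
    dig lay L x z m = dig lay L y z m := by
  unfold dig
  split_ifs with hm
  · rw [h hm]
  · rfl

/-- the number of hash values in a fibre for which the pair `(z, z')` is a solution -/
lemma card_sol_le (hG : GoodLay M lay Kmax) {K K' : Fin (Kmax+1)} (hKK : K' < K) (n : ℕ)
    (z z' : Fin M → Fin N) (U : Finset (Ind M N Kmax)) (x : ∀ q : Ind M N Kmax, Xsp lay q)
    {i i' : ℕ} (hi : i < M) (hi' : i' < M)
    (h1 : ∀ m : Fin M, m.val ≤ i → (K, m, key (lay K) m.val z) ∈ U)
    (h2 : ∀ m : Fin M, i < m.val → (K, m, key (lay K) m.val z) ∉ U)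
    (h1' : ∀ m : Fin M, m.val ≤ i' → (K', m, key (lay K') m.val z') ∈ U)
    (h2' : ∀ m : Fin M, i' < m.val → (K', m, key (lay K') m.val z') ∉ U) (μ : ℕ)
    (hμ : μ = max ((lay K').bot (i'+1)) (min ((lay K).bot (i+1)) K'.val)) :
    ((fib U x).filter (fun y => elt lay K y z + elt lay K' y z' = n)).card *
      2 ^ ((K.val - (lay K).bot (i+1)) + (K'.val - (lay K').bot (i'+1))) ≤
      2 ^ (K'.val - μ) * (fib U x).card := by
  classical
  have hKm : K.val ≤ Kmax := by have := K.isLt; omega
  have hKm' : K'.val ≤ Kmax := by have := K'.isLt; omega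
  set Q := hidx lay K z (i+1) ∪ hidx lay K' z' (i'+1) with hQ
  have hdQ : Disjoint (hidx lay K z (i+1)) (hidx lay K' z' (i'+1)) := by
    rw [Finset.disjoint_left]
    intro q hq hq'
    rw [mem_hidx] at hq hq'
    obtain ⟨m, _, rfl⟩ := hq
    obtain ⟨m', _, h⟩ := hq'
    simp only [Prod.mk.injEq] at h
    exact absurd h.1 (ne_of_gt hKK)
  have hdU : Disjoint U Q := by
    rw [Finset.disjoint_left]
    intro q hq hq'
    rw [hQ, mem_union, mem_hidx, mem_hidx] at hq'
    rcases hq' with ⟨m, hm, rfl⟩ | ⟨m, hm, rfl⟩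
    · exact h2 m (by omega) hq
    · exact h2' m (by omega) hq
  have hcard := card_fib_union (X := fun q : Ind M N Kmax => Xsp lay q) hdU x
  rw [hQ, prod_union hdQ, prod_hidx lay hG K z (by omega), prod_hidx lay hG K' z' (by omega),
    ← pow_add, ← hQ] at hcard
  -- main count
  set Y := (fib U x).filter (fun y => elt lay K y z + elt lay K' y z' = n) with hY
  set v : (∀ q : Ind M N Kmax, Xsp lay q) → ℕ :=
    fun y => pval (lay K').bot (dig lay K' y z') M with hv
  have hb0 := hG.bot0 K hKm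
  have hb0' := hG.bot0 K' hKm'
  have hbm := hG.mono K hKm
  have hbm' := hG.mono K' hKm'
  have hagree : ∀ y ∈ Y, ∀ y' ∈ Y, pval (lay K).bot (dig lay K y z) (i+1) =
      pval (lay K).bot (dig lay K y' z) (i+1) := by
    intro y hy y' hy'
    rw [hY, mem_filter, mem_fib] at hy hy'
    refine pval_congr (fun m hm => dig_congr lay (fun hmM => ?_))
    rw [hy.1 _ (h1 ⟨m, hmM⟩ (by simpa using Nat.lt_succ_iff.mp hm)),
      hy'.1 _ (h1 ⟨m, hmM⟩ (by simpa using Nat.lt_succ_iff.mp hm))]
  have hagree' : ∀ y ∈ Y, ∀ y' ∈ Y, pval (lay K').bot (dig lay K' y z') (i'+1) =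
      pval (lay K').bot (dig lay K' y' z') (i'+1) := by
    intro y hy y' hy'
    rw [hY, mem_filter, mem_fib] at hy hy'
    refine pval_congr (fun m hm => dig_congr lay (fun hmM => ?_))
    rw [hy.1 _ (h1' ⟨m, hmM⟩ (by simpa using Nat.lt_succ_iff.mp hm)),
      hy'.1 _ (h1' ⟨m, hmM⟩ (by simpa using Nat.lt_succ_iff.mp hm))]
  have hvmod : ∀ y ∈ Y, ∀ y' ∈ Y, v y ≡ v y' [MOD 2 ^ μ] := by
    intro y hy y' hy'
    have hA : v y ≡ v y' [MOD 2 ^ (lay K').bot (i'+1)] := by
      obtain ⟨u, hu⟩ := pval_split (w := dig lay K' y z') hbm' (j := i'+1) (m := M) (by omega)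
      obtain ⟨u', hu'⟩ := pval_split (w := dig lay K' y' z') hbm' (j := i'+1) (m := M) (by omega)
      simp only [hv]
      rw [hu, hu', hagree' y hy y' hy']
      refine Nat.ModEq.add_left _ ?_
      exact (Nat.modEq_zero_iff_dvd.mpr (Dvd.intro _ rfl)).trans
        (Nat.modEq_zero_iff_dvd.mpr (Dvd.intro _ rfl)).symm
    have hB : v y ≡ v y' [MOD 2 ^ (lay K).bot (i+1)] := by
      obtain ⟨u, hu⟩ := pval_split (w := dig lay K y z) hbm (j := i+1) (m := M) (by omega)
      obtain ⟨u', hu'⟩ := pval_split (w := dig lay K y' z) hbm (j := i+1) (m := M) (by omega)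
      have hyn := (mem_filter.mp hy).2
      have hyn' := (mem_filter.mp hy').2
      unfold elt at hyn hyn'
      rw [hu] at hyn
      rw [hu', ← hagree y hy y' hy'] at hyn'
      simp only [hv]
      have e : 2 ^ (lay K).bot (i+1) * u + pval (lay K').bot (dig lay K' y z') M =
          2 ^ (lay K).bot (i+1) * u' + pval (lay K').bot (dig lay K' y' z') M := by omega
      have e2 : (2 ^ (lay K).bot (i+1) * u + pval (lay K').bot (dig lay K' y z') M)
          ≡ (2 ^ (lay K).bot (i+1) * u' + pval (lay K').bot (dig lay K' y' z') M)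
          [MOD 2 ^ (lay K).bot (i+1)] := by rw [e]
      have f1 : (2 ^ (lay K).bot (i+1) * u) ≡ (2 ^ (lay K).bot (i+1) * u')
          [MOD 2 ^ (lay K).bot (i+1)] :=
        (Nat.modEq_zero_iff_dvd.mpr (Dvd.intro _ rfl)).trans
        (Nat.modEq_zero_iff_dvd.mpr (Dvd.intro _ rfl)).symm
      exact Nat.ModEq.add_left_cancel f1 e2
    rw [hμ]
    rcases le_total ((lay K').bot (i'+1)) (min ((lay K).bot (i+1)) K'.val) with h | h
    · rw [max_eq_right h]
      exact hB.of_dvd (pow_dvd_pow 2 (min_le_left _ _))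
    · rw [max_eq_left h]
      exact hA
  have hμK : μ ≤ K'.val := by
    rw [hμ]
    refine max_le ?_ (min_le_right _ _)
    have h9 : (lay K').bot (i'+1) ≤ (lay K').bot M := hbm' (by omega)
    rwa [hG.top K' hKm'] at h9
  have hvlt : ∀ y, v y < 2 ^ K'.val := by
    intro y
    have := pval_lt hb0' hbm' (dig_lt lay K' y z') M
    rw [hG.top K' hKm'] at this
    exact this
  have himg : (Y.image v).card ≤ 2 ^ (K'.val - μ) := by
    rcases Y.eq_empty_or_nonempty with hYe | ⟨y₀, hy₀⟩
    · rw [hYe]; simp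
    · have : (Y.image v).card ≤ (range (2 ^ (K'.val - μ))).card := by
        refine Finset.card_le_card_of_injOn (fun w => w / 2 ^ μ) ?_ ?_
        · intro w hw
          obtain ⟨y, hy, rfl⟩ := mem_image.mp (Finset.mem_coe.mp hw)
          simp only [coe_range, Set.mem_Iio]
          rw [Nat.div_lt_iff_lt_mul (by positivity), ← pow_add]
          have : K'.val - μ + μ = K'.val := by omega
          rw [this]
          exact hvlt y
        · intro w hw w' hw' hww
          obtain ⟨y, hy, rfl⟩ := mem_image.mp (Finset.mem_coe.mp hw)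
          obtain ⟨y', hy', rfl⟩ := mem_image.mp (Finset.mem_coe.mp hw')
          have a1 := Nat.div_add_mod (v y) (2 ^ μ)
          have a2 := Nat.div_add_mod (v y') (2 ^ μ)
          have a3 : v y % 2 ^ μ = v y' % 2 ^ μ := hvmod y hy y' hy'
          simp only at hww
          rw [← a1, ← a2, hww, a3]
      simpa using this
  have hfibc : ∀ w ∈ Y.image v, (Y.filter (fun y => v y = w)).card ≤ (fib (U ∪ Q) x).card := by
    intro w hw
    obtain ⟨y₀, hy₀, rfl⟩ := mem_image.mp hw
    rw [card_fib_const (U ∪ Q) x y₀]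
    refine card_le_card ?_
    intro y hy
    rw [mem_filter] at hy
    obtain ⟨hyY, hvy⟩ := hy
    rw [mem_fib]
    intro q hq
    rw [mem_union] at hq
    have hyU := (mem_filter.mp hyY).1
    have hyn := (mem_filter.mp hyY).2
    have hyU₀ := (mem_filter.mp hy₀).1
    have hyn₀ := (mem_filter.mp hy₀).2
    rw [mem_fib] at hyU hyU₀
    rcases hq with hq | hq
    · rw [hyU q hq, hyU₀ q hq]
    · have hv2 : pval (lay K').bot (dig lay K' y z') M = pval (lay K').bot (dig lay K' y₀ z') M := hvy
      have hv1 : pval (lay K).bot (dig lay K y z) M = pval (lay K).bot (dig lay K y₀ z) M := by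
        unfold elt at hyn hyn₀
        omega
      rw [hQ, mem_union, mem_hidx, mem_hidx] at hq
      rcases hq with ⟨m, hm, rfl⟩ | ⟨m, hm, rfl⟩
      · exact hash_eq_of_dig_eq lay
          (pval_inj hb0 hbm (dig_lt lay K y z) (dig_lt lay K y₀ z) hv1 m.val m.isLt)
      · exact hash_eq_of_dig_eq lay
          (pval_inj hb0' hbm' (dig_lt lay K' y z') (dig_lt lay K' y₀ z') hv2 m.val m.isLt)
  have hYc := Finset.card_le_mul_card_image Y _ hfibc
  rw [hcard]
  calc Y.card * 2 ^ ((K.val - (lay K).bot (i+1)) + (K'.val - (lay K').bot (i'+1)))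
      ≤ ((fib (U ∪ Q) x).card * (Y.image v).card) *
        2 ^ ((K.val - (lay K).bot (i+1)) + (K'.val - (lay K').bot (i'+1))) :=
        Nat.mul_le_mul_right _ hYc
    _ ≤ ((fib (U ∪ Q) x).card * 2 ^ (K'.val - μ)) *
        2 ^ ((K.val - (lay K).bot (i+1)) + (K'.val - (lay K').bot (i'+1))) :=
        Nat.mul_le_mul_right _ (Nat.mul_le_mul_left _ himg)
    _ = _ := by ring

lemma pval_congr_dig {L : Fin (Kmax+1)} {x y : ∀ q : Ind M N Kmax, Xsp lay q}
    {z : Fin M → Fin N} {i j : ℕ} (hj : j ≤ i + 1)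
    (h : ∀ m : Fin M, m.val ≤ i → y (L, m, key (lay L) m.val z) = x (L, m, key (lay L) m.val z)) :
    pval (lay L).bot (dig lay L y z) j = pval (lay L).bot (dig lay L x z) j := by
  refine pval_congr (fun m hm => dig_congr lay (fun hmM => ?_))
  exact h ⟨m, hmM⟩ (by show m ≤ i; omega)

lemma dig_val {L : Fin (Kmax+1)} (x : ∀ q : Ind M N Kmax, Xsp lay q) (z : Fin M → Fin N) {m : ℕ}
    (hm : m < M) : dig lay L x z m =
      ((lay L).c m (z ⟨m, hm⟩) + (x (L, ⟨m, hm⟩, key (lay L) m z)).val) % 2 ^ (lay L).len m := by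
  unfold dig
  rw [dif_pos hm]

/-- if the pair is a solution for some hash values in the fibre then the variables of the regions
`i-1`, `i` and `i'-1`, `i'` are consistent -/
lemma cons_of_sol (hG : GoodLay M lay Kmax) {K K' : Fin (Kmax+1)} (n : ℕ)
    (z z' : Fin M → Fin N) (U : Finset (Ind M N Kmax)) (x : ∀ q : Ind M N Kmax, Xsp lay q)
    {i i' : ℕ} (hi0 : 1 ≤ i) (hi0' : 1 ≤ i') (hi : i < M) (hi' : i' < M)
    (h1 : ∀ m : Fin M, m.val ≤ i → (K, m, key (lay K) m.val z) ∈ U)
    (h1' : ∀ m : Fin M, m.val ≤ i' → (K', m, key (lay K') m.val z') ∈ U)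
    {y : ∀ q : Ind M N Kmax, Xsp lay q} (hy : y ∈ fib U x)
    (hn : elt lay K y z + elt lay K' y z' = n) :
    Cons (lay K) (lay K') K K' i i' n (pval (lay K).bot (dig lay K x z) (i-1))
      (x (K, ⟨i-1, by omega⟩, key (lay K) (i-1) z)).val (x (K, ⟨i, hi⟩, key (lay K) i z)).val
      (pval (lay K').bot (dig lay K' x z') (i'-1))
      (x (K', ⟨i'-1, by omega⟩, key (lay K') (i'-1) z')).val
      (x (K', ⟨i', hi'⟩, key (lay K') i' z')).val
      (z ⟨i-1, by omega⟩, z ⟨i, hi⟩) (z' ⟨i'-1, by omega⟩, z' ⟨i', hi'⟩) := by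
  have hKm : K.val ≤ Kmax := by have := K.isLt; omega
  have hKm' : K'.val ≤ Kmax := by have := K'.isLt; omega
  rw [mem_fib] at hy
  have hb0 := hG.bot0 K hKm
  have hb0' := hG.bot0 K' hKm'
  have hbm := hG.mono K hKm
  have hbm' := hG.mono K' hKm'
  obtain ⟨u, hult, hu⟩ := pval_split_lt hb0 hbm (dig_lt lay K y z) (j := i+1) (m := M) (by omega)
  obtain ⟨u', hult', hu'⟩ := pval_split_lt hb0' hbm' (dig_lt lay K' y z') (j := i'+1) (m := M)
    (by omega)
  rw [hG.top K hKm] at hult
  rw [hG.top K' hKm'] at hult'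
  refine ⟨u, u', hult, hult', ?_⟩
  have g1 : ∀ m : Fin M, m.val ≤ i → y (K, m, key (lay K) m.val z) = x (K, m, key (lay K) m.val z) :=
    fun m hm => hy _ (h1 m hm)
  have g1' : ∀ m : Fin M, m.val ≤ i' → y (K', m, key (lay K') m.val z') =
      x (K', m, key (lay K') m.val z') := fun m hm => hy _ (h1' m hm)
  rw [pval_congr_dig lay (le_refl _) g1, pval_succ] at hu
  rw [pval_congr_dig lay (le_refl _) g1', pval_succ] at hu'
  have s1 : pval (lay K).bot (dig lay K x z) i = pval (lay K).bot (dig lay K x z) (i-1) +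
      2 ^ (lay K).bot (i-1) * dig lay K x z (i-1) := by
    have := pval_succ (lay K).bot (dig lay K x z) (i-1)
    have h2 : i - 1 + 1 = i := by omega
    rwa [h2] at this
  have s1' : pval (lay K').bot (dig lay K' x z') i' = pval (lay K').bot (dig lay K' x z') (i'-1) +
      2 ^ (lay K').bot (i'-1) * dig lay K' x z' (i'-1) := by
    have := pval_succ (lay K').bot (dig lay K' x z') (i'-1)
    have h2 : i' - 1 + 1 = i' := by omega
    rwa [h2] at this
  rw [s1, dig_val lay x z (show i-1 < M by omega), dig_val lay x z hi] at hu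
  rw [s1', dig_val lay x z' (show i'-1 < M by omega), dig_val lay x z' hi'] at hu'
  unfold elt at hn
  rw [hu, hu'] at hn
  exact hn

end

end Pool.Agent.ETS
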