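import Mathlib
import Pool.Agent.ETS.Far2

/-!
# E-T (MP_12a1af_nt), project T*: the far lemma, known keys
-/

open Finset

namespace Pool.Agent.ETS

section

variable {M N Kmax : ℕ} (lay : ℕ → Lay N)

lemma dig_key_congr {L : Fin (Kmax+1)} (x : ∀ q : Ind M N Kmax, Xsp lay q)
    {z z₀ : Fin M → Fin N} {i m : ℕ} (h : key (lay L) i z = key (lay L) i z₀) (hm : m + 1 < i) :
    dig lay L x z m = dig lay L x z₀ m := by
  unfold dig
  split_ifs with hM
  · have h1 : z ⟨m, hM⟩ = z₀ ⟨m, hM⟩ := (key_eq_iff.mp h).1 ⟨m, hM⟩ hm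
    have h2 : key (lay L) m z = key (lay L) m z₀ := key_mono (by omega) h
    rw [h1, h2]
  · rfl

/-- candidates for solutions at scale `K` : scale `K'`, variables of `a`, variables of `a'` -/
abbrev Cand (M N Kmax : ℕ) := Fin (Kmax+1) × (Fin M → Fin N) × (Fin M → Fin N)

/-- `w` is a solution of `a + a' = n` with `a` of scale `K` and `a'` of scale at most `K - g` -/
def IsSol (K : Fin (Kmax+1)) (g n : ℕ) (w : Cand M N Kmax)
    (x : ∀ q : Ind M N Kmax, Xsp lay q) : Prop :=
  w.1.val + g ≤ K.val ∧ (∀ m : Fin M, w.2.1 m ∈ (lay K).V m) ∧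
    (∀ m : Fin M, w.2.2 m ∈ (lay w.1).V m) ∧ elt lay K x w.2.1 + elt lay w.1 x w.2.2 = n

/-- hash indices used by a candidate -/
def Sidx (K : Fin (Kmax+1)) (w : Cand M N Kmax) : Finset (Ind M N Kmax) :=
  hidx lay K w.2.1 0 ∪ hidx lay w.1 w.2.2 0

/-- the keys of the window of `a` are different -/
def Rdiff (K : Fin (Kmax+1)) (w' w : Cand M N Kmax) : Prop :=
  key (lay K) (M-1) w'.2.1 ≠ key (lay K) (M-1) w.2.1

lemma elt_congr (L : Fin (Kmax+1)) {x y : ∀ q : Ind M N Kmax, Xsp lay q} {z : Fin M → Fin N}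
    (h : ∀ q ∈ hidx lay L z 0, y q = x q) : elt lay L y z = elt lay L x z := by
  unfold elt
  congr 1
  refine pval_congr (fun m hm => dig_congr lay (fun hmM => ?_))
  exact h _ ((mem_hidx lay).mpr ⟨⟨m, hmM⟩, Nat.zero_le _, rfl⟩)

lemma isSol_congr (K : Fin (Kmax+1)) (g n : ℕ) (w : Cand M N Kmax)
    (x y : ∀ q : Ind M N Kmax, Xsp lay q) (h : ∀ q ∈ Sidx lay K w, y q = x q) :
    IsSol lay K g n w y ↔ IsSol lay K g n w x := by
  unfold IsSol
  rw [elt_congr lay K (fun q hq => h q (mem_union_left _ hq)),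
    elt_congr lay w.1 (fun q hq => h q (mem_union_right _ hq))]

/-- all indices of the regions `0` and `1` -/
def U0 : Finset (Ind M N Kmax) := univ.filter (fun q => q.2.1.val ≤ 1)

/-- the known set -/
def Uof (K : Fin (Kmax+1)) (T : Finset (Cand M N Kmax)) : Finset (Ind M N Kmax) :=
  U0 ∪ T.biUnion (Sidx lay K)

lemma U_closed {K : Fin (Kmax+1)} {T : Finset (Cand M N Kmax)} {L : Fin (Kmax+1)}
    {z : Fin M → Fin N} {m m₀ : Fin M} (hm : m₀ ≤ m)
    (h : (L, m, key (lay L) m.val z) ∈ Uof lay K T) :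
    (L, m₀, key (lay L) m₀.val z) ∈ Uof lay K T := by
  unfold Uof at *
  rw [mem_union] at *
  rcases h with h | h
  · left
    unfold U0 at *
    simp only [mem_filter, mem_univ, true_and] at *
    have : m₀.val ≤ m.val := hm
    omega
  · right
    rw [mem_biUnion] at *
    obtain ⟨w, hw, h⟩ := h
    refine ⟨w, hw, ?_⟩
    unfold Sidx at *
    rw [mem_union, mem_hidx, mem_hidx] at *
    rcases h with ⟨m', _, h⟩ | ⟨m', _, h⟩
    · left
      simp only [Prod.mk.injEq] at h
      obtain ⟨h1, h2, h3⟩ := h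
      subst h1 h2
      exact ⟨m₀, Nat.zero_le _, by rw [key_mono (show m₀.val ≤ m.val from hm) h3]⟩
    · right
      simp only [Prod.mk.injEq] at h
      obtain ⟨h1, h2, h3⟩ := h
      subst h1 h2
      exact ⟨m₀, Nat.zero_le _, by rw [key_mono (show m₀.val ≤ m.val from hm) h3]⟩

open Classical in
/-- known keys of region `i` at scale `L` -/
noncomputable def Pfx (K : Fin (Kmax+1)) (T : Finset (Cand M N Kmax)) (L : Fin (Kmax+1)) (i : ℕ) :
    Finset (Fin M → Option (Fin N)) :=
  univ.filter (fun p => (∃ z : Fin M → Fin N, (∀ m : Fin M, z m ∈ (lay L).V m) ∧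
    p = key (lay L) i z) ∧ ∃ hi : i < M, (L, ⟨i, hi⟩, p) ∈ Uof lay K T)

lemma card_Pfx (hV0 : ∀ L ≤ Kmax, ((lay L).V 0).card ≤ 1) (K : Fin (Kmax+1))
    (T : Finset (Cand M N Kmax)) (L : Fin (Kmax+1)) (i : ℕ) :
    (Pfx lay K T L i).card ≤ 2 * T.card + 1 := by
  classical
  have hLm : L.val ≤ Kmax := by have := L.isLt; omega
  -- the common key of the regions `0` and `1`
  obtain ⟨p₀, hp₀⟩ : ∃ p₀ : Fin M → Option (Fin N), ∀ z : Fin M → Fin N,
      (∀ m : Fin M, z m ∈ (lay L).V m) → i ≤ 1 → key (lay L) i z = p₀ := by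
    by_cases hz : ∃ z₀ : Fin M → Fin N, ∀ m : Fin M, z₀ m ∈ (lay L).V m
    · obtain ⟨z₀, hz₀⟩ := hz
      refine ⟨key (lay L) i z₀, fun z hz hi => ?_⟩
      rw [key_eq_iff]
      refine ⟨fun j hj => by omega, fun j hj => ?_⟩
      have hj0 : j.val = 0 := by omega
      have h1 := hz j
      have h2 := hz₀ j
      rw [hj0] at h1 h2
      rw [Finset.card_le_one.mp (hV0 L hLm) _ h1 _ h2]
    · refine ⟨fun _ => none, fun z hz' _ => absurd ⟨z, hz'⟩ hz⟩
  have hsub : Pfx lay K T L i ⊆ insert p₀ (T.image (fun w => key (lay L) i w.2.1) ∪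
      T.image (fun w => key (lay L) i w.2.2)) := by
    intro p hp
    unfold Pfx at hp
    simp only [mem_filter, mem_univ, true_and] at hp
    obtain ⟨⟨z, hzV, rfl⟩, hi, h⟩ := hp
    unfold Uof at h
    rw [mem_union] at h
    rw [mem_insert, mem_union, mem_image, mem_image]
    rcases h with h | h
    · left
      unfold U0 at h
      simp only [mem_filter, mem_univ, true_and] at h
      exact hp₀ z hzV h
    · right
      rw [mem_biUnion] at h
      obtain ⟨w, hw, h⟩ := h
      unfold Sidx at h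
      rw [mem_union, mem_hidx, mem_hidx] at h
      rcases h with ⟨m', _, h⟩ | ⟨m', _, h⟩
      · left
        simp only [Prod.mk.injEq] at h
        obtain ⟨h1, h2, h3⟩ := h
        refine ⟨w, hw, ?_⟩
        rw [h3, ← h2, h1]
      · right
        simp only [Prod.mk.injEq] at h
        obtain ⟨h1, h2, h3⟩ := h
        refine ⟨w, hw, ?_⟩
        rw [h3, ← h2, h1]
  calc (Pfx lay K T L i).card ≤ _ := card_le_card hsub
    _ ≤ (T.image (fun w => key (lay L) i w.2.1) ∪ T.image (fun w => key (lay L) i w.2.2)).card + 1 :=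
        card_insert_le _ _
    _ ≤ ((T.image (fun w => key (lay L) i w.2.1)).card +
          (T.image (fun w => key (lay L) i w.2.2)).card) + 1 :=
        Nat.add_le_add_right (card_union_le _ _) _
    _ ≤ (T.card + T.card) + 1 := by
        have h1 := card_image_le (s := T) (f := fun w : Cand M N Kmax => key (lay L) i w.2.1)
        have h2 := card_image_le (s := T) (f := fun w : Cand M N Kmax => key (lay L) i w.2.2)
        omega
    _ = _ := by ring

open Classical in
/-- the last region whose hash shift is known for `z` -/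
noncomputable def lastKnown (K : Fin (Kmax+1)) (T : Finset (Cand M N Kmax)) (L : Fin (Kmax+1))
    (z : Fin M → Fin N) : ℕ :=
  Nat.findGreatest (fun m => ∃ hm : m < M, (L, ⟨m, hm⟩, key (lay L) m z) ∈ Uof lay K T) (M-1)

lemma lastKnown_lt (hM : 0 < M) (K : Fin (Kmax+1)) (T : Finset (Cand M N Kmax))
    (L : Fin (Kmax+1)) (z : Fin M → Fin N) : lastKnown lay K T L z < M := by
  unfold lastKnown
  have := Nat.findGreatest_le
    (P := fun m => ∃ hm : m < M, (L, (⟨m, hm⟩ : Fin M), key (lay L) m z) ∈ Uof lay K T) (M-1)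
  omega

lemma one_le_lastKnown (hM : 2 ≤ M) (K : Fin (Kmax+1)) (T : Finset (Cand M N Kmax))
    (L : Fin (Kmax+1)) (z : Fin M → Fin N) : 1 ≤ lastKnown lay K T L z := by
  classical
  unfold lastKnown
  refine Nat.le_findGreatest
    (P := fun m => ∃ hm : m < M, (L, (⟨m, hm⟩ : Fin M), key (lay L) m z) ∈ Uof lay K T)
    (by omega) ?_
  refine ⟨by omega, ?_⟩
  unfold Uof U0
  rw [mem_union]
  left
  simp

lemma lastKnown_spec (hM : 2 ≤ M) (K : Fin (Kmax+1)) (T : Finset (Cand M N Kmax))
    (L : Fin (Kmax+1)) (z : Fin M → Fin N) :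
    ∃ hm : lastKnown lay K T L z < M,
      (L, ⟨lastKnown lay K T L z, hm⟩, key (lay L) (lastKnown lay K T L z) z) ∈ Uof lay K T := by
  classical
  unfold lastKnown
  refine Nat.findGreatest_spec
    (P := fun m => ∃ hm : m < M, (L, (⟨m, hm⟩ : Fin M), key (lay L) m z) ∈ Uof lay K T)
    (m := 0) (Nat.zero_le _) ?_
  refine ⟨by omega, ?_⟩
  unfold Uof U0
  rw [mem_union]
  left
  simp

lemma known_of_le (hM : 2 ≤ M) {K : Fin (Kmax+1)} {T : Finset (Cand M N Kmax)}
    {L : Fin (Kmax+1)} {z : Fin M → Fin N} (m : Fin M) (hm : m.val ≤ lastKnown lay K T L z) :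
    (L, m, key (lay L) m.val z) ∈ Uof lay K T := by
  obtain ⟨h1, h2⟩ := lastKnown_spec lay hM K T L z
  exact U_closed lay (m := ⟨lastKnown lay K T L z, h1⟩) hm h2

lemma unknown_of_gt {K : Fin (Kmax+1)} {T : Finset (Cand M N Kmax)}
    {L : Fin (Kmax+1)} {z : Fin M → Fin N} (m : Fin M) (hm : lastKnown lay K T L z < m.val) :
    (L, m, key (lay L) m.val z) ∉ Uof lay K T := by
  classical
  intro h
  have h1 : m.val ≤ M - 1 := by have := m.isLt; omega
  have := Nat.le_findGreatest
    (P := fun m => ∃ hm : m < M, (L, (⟨m, hm⟩ : Fin M), key (lay L) m z) ∈ Uof lay K T)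
    h1 ⟨m.isLt, h⟩
  unfold lastKnown at hm
  omega

lemma lastKnown_lt_window (hM : 3 ≤ M) {K : Fin (Kmax+1)} {T : Finset (Cand M N Kmax)}
    (hT : ∀ w ∈ T, w.1 ≠ K) {w : Cand M N Kmax} (hR : ∀ w' ∈ T, Rdiff lay K w' w) :
    lastKnown lay K T K w.2.1 + 1 < M := by
  by_contra hcon
  have h0 := lastKnown_lt lay (by omega : 0 < M) K T K w.2.1
  have h1 : lastKnown lay K T K w.2.1 = M - 1 := by omega
  obtain ⟨hm, h2⟩ := lastKnown_spec lay (by omega : 2 ≤ M) K T K w.2.1
  unfold Uof at h2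
  rw [mem_union] at h2
  rcases h2 with h2 | h2
  · unfold U0 at h2
    simp only [mem_filter, mem_univ, true_and] at h2
    omega
  · rw [mem_biUnion] at h2
    obtain ⟨w', hw', h2⟩ := h2
    unfold Sidx at h2
    rw [mem_union, mem_hidx, mem_hidx] at h2
    rcases h2 with ⟨m', _, h⟩ | ⟨m', _, h⟩
    · simp only [Prod.mk.injEq] at h
      obtain ⟨_, h4, h5⟩ := h
      apply hR w' hw'
      rw [h1] at h5
      have : m'.val = M - 1 := by rw [← h4]; exact h1
      rw [this] at h5
      exact h5.symm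
    · simp only [Prod.mk.injEq] at h
      exact hT w' hw' h.1.symm

/-- number of tuples with prescribed key and variables `i-1`, `i` -/
lemma card_tail_le (A : Lay N) (i : ℕ) (p : Fin M → Option (Fin N)) (b : Fin N × Fin N) :
    (univ.filter (fun z : Fin M → Fin N => key A i z = p ∧
      (∀ h : i - 1 < M, z ⟨i-1, h⟩ = b.1) ∧ (∀ h : i < M, z ⟨i, h⟩ = b.2) ∧
      ∀ m : Fin M, z m ∈ A.V m)).card ≤
      ∏ m ∈ univ.filter (fun m : Fin M => i < m.val), (A.V m).card := by
  classical
  have hsub : (univ.filter (fun z : Fin M → Fin N => key A i z = p ∧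
      (∀ h : i - 1 < M, z ⟨i-1, h⟩ = b.1) ∧ (∀ h : i < M, z ⟨i, h⟩ = b.2) ∧
      ∀ m : Fin M, z m ∈ A.V m)) ⊆
      Fintype.piFinset (fun m : Fin M => if m.val + 1 < i then (p m).toFinset else
        if m.val = i then {b.2} else if m.val = i - 1 then {b.1} else A.V m) := by
    intro z hz
    simp only [mem_filter, mem_univ, true_and] at hz
    obtain ⟨h1, h2, h3, h4⟩ := hz
    rw [Fintype.mem_piFinset]
    intro m
    split_ifs with ha hb hc
    · rw [← h1]
      simp [key, ha]
    · rw [mem_singleton]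
      have := h3 (by rw [← hb]; exact m.isLt)
      rw [← this]
      congr 1
      exact Fin.ext hb
    · rw [mem_singleton]
      have := h2 (by rw [← hc]; exact m.isLt)
      rw [← this]
      congr 1
      exact Fin.ext hc
    · exact h4 m
  refine (card_le_card hsub).trans ?_
  rw [Fintype.card_piFinset, Finset.prod_filter]
  refine Finset.prod_le_prod' (fun m _ => ?_)
  by_cases ha : m.val + 1 < i
  · rw [if_pos ha, if_neg (by omega)]
    cases p m with
    | none => simp
    | some a => simp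
  · rw [if_neg ha]
    by_cases hb : m.val = i
    · rw [if_pos hb, if_neg (by omega)]; simp
    · rw [if_neg hb]
      by_cases hc : m.val = i - 1
      · rw [if_pos hc, if_neg (by omega)]; simp
      · rw [if_neg hc, if_pos (by omega)]

lemma prod_card_le_sqrt (hG : GoodLay M lay Kmax) {L : ℕ} (hL : L ≤ Kmax)
    (hV : ∀ i < M, ((lay L).V i).card ^ 2 ≤ 2 ^ (lay L).len i) {i : ℕ} (hi : i < M) :
    ((∏ m ∈ univ.filter (fun m : Fin M => i < m.val), ((lay L).V m).card : ℕ) : ℝ) ≤
      Real.sqrt (2 ^ (L - (lay L).bot (i+1))) := by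
  apply Real.le_sqrt_of_sq_le
  have h1 : (∏ m ∈ univ.filter (fun m : Fin M => i < m.val), ((lay L).V m).card) ^ 2 ≤
      2 ^ (L - (lay L).bot (i+1)) := by
    rw [← Finset.prod_pow]
    have h2 : ∏ m ∈ univ.filter (fun m : Fin M => i < m.val), ((lay L).V m).card ^ 2 ≤
        ∏ m ∈ univ.filter (fun m : Fin M => i < m.val), 2 ^ (lay L).len m.val :=
      Finset.prod_le_prod' (fun m _ => hV m.val m.isLt)
    refine h2.trans ?_
    rw [Finset.prod_pow_eq_pow_sum]
    refine Nat.pow_le_pow_right (by norm_num) ?_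
    have h3 : ∑ m ∈ univ.filter (fun m : Fin M => i < m.val), (lay L).len m.val
        = ∑ m ∈ (range M).filter (fun m => i < m), (lay L).len m := by
      rw [Finset.sum_filter, Finset.sum_filter]
      exact Fin.sum_univ_eq_sum_range (fun m => if i < m then (lay L).len m else 0) M
    rw [h3]
    have h4 : (range M).filter (fun m => i < m) = Ico (i+1) M := by
      ext m; simp [and_comm]
    rw [h4]
    unfold Lay.len
    rw [Finset.sum_Ico_eq_sum_range]
    have h5 : ∀ k, ∑ m ∈ range k, ((lay L).bot (i + 1 + m + 1) - (lay L).bot (i + 1 + m))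
        = (lay L).bot (i + 1 + k) - (lay L).bot (i+1) := by
      intro k
      induction k with
      | zero => simp
      | succ k ih =>
        rw [sum_range_succ, ih]
        have a1 : (lay L).bot (i+1) ≤ (lay L).bot (i+1+k) := hG.mono L hL (by omega)
        have a2 : (lay L).bot (i+1+k) ≤ (lay L).bot (i+1+k+1) := hG.mono L hL (by omega)
        have : i + 1 + (k+1) = i + 1 + k + 1 := by ring
        rw [this]
        omega
    rw [h5]
    have : i + 1 + (M - (i+1)) = M := by omega
    rw [this, hG.top L hL]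
  exact_mod_cast h1

end

end Pool.Agent.ETS
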