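import Mathlib
import Pool.Agent.ETS.Far3

/-!
# E-T (MP_12a1af_nt), project T*: the far lemma, summation
-/

open Finset

namespace Pool.Agent.ETS

lemma sum_le_cover {α β : Type*} [Fintype α] (J : Finset β) (A : β → Finset α)
    (F : α → ℝ) (c : β → ℝ) (hc : ∀ j ∈ J, 0 ≤ c j)
    (h : ∀ w, F w ≠ 0 → ∃ j ∈ J, w ∈ A j ∧ F w ≤ c j) :
    ∑ w, F w ≤ ∑ j ∈ J, ((A j).card : ℝ) * c j := by
  classical
  have h1 : ∀ w, F w ≤ ∑ j ∈ J, if w ∈ A j then c j else 0 := by
    intro w
    by_cases hw : F w = 0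
    · rw [hw]
      refine Finset.sum_nonneg (fun j hj => ?_)
      split_ifs
      · exact hc j hj
      · exact le_refl _
    · obtain ⟨j, hj, hwj, hle⟩ := h w hw
      calc F w ≤ c j := hle
        _ = if w ∈ A j then c j else 0 := by rw [if_pos hwj]
        _ ≤ _ := Finset.single_le_sum (f := fun j => if w ∈ A j then c j else 0)
            (fun j hj => by
              split_ifs
              · exact hc j hj
              · exact le_refl _) hj
  calc ∑ w, F w ≤ ∑ w, ∑ j ∈ J, (if w ∈ A j then c j else 0) := Finset.sum_le_sum (fun w _ => h1 w)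
    _ = ∑ j ∈ J, ∑ w, (if w ∈ A j then c j else 0) := Finset.sum_comm
    _ = _ := by
        refine Finset.sum_congr rfl (fun j _ => ?_)
        rw [← Finset.sum_filter, Finset.sum_const, nsmul_eq_mul]
        congr 2
        rw [filter_mem_eq_inter, univ_inter]

section

variable {M N Kmax : ℕ} (lay : ℕ → Lay N)

/-- the bound for one pair of regions: `sqrt(#digits above)` and the number of free digits -/
noncomputable def phi (lay : ℕ → Lay N) (K K' i i' : ℕ) : ℝ :=
  Real.sqrt (2 ^ (K - (lay K).bot (i+1))) * Real.sqrt (2 ^ (K' - (lay K').bot (i'+1))) *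
    (2 ^ (K' - max ((lay K').bot (i'+1)) (min ((lay K).bot (i+1)) K')) /
      2 ^ ((K - (lay K).bot (i+1)) + (K' - (lay K').bot (i'+1))))

open Classical in
/-- the pairs of blocks which are consistent in a given context -/
noncomputable def ConsSet (lay : ℕ → Lay N) (K K' i i' n a κ₁ κ₂ a' κ₁' κ₂' : ℕ) (co co' : Fin N) :
    Finset ((Fin N × Fin N) × (Fin N × Fin N)) :=
  ((((lay K).V (i-1)) ×ˢ ((lay K).V i)) ×ˢ (((lay K').V (i'-1)) ×ˢ ((lay K').V i'))).filter
    (fun bb => (lay K).core (i-1) bb.1.1 = co ∧ (lay K').core (i'-1) bb.2.1 = co' ∧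
      Cons (lay K) (lay K') K K' i i' n a κ₁ κ₂ a' κ₁' κ₂' bb.1 bb.2)

open Classical in
/-- the far lemma, one scale `K'` -/
lemma far_scale (hG : GoodLay M lay Kmax) (hM : 3 ≤ M)
    (hV : ∀ L ≤ Kmax, ∀ i < M, ((lay L).V i).card ^ 2 ≤ 2 ^ (lay L).len i)
    (hV0 : ∀ L ≤ Kmax, ((lay L).V 0).card ≤ 1)
    {K K' : Fin (Kmax+1)} (hKK : K' < K) (n : ℕ) (ε : ℝ) (Nb : ℕ → ℕ → ℕ)
    (hN : ∀ i i', 1 ≤ i → 1 ≤ i' → i + 1 < M → i' < M → ∀ a κ₁ κ₂ a' κ₁' κ₂' co co',
      a < 2 ^ (lay K).bot (i-1) → a' < 2 ^ (lay K').bot (i'-1) →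
      (ConsSet lay K K' i i' n a κ₁ κ₂ a' κ₁' κ₂' co co').card ≤ Nb i i')
    (hε : ∀ i i', 1 ≤ i → 1 ≤ i' → i + 1 < M → i' < M → (Nb i i' : ℝ) * phi lay K K' i i' ≤ ε)
    (T : Finset (Cand M N Kmax)) (hT : ∀ w ∈ T, w.1 ≠ K)
    (x : ∀ q : Ind M N Kmax, Xsp lay q) :
    ∑ zz : (Fin M → Fin N) × (Fin M → Fin N),
      (if (∀ m : Fin M, zz.1 m ∈ (lay K).V m) ∧ (∀ m : Fin M, zz.2 m ∈ (lay K').V m) ∧
          (∀ w' ∈ T, Rdiff lay K w' (K', zz.1, zz.2)) then
        (((fib (Uof lay K T) x).filter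
          (fun y => elt lay K y zz.1 + elt lay K' y zz.2 = n)).card : ℝ)
        else 0) ≤
      (M : ℝ) * M * (2 * T.card + 1) ^ 2 * ε * (fib (Uof lay K T) x).card := by
  set U := Uof lay K T with hU
  have hKm : K.val ≤ Kmax := by have := K.isLt; omega
  have hKm' : K'.val ≤ Kmax := by have := K'.isLt; omega
  have hM2 : 2 ≤ M := by omega
  have hε0 : 0 ≤ ε := by
    have := hε 1 1 (le_refl _) (le_refl _) (by omega) (by omega)
    refine le_trans ?_ this
    unfold phi
    positivity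
  -- representatives of keys
  let rep : Fin (Kmax+1) → ℕ → (Fin M → Option (Fin N)) → (Fin M → Fin N) → (Fin M → Fin N) :=
    fun L i p d => if h : ∃ z : Fin M → Fin N, p = key (lay L) i z then h.choose else d
  have hrep : ∀ (L : Fin (Kmax+1)) i (z d : Fin M → Fin N),
      key (lay L) i (rep L i (key (lay L) i z) d) = key (lay L) i z := by
    intro L i z d
    have h : ∃ z' : Fin M → Fin N, key (lay L) i z = key (lay L) i z' := ⟨z, rfl⟩
    simp only [rep]
    rw [dif_pos h]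
    exact h.choose_spec.symm
  rcases isEmpty_or_nonempty (Fin M → Fin N) with hem | ⟨⟨d⟩⟩
  · have : ∑ zz : (Fin M → Fin N) × (Fin M → Fin N),
      (if (∀ m : Fin M, zz.1 m ∈ (lay K).V m) ∧ (∀ m : Fin M, zz.2 m ∈ (lay K').V m) ∧
          (∀ w' ∈ T, Rdiff lay K w' (K', zz.1, zz.2)) then
        (((fib U x).filter (fun y => elt lay K y zz.1 + elt lay K' y zz.2 = n)).card : ℝ)
        else 0) = 0 := by
      refine Finset.sum_eq_zero (fun zz _ => ?_)
      exact (hem.false zz.1).elim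
    rw [this]
    positivity
  -- index set
  let C : ℕ → ℕ → (Fin M → Option (Fin N)) → (Fin M → Option (Fin N)) →
      Finset ((Fin N × Fin N) × (Fin N × Fin N)) :=
    fun i i' p p' => if hi : i < M ∧ i' < M then
      ((((lay K).V (i-1)) ×ˢ ((lay K).V i)) ×ˢ (((lay K').V (i'-1)) ×ˢ ((lay K').V i'))).filter
        (fun bb => p ⟨i-1, by omega⟩ = some ((lay K).core (i-1) bb.1.1) ∧
          p' ⟨i'-1, by omega⟩ = some ((lay K').core (i'-1) bb.2.1) ∧
        Cons (lay K) (lay K') K K' i i' n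
        (pval (lay K).bot (dig lay K x (rep K i p d)) (i-1))
        (x (K, ⟨i-1, by omega⟩, key (lay K) (i-1) (rep K i p d))).val (x (K, ⟨i, hi.1⟩, p)).val
        (pval (lay K').bot (dig lay K' x (rep K' i' p' d)) (i'-1))
        (x (K', ⟨i'-1, by omega⟩, key (lay K') (i'-1) (rep K' i' p' d))).val
        (x (K', ⟨i', hi.2⟩, p')).val bb.1 bb.2)
      else ∅
  have hC : ∀ i i' p p', 1 ≤ i → 1 ≤ i' → i + 1 < M → i' < M → (C i i' p p').card ≤ Nb i i' := by
    intro i i' p p' hi1 hi1' hi hi'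
    simp only [C]
    rw [dif_pos ⟨by omega, hi'⟩]
    cases hp : p ⟨i-1, by omega⟩ with
    | none => simp
    | some co =>
      cases hp' : p' ⟨i'-1, by omega⟩ with
      | none => simp
      | some co' =>
        refine (card_le_card ?_).trans (hN i i' hi1 hi1' hi hi' _
          (x (K, ⟨i-1, by omega⟩, key (lay K) (i-1) (rep K i p d))).val
          (x (K, ⟨i, by omega⟩, p)).val _
          (x (K', ⟨i'-1, by omega⟩, key (lay K') (i'-1) (rep K' i' p' d))).val
          (x (K', ⟨i', hi'⟩, p')).val co co'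
          (pval_lt (hG.bot0 K hKm) (hG.mono K hKm) (dig_lt lay K x (rep K i p d)) (i-1))
          (pval_lt (hG.bot0 K' hKm') (hG.mono K' hKm') (dig_lt lay K' x (rep K' i' p' d)) (i'-1)))
        · intro bb hbb
          rw [mem_filter] at hbb
          unfold ConsSet
          rw [mem_filter]
          exact ⟨hbb.1, (Option.some_injective _ hbb.2.1).symm,
            (Option.some_injective _ hbb.2.2.1).symm, hbb.2.2.2⟩
  let P := Pfx lay K T K
  let P' := Pfx lay K T K'
  let J : Finset (Σ _ : ℕ × ℕ, Σ _ : (Fin M → Option (Fin N)) × (Fin M → Option (Fin N)),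
      (Fin N × Fin N) × (Fin N × Fin N)) :=
    (Ico 1 (M-1) ×ˢ Ico 1 M).sigma (fun ii => (P ii.1 ×ˢ P' ii.2).sigma
      (fun pp => C ii.1 ii.2 pp.1 pp.2))
  let tail : (L : Fin (Kmax+1)) → ℕ → (Fin M → Option (Fin N)) → Fin N × Fin N →
      Finset (Fin M → Fin N) :=
    fun L i p b => univ.filter (fun z : Fin M → Fin N => key (lay L) i z = p ∧
      (∀ h : i - 1 < M, z ⟨i-1, h⟩ = b.1) ∧ (∀ h : i < M, z ⟨i, h⟩ = b.2) ∧
      ∀ m : Fin M, z m ∈ (lay L).V m)
  let A : (Σ _ : ℕ × ℕ, Σ _ : (Fin M → Option (Fin N)) × (Fin M → Option (Fin N)),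
      (Fin N × Fin N) × (Fin N × Fin N)) → Finset ((Fin M → Fin N) × (Fin M → Fin N)) :=
    fun j => tail K j.1.1 j.2.1.1 j.2.2.1 ×ˢ tail K' j.1.2 j.2.1.2 j.2.2.2
  let cc : ℕ × ℕ → ℝ := fun ii =>
    (2 ^ (K'.val - max ((lay K').bot (ii.2+1)) (min ((lay K).bot (ii.1+1)) K'.val)) /
      2 ^ ((K.val - (lay K).bot (ii.1+1)) + (K'.val - (lay K').bot (ii.2+1)))) * (fib U x).card
  have hcc : ∀ ii, 0 ≤ cc ii := by
    intro ii; simp only [cc]; positivity
  have hcover := sum_le_cover J A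
    (fun zz : (Fin M → Fin N) × (Fin M → Fin N) =>
      (if (∀ m : Fin M, zz.1 m ∈ (lay K).V m) ∧ (∀ m : Fin M, zz.2 m ∈ (lay K').V m) ∧
          (∀ w' ∈ T, Rdiff lay K w' (K', zz.1, zz.2)) then
        (((fib U x).filter (fun y => elt lay K y zz.1 + elt lay K' y zz.2 = n)).card : ℝ)
        else 0)) (fun j => cc j.1) (fun j _ => hcc _) ?_
  · refine hcover.trans ?_
    -- bound the sum over the index set
    have hA : ∀ j ∈ J, ((A j).card : ℝ) * cc j.1 ≤
        (Real.sqrt (2 ^ (K.val - (lay K).bot (j.1.1+1))) *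
          Real.sqrt (2 ^ (K'.val - (lay K').bot (j.1.2+1)))) * cc j.1 := by
      intro j hj
      refine mul_le_mul_of_nonneg_right ?_ (hcc _)
      have hj1 : (1 ≤ j.1.1 ∧ j.1.1 < M - 1) ∧ 1 ≤ j.1.2 ∧ j.1.2 < M := by
        have := (mem_sigma.mp hj).1
        rw [mem_product, mem_Ico, mem_Ico] at this
        exact this
      have e1 : ((tail K j.1.1 j.2.1.1 j.2.2.1).card : ℝ) ≤
          Real.sqrt (2 ^ (K.val - (lay K).bot (j.1.1+1))) := by
        refine le_trans ?_ (prod_card_le_sqrt lay hG hKm (fun i hi => hV K hKm i hi)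
          (i := j.1.1) (by omega))
        exact_mod_cast card_tail_le (lay K) j.1.1 j.2.1.1 j.2.2.1
      have e2 : ((tail K' j.1.2 j.2.1.2 j.2.2.2).card : ℝ) ≤
          Real.sqrt (2 ^ (K'.val - (lay K').bot (j.1.2+1))) := by
        refine le_trans ?_ (prod_card_le_sqrt lay hG hKm' (fun i hi => hV K' hKm' i hi)
          (i := j.1.2) (by omega))
        exact_mod_cast card_tail_le (lay K') j.1.2 j.2.1.2 j.2.2.2
      simp only [A]
      rw [card_product]
      push_cast
      exact mul_le_mul e1 e2 (by positivity) (by positivity)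
    refine (Finset.sum_le_sum hA).trans ?_
    simp only [J]
    rw [Finset.sum_sigma]
    have hii : ∀ ii ∈ Ico 1 (M-1) ×ˢ Ico 1 M,
        ∑ s ∈ (P ii.1 ×ˢ P' ii.2).sigma (fun pp => C ii.1 ii.2 pp.1 pp.2),
          (Real.sqrt (2 ^ (K.val - (lay K).bot (ii.1+1))) *
            Real.sqrt (2 ^ (K'.val - (lay K').bot (ii.2+1)))) * cc ii ≤
        (2 * T.card + 1 : ℝ) ^ 2 * ε * (fib U x).card := by
      intro ii hi
      rw [mem_product, mem_Ico, mem_Ico] at hi
      rw [Finset.sum_const, nsmul_eq_mul]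
      have hcardS : (((P ii.1 ×ˢ P' ii.2).sigma (fun pp => C ii.1 ii.2 pp.1 pp.2)).card : ℝ) ≤
          (2 * T.card + 1 : ℝ) ^ 2 * Nb ii.1 ii.2 := by
        have h1 : ((P ii.1 ×ˢ P' ii.2).sigma (fun pp => C ii.1 ii.2 pp.1 pp.2)).card ≤
            (2 * T.card + 1) ^ 2 * Nb ii.1 ii.2 := by
          rw [card_sigma]
          calc ∑ pp ∈ P ii.1 ×ˢ P' ii.2, (C ii.1 ii.2 pp.1 pp.2).card
              ≤ ∑ pp ∈ P ii.1 ×ˢ P' ii.2, Nb ii.1 ii.2 :=
                Finset.sum_le_sum (fun pp _ => hC ii.1 ii.2 pp.1 pp.2 hi.1.1 hi.2.1 (by omega)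
                  hi.2.2)
            _ = (P ii.1).card * (P' ii.2).card * Nb ii.1 ii.2 := by
                rw [sum_const, card_product, smul_eq_mul]
            _ ≤ (2 * T.card + 1) * (2 * T.card + 1) * Nb ii.1 ii.2 :=
                Nat.mul_le_mul_right _ (Nat.mul_le_mul (card_Pfx lay hV0 K T K ii.1)
                  (card_Pfx lay hV0 K T K' ii.2))
            _ = _ := by ring
        exact_mod_cast h1
      have hφ : (Nb ii.1 ii.2 : ℝ) * ((Real.sqrt (2 ^ (K.val - (lay K).bot (ii.1+1))) *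
            Real.sqrt (2 ^ (K'.val - (lay K').bot (ii.2+1)))) * cc ii) ≤
            ε * (fib U x).card := by
        have h2 := hε ii.1 ii.2 hi.1.1 hi.2.1 (by omega) hi.2.2
        have h3 : (Nb ii.1 ii.2 : ℝ) * ((Real.sqrt (2 ^ (K.val - (lay K).bot (ii.1+1))) *
            Real.sqrt (2 ^ (K'.val - (lay K').bot (ii.2+1)))) * cc ii) =
            ((Nb ii.1 ii.2 : ℝ) * phi lay K K' ii.1 ii.2) * (fib U x).card := by
          simp only [cc, phi]
          ring
        rw [h3]
        exact mul_le_mul_of_nonneg_right h2 (by positivity)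
      calc (((P ii.1 ×ˢ P' ii.2).sigma (fun pp => C ii.1 ii.2 pp.1 pp.2)).card : ℝ) *
            ((Real.sqrt (2 ^ (K.val - (lay K).bot (ii.1+1))) *
            Real.sqrt (2 ^ (K'.val - (lay K').bot (ii.2+1)))) * cc ii)
          ≤ ((2 * T.card + 1 : ℝ) ^ 2 * Nb ii.1 ii.2) *
            ((Real.sqrt (2 ^ (K.val - (lay K).bot (ii.1+1))) *
            Real.sqrt (2 ^ (K'.val - (lay K').bot (ii.2+1)))) * cc ii) := by
            refine mul_le_mul_of_nonneg_right hcardS ?_
            exact mul_nonneg (by positivity) (hcc _)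
        _ = (2 * T.card + 1 : ℝ) ^ 2 * ((Nb ii.1 ii.2 : ℝ) *
            ((Real.sqrt (2 ^ (K.val - (lay K).bot (ii.1+1))) *
            Real.sqrt (2 ^ (K'.val - (lay K').bot (ii.2+1)))) * cc ii)) := by ring
        _ ≤ (2 * T.card + 1 : ℝ) ^ 2 * (ε * (fib U x).card) :=
            mul_le_mul_of_nonneg_left hφ (by positivity)
        _ = _ := by ring
    refine (Finset.sum_le_sum hii).trans ?_
    rw [Finset.sum_const, nsmul_eq_mul, card_product, Nat.card_Ico, Nat.card_Ico]
    have h5 : (((M - 1 - 1) * (M - 1) : ℕ) : ℝ) ≤ (M : ℝ) * M := by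
      have : (M-1-1) * (M-1) ≤ M * M := Nat.mul_le_mul (by omega) (by omega)
      exact_mod_cast this
    calc (((M - 1 - 1) * (M - 1) : ℕ) : ℝ) * ((2 * T.card + 1 : ℝ) ^ 2 * ε * (fib U x).card)
        ≤ ((M : ℝ) * M) * ((2 * T.card + 1 : ℝ) ^ 2 * ε * (fib U x).card) :=
          mul_le_mul_of_nonneg_right h5 (by positivity)
      _ = _ := by ring
  · -- covering
    intro zz hzz
    have hcond : (∀ m : Fin M, zz.1 m ∈ (lay K).V m) ∧ (∀ m : Fin M, zz.2 m ∈ (lay K').V m) ∧
          (∀ w' ∈ T, Rdiff lay K w' (K', zz.1, zz.2)) := by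
      by_contra hc
      exact hzz (if_neg hc)
    rw [if_pos hcond] at hzz
    have hne : ((fib U x).filter (fun y => elt lay K y zz.1 + elt lay K' y zz.2 = n)).Nonempty := by
      rw [← Finset.card_pos]
      rcases Nat.eq_zero_or_pos ((fib U x).filter
        (fun y => elt lay K y zz.1 + elt lay K' y zz.2 = n)).card with h | h
      · exact absurd (by rw [h]; simp) hzz
      · exact h
    obtain ⟨y, hy⟩ := hne
    rw [mem_filter] at hy
    have hi : lastKnown lay K T K zz.1 + 1 < M :=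
      lastKnown_lt_window lay hM hT (w := (K', zz.1, zz.2)) hcond.2.2
    have hi' : lastKnown lay K T K' zz.2 < M := lastKnown_lt lay (by omega) K T K' zz.2
    have hi1 := one_le_lastKnown lay hM2 K T K zz.1
    have hi1' := one_le_lastKnown lay hM2 K T K' zz.2
    obtain ⟨i, hii⟩ : ∃ i, i = lastKnown lay K T K zz.1 := ⟨_, rfl⟩
    obtain ⟨i', hii'⟩ : ∃ i', i' = lastKnown lay K T K' zz.2 := ⟨_, rfl⟩
    rw [← hii] at hi hi1
    rw [← hii'] at hi' hi1'
    have hiM : i < M := by omega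
    have k1 : ∀ m : Fin M, m.val ≤ i → (K, m, key (lay K) m.val zz.1) ∈ U := fun m hm =>
      known_of_le lay hM2 m (by rw [← hii]; exact hm)
    have k2 : ∀ m : Fin M, i < m.val → (K, m, key (lay K) m.val zz.1) ∉ U := fun m hm =>
      unknown_of_gt lay m (by rw [← hii]; exact hm)
    have k1' : ∀ m : Fin M, m.val ≤ i' → (K', m, key (lay K') m.val zz.2) ∈ U := fun m hm =>
      known_of_le lay hM2 m (by rw [← hii']; exact hm)
    have k2' : ∀ m : Fin M, i' < m.val → (K', m, key (lay K') m.val zz.2) ∉ U := fun m hm =>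
      unknown_of_gt lay m (by rw [← hii']; exact hm)
    have hcons := cons_of_sol lay hG n zz.1 zz.2 U x hi1 hi1' hiM hi' k1 k1' hy.1 hy.2
    refine ⟨⟨(i, i'), ⟨(key (lay K) i zz.1, key (lay K') i' zz.2),
      ((zz.1 ⟨i-1, by omega⟩, zz.1 ⟨i, hiM⟩), (zz.2 ⟨i'-1, by omega⟩, zz.2 ⟨i', hi'⟩))⟩⟩, ?_, ?_, ?_⟩
    · simp only [J, mem_sigma, mem_product, mem_Ico]
      refine ⟨⟨⟨hi1, by omega⟩, hi1', hi'⟩, ⟨?_, ?_⟩, ?_⟩
      · simp only [P, Pfx, mem_filter, mem_univ, true_and]
        exact ⟨⟨zz.1, hcond.1, rfl⟩, hiM, k1 ⟨i, hiM⟩ (le_refl _)⟩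
      · simp only [P', Pfx, mem_filter, mem_univ, true_and]
        exact ⟨⟨zz.2, hcond.2.1, rfl⟩, hi', k1' ⟨i', hi'⟩ (le_refl _)⟩
      · simp only [C]
        rw [dif_pos ⟨hiM, hi'⟩, mem_filter, mem_product, mem_product, mem_product]
        refine ⟨⟨⟨hcond.1 _, hcond.1 _⟩, hcond.2.1 _, hcond.2.1 _⟩, ?_, ?_, ?_⟩
        · simp only [key]
          rw [if_neg (by omega), if_pos (by omega)]
        · simp only [key]
          rw [if_neg (by omega), if_pos (by omega)]
        · have q1 : pval (lay K).bot (dig lay K x (rep K i (key (lay K) i zz.1) d)) (i-1) =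
              pval (lay K).bot (dig lay K x zz.1) (i-1) :=
            pval_congr (fun m hm => dig_key_congr lay x (hrep K i zz.1 d) (by omega))
          have q2 : pval (lay K').bot (dig lay K' x (rep K' i' (key (lay K') i' zz.2) d)) (i'-1) =
              pval (lay K').bot (dig lay K' x zz.2) (i'-1) :=
            pval_congr (fun m hm => dig_key_congr lay x (hrep K' i' zz.2 d) (by omega))
          have q3 : key (lay K) (i-1) (rep K i (key (lay K) i zz.1) d) = key (lay K) (i-1) zz.1 :=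
            key_mono (by omega) (hrep K i zz.1 d)
          have q4 : key (lay K') (i'-1) (rep K' i' (key (lay K') i' zz.2) d) =
              key (lay K') (i'-1) zz.2 := key_mono (by omega) (hrep K' i' zz.2 d)
          rw [q1, q2, q3, q4]
          exact hcons
    · simp only [A, tail, mem_product, mem_filter, mem_univ, true_and]
      exact ⟨⟨fun _ => trivial, fun _ => trivial, hcond.1⟩,
        ⟨fun _ => trivial, fun _ => trivial, hcond.2.1⟩⟩
    · simp only [cc]
      rw [if_pos hcond]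
      have hcs := card_sol_le lay hG hKK n zz.1 zz.2 U x hiM hi' k1 k2 k1' k2' _ rfl
      have hcs' : (((fib U x).filter (fun y => elt lay K y zz.1 + elt lay K' y zz.2 = n)).card : ℝ) *
          2 ^ ((K.val - (lay K).bot (i+1)) + (K'.val - (lay K').bot (i'+1))) ≤
          2 ^ (K'.val - max ((lay K').bot (i'+1)) (min ((lay K).bot (i+1)) K'.val)) *
            (fib U x).card := by exact_mod_cast hcs
      rw [div_mul_eq_mul_div, le_div_iff₀ (by positivity)]
      exact hcs'

end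

end Pool.Agent.ETS
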