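import Mathlib

/-!
# E-T (MP_12a1af_nt), project T*: the regions of the layouts

A region is a kind together with its bottom and top position.  Its variable is coded by a natural
number (pairs by `Nat.pair`), `V` is the set of the variables, `c` the content (a number, used
modulo `2 ^ len`), `core` the part of the variable on which the shift of the next region depends.
-/

open Finset

namespace Pool.Agent.ETS

/-- the codes: `W e` block length of epoch `e`; `X p l`, `P p l` variables and contents of the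
`P` code number `p` in length `l`; `Y l`, `E l` the same for the `R` code; `T e`, `Th e` the
random block set and the set `Theta` in `[0, 2 ^ W e)`; `TK K` the random set of the top window of
scale `K`. -/
structure Codes where
  W : ℕ → ℕ
  X : ℕ → ℕ → Finset ℕ
  P : ℕ → ℕ → ℕ → ℕ
  Y : ℕ → Finset ℕ
  E : ℕ → ℕ → ℕ
  T : ℕ → Finset ℕ
  Th : ℕ → Finset ℕ
  TK : ℕ → Finset ℕ

/-- kinds of regions.
* `P p f b`: `[f, b)`, variable `x ∈ X p (b - f)`;
* `PT p e f b`: `[f, b + W e)`, variable `(x, t)`, `x ∈ X p (b - f)`, `t ∈ T e`;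
* `R b v`: `[b, v)`, variable `y ∈ Y (v - b)`;
* `RT e b v`: `[b, v)`, variable `(y, t)`, `y ∈ Y (v - b - W e)`, `t ∈ T e`;
* `RTh e b v`: `[b, v)`, variable `(y, t)`, `y ∈ Y (v - b - W e)`, `t ∈ Th e`;
* `win a K`: `[a, K)`, variable `t ∈ TK K`;
* `winC e a h K`: `[a, K)`, variable `((y, t), s)`, `y ∈ Y (h - W e)`, `t ∈ Th e`, `s ∈ TK K`. -/
inductive Reg
  | P (p f b : ℕ)
  | PT (p e f b : ℕ)
  | R (b v : ℕ)
  | RT (e b v : ℕ)
  | RTh (e b v : ℕ)
  | win (a K : ℕ)
  | winC (e a h K : ℕ)

/-- pairs of numbers as numbers -/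
def pairs (A B : Finset ℕ) : Finset ℕ := (A ×ˢ B).image (fun q => Nat.pair q.1 q.2)

lemma mem_pairs {A B : Finset ℕ} {n : ℕ} :
    n ∈ pairs A B ↔ (Nat.unpair n).1 ∈ A ∧ (Nat.unpair n).2 ∈ B := by
  unfold pairs
  rw [mem_image]
  constructor
  · rintro ⟨q, hq, rfl⟩
    rw [mem_product] at hq
    simpa [Nat.unpair_pair] using hq
  · intro h
    exact ⟨Nat.unpair n, by rw [mem_product]; exact h, Nat.pair_unpair n⟩

lemma card_pairs (A B : Finset ℕ) : (pairs A B).card = A.card * B.card := by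
  unfold pairs
  rw [card_image_of_injOn, card_product]
  intro a _ b _ h
  have := Nat.pair_eq_pair.mp h
  exact Prod.ext this.1 this.2

namespace Reg

/-- bottom -/
def bot : Reg → ℕ
  | P _ f _ => f
  | PT _ _ f _ => f
  | R b _ => b
  | RT _ b _ => b
  | RTh _ b _ => b
  | win a _ => a
  | winC _ a _ _ => a

/-- top -/
def top (C : Codes) : Reg → ℕ
  | P _ _ b => b
  | PT _ e _ b => b + C.W e
  | R _ v => v
  | RT _ _ v => v
  | RTh _ _ v => v
  | win _ K => K
  | winC _ _ _ K => K

/-- variables -/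
def V (C : Codes) : Reg → Finset ℕ
  | P p f b => C.X p (b - f)
  | PT p e f b => pairs (C.X p (b - f)) (C.T e)
  | R b v => C.Y (v - b)
  | RT e b v => pairs (C.Y (v - b - C.W e)) (C.T e)
  | RTh e b v => pairs (C.Y (v - b - C.W e)) (C.Th e)
  | win _ K => C.TK K
  | winC e _ h K => pairs (pairs (C.Y (h - C.W e)) (C.Th e)) (C.TK K)

/-- content -/
def c (C : Codes) : Reg → ℕ → ℕ
  | P p f b, x => C.P p (b - f) x
  | PT p e f b, q => C.P p (b + C.W e - f) (Nat.unpair q).1 + 2 ^ (b - f) * (Nat.unpair q).2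
  | R b v, y => C.E (v - b) y
  | RT _ b v, q => C.E (v - b) (Nat.unpair q).1 + (Nat.unpair q).2
  | RTh _ b v, q => C.E (v - b) (Nat.unpair q).1 + (Nat.unpair q).2
  | win _ _, t => t
  | winC _ _ h _, q => (C.E h (Nat.unpair (Nat.unpair q).1).1 +
      (Nat.unpair (Nat.unpair q).1).2) % 2 ^ h + 2 ^ h * (Nat.unpair q).2

/-- the part of the variable seen by the shift of the next region -/
def core : Reg → ℕ → ℕ
  | PT _ _ _ _, q => (Nat.unpair q).1
  | _, z => z

end Reg

end Pool.Agent.ETS
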