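import Mathlib
import Pool.Agent.ETS.Reg

/-!
# E-T (MP_12a1af_nt), project T*: lists of regions, hashed values, counting by chunks

The unpadded form of the layouts: a list of regions, from the bottom to the top.  A hash function
is a function of the key of a region; the key of region `i` is the list
`core z_(i-1) :: z_(i-2) :: ... :: z_0` (empty for `i = 0`).
-/

open Finset

namespace Pool.Agent.ETS

/-- length of a region -/
def Reg.len (C : Codes) (r : Reg) : ℕ := r.top C - r.bot

/-- hash functions of one scale -/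
abbrev Hash := List ℕ → ℕ

/-- the hash function of the remaining regions, after the variable of the first region is fixed -/
def Reg.next (r : Reg) (h : Hash) (z : ℕ) : Hash :=
  fun k => if k = [] then h [r.core z] else h (k ++ [z])

/-- the number given by the digit blocks of a list of regions -/
def val (C : Codes) : List Reg → Hash → List ℕ → ℕ
  | [], _, _ => 0
  | _ :: _, _, [] => 0
  | r :: rs, h, z :: zs =>
      2 ^ r.bot * ((r.c C z + h []) % 2 ^ (r.len C)) + val C rs (r.next h z) zs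

/-- the hash function of the regions above `rs`, after the variables of `rs` are fixed -/
def nexts : List Reg → Hash → List ℕ → Hash
  | [], h, _ => h
  | _ :: _, h, [] => h
  | r :: rs, h, z :: zs => nexts rs (r.next h z) zs

/-- the tuples of variables of a list of regions -/
def Vs (C : Codes) : List Reg → Finset (List ℕ)
  | [] => {[]}
  | r :: rs => (r.V C ×ˢ Vs C rs).image (fun q => q.1 :: q.2)

/-- the list of regions is a chain from `u` to `v` (empty regions are allowed) -/
def Chain (C : Codes) : ℕ → List Reg → ℕ → Prop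
  | u, [], v => u = v
  | u, r :: rs, v => r.bot = u ∧ r.bot ≤ r.top C ∧ Chain C (r.top C) rs v

variable {C : Codes}

@[simp] lemma Vs_nil : Vs C [] = {[]} := rfl

lemma mem_Vs_cons {r : Reg} {rs : List Reg} {z : List ℕ} :
    z ∈ Vs C (r :: rs) ↔ ∃ a t, z = a :: t ∧ a ∈ r.V C ∧ t ∈ Vs C rs := by
  simp only [Vs, mem_image, mem_product, Prod.exists]
  constructor
  · rintro ⟨a, t, ⟨h1, h2⟩, rfl⟩; exact ⟨a, t, rfl, h1, h2⟩
  · rintro ⟨a, t, rfl, h1, h2⟩; exact ⟨a, t, ⟨h1, h2⟩, rfl⟩

lemma cons_mem_Vs {r : Reg} {rs : List Reg} {a : ℕ} {t : List ℕ} :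
    a :: t ∈ Vs C (r :: rs) ↔ a ∈ r.V C ∧ t ∈ Vs C rs := by
  rw [mem_Vs_cons]
  constructor
  · rintro ⟨a', t', h, h1, h2⟩
    obtain ⟨rfl, rfl⟩ := List.cons.inj h
    exact ⟨h1, h2⟩
  · rintro ⟨h1, h2⟩; exact ⟨a, t, rfl, h1, h2⟩

lemma length_of_mem_Vs : ∀ {rs : List Reg} {z : List ℕ}, z ∈ Vs C rs → z.length = rs.length
  | [], z, h => by
    rw [Vs_nil, mem_singleton] at h
    rw [h]; rfl
  | r :: rs, z, h => by
    obtain ⟨a, t, rfl, _, ht⟩ := mem_Vs_cons.mp h
    simp [length_of_mem_Vs ht]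

/-- the number of tuples of variables is the product -/
lemma card_Vs : ∀ rs : List Reg, (Vs C rs).card = (rs.map (fun r => (r.V C).card)).prod
  | [] => rfl
  | r :: rs => by
    rw [Vs, card_image_of_injective, card_product, card_Vs rs]
    · simp
    · intro a b h
      obtain ⟨h1, h2⟩ := List.cons.inj h
      exact Prod.ext h1 h2

lemma mem_Vs_append : ∀ {A B : List Reg} {z : List ℕ},
    z ∈ Vs C (A ++ B) ↔ ∃ a b, z = a ++ b ∧ a ∈ Vs C A ∧ b ∈ Vs C B
  | [], B, z => by simp
  | r :: A, B, z => by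
    rw [List.cons_append, mem_Vs_cons]
    constructor
    · rintro ⟨x, t, rfl, hx, ht⟩
      obtain ⟨a, b, rfl, ha, hb⟩ := mem_Vs_append.mp ht
      exact ⟨x :: a, b, rfl, cons_mem_Vs.mpr ⟨hx, ha⟩, hb⟩
    · rintro ⟨a, b, rfl, ha, hb⟩
      obtain ⟨x, t, rfl, hx, ht⟩ := mem_Vs_cons.mp ha
      exact ⟨x, t ++ b, rfl, hx, mem_Vs_append.mpr ⟨t, b, rfl, ht, hb⟩⟩

lemma val_append : ∀ {A B : List Reg} {h : Hash} {a b : List ℕ}, a.length = A.length →
    val C (A ++ B) h (a ++ b) = val C A h a + val C B (nexts A h a) b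
  | [], B, h, a, b, hl => by
    have : a = [] := List.length_eq_zero_iff.mp (by simpa using hl)
    subst this
    simp [val, nexts]
  | r :: A, B, h, [], b, hl => by simp at hl
  | r :: A, B, h, x :: a, b, hl => by
    have hl' : a.length = A.length := by simpa using hl
    simp only [List.cons_append, val, nexts]
    rw [val_append hl', add_assoc]

/-- all regions are above `v` -/
def Above (v : ℕ) (A : List Reg) : Prop := ∀ r ∈ A, v ≤ r.bot

lemma Above.dvd : ∀ {A : List Reg} {v : ℕ} {h : Hash} {z : List ℕ}, Above v A →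
    2 ^ v ∣ val C A h z
  | [], v, h, z, _ => by simp [val]
  | r :: A, v, h, [], _ => by simp [val]
  | r :: A, v, h, x :: z, hA => by
    simp only [val]
    refine dvd_add ?_ (Above.dvd (fun s hs => hA s (List.mem_cons_of_mem _ hs)))
    exact Dvd.dvd.mul_right (pow_dvd_pow 2 (hA r List.mem_cons_self)) _

lemma Chain.le : ∀ {A : List Reg} {u v : ℕ}, Chain C u A v → u ≤ v
  | [], u, v, h => le_of_eq h
  | r :: A, u, v, h => by
    obtain ⟨h1, h2, h3⟩ := h
    have := Chain.le h3
    omega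

lemma Chain.above : ∀ {A : List Reg} {u v : ℕ}, Chain C u A v → Above u A
  | [], u, v, _ => fun r hr => by simp at hr
  | r :: A, u, v, h => by
    obtain ⟨h1, h2, h3⟩ := h
    intro s hs
    rcases List.mem_cons.mp hs with rfl | hs
    · exact h1.ge
    · have := Chain.above h3 s hs
      omega

lemma Chain.append : ∀ {A B : List Reg} {u v w : ℕ}, Chain C u A v → Chain C v B w →
    Chain C u (A ++ B) w
  | [], B, u, v, w, h, h' => by
    have : u = v := h
    subst this
    simpa using h'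
  | r :: A, B, u, v, w, h, h' => by
    obtain ⟨h1, h2, h3⟩ := h
    exact ⟨h1, h2, Chain.append h3 h'⟩

lemma Chain.of_append : ∀ {A B : List Reg} {u w : ℕ}, Chain C u (A ++ B) w →
    ∃ v, Chain C u A v ∧ Chain C v B w
  | [], B, u, w, h => ⟨u, rfl, h⟩
  | r :: A, B, u, w, h => by
    obtain ⟨h1, h2, h3⟩ := h
    obtain ⟨v, h4, h5⟩ := Chain.of_append h3
    exact ⟨v, ⟨h1, h2, h4⟩, h5⟩

lemma Chain.val_lt : ∀ {A : List Reg} {u v : ℕ} {h : Hash} {z : List ℕ}, Chain C u A v →
    val C A h z + 2 ^ u ≤ 2 ^ v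
  | [], u, v, h, z, hc => by
    have : u = v := hc
    subst this
    simp [val]
  | r :: A, u, v, h, [], hc => by
    simp only [val, zero_add]
    exact Nat.pow_le_pow_right (by norm_num) hc.le
  | r :: A, u, v, h, x :: z, hc => by
    obtain ⟨h1, h2, h3⟩ := hc
    have ih := Chain.val_lt (h := r.next h x) (z := z) h3
    simp only [val]
    have h4 : (r.c C x + h []) % 2 ^ (r.len C) + 1 ≤ 2 ^ (r.len C) :=
      Nat.mod_lt _ (by positivity)
    have h5 : 2 ^ r.bot * ((r.c C x + h []) % 2 ^ (r.len C)) + 2 ^ r.bot ≤ 2 ^ (r.top C) := by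
      calc 2 ^ r.bot * ((r.c C x + h []) % 2 ^ (r.len C)) + 2 ^ r.bot
          = 2 ^ r.bot * ((r.c C x + h []) % 2 ^ (r.len C) + 1) := by ring
        _ ≤ 2 ^ r.bot * 2 ^ (r.len C) := Nat.mul_le_mul_left _ h4
        _ = 2 ^ (r.top C) := by
          rw [← pow_add]; congr 1; unfold Reg.len; omega
    rw [h1] at h5 ⊢
    omega

/-! ### counting -/

/-- `NB C A A' v B`: for all hash functions and all prescribed sums modulo `2 ^ v` there are at most
`B` pairs of variables for the chunks `A` (scale `K`) and `A'` (scale `K'`) -/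
def NB (C : Codes) (A A' : List Reg) (v B : ℕ) : Prop :=
  ∀ (h h' : Hash) (ν : ℕ), ((Vs C A ×ˢ Vs C A').filter (fun q =>
    val C A h q.1 + val C A' h' q.2 ≡ ν [MOD 2 ^ v])).card ≤ B

/-- the same for equality of numbers -/
def NBt (C : Codes) (A A' : List Reg) (B : ℕ) : Prop :=
  ∀ (h h' : Hash) (ν : ℕ), ((Vs C A ×ˢ Vs C A').filter (fun q =>
    val C A h q.1 + val C A' h' q.2 = ν)).card ≤ B

lemma NB.mono {A A' : List Reg} {v B B' : ℕ} (h : NB C A A' v B) (hB : B ≤ B') :
    NB C A A' v B' := fun a b c => (h a b c).trans hB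

lemma NBt.mono {A A' : List Reg} {B B' : ℕ} (h : NBt C A A' B) (hB : B ≤ B') :
    NBt C A A' B' := fun a b c => (h a b c).trans hB

lemma NB.toNBt {A A' : List Reg} {v B : ℕ} (h : NB C A A' v B) : NBt C A A' B := by
  intro a b c
  refine (card_le_card ?_).trans (h a b c)
  intro q hq
  rw [mem_filter] at hq ⊢
  exact ⟨hq.1, by rw [hq.2]⟩

lemma NB.symm {A A' : List Reg} {v B : ℕ} (h : NB C A A' v B) : NB C A' A v B := by
  intro a b c
  refine le_trans (le_of_eq ?_) (h b a c)
  refine card_bij (fun q _ => (q.2, q.1)) ?_ ?_ ?_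
  · intro q hq
    rw [mem_filter, mem_product] at hq ⊢
    exact ⟨⟨hq.1.2, hq.1.1⟩, by rw [add_comm]; exact hq.2⟩
  · intro q _ q' _ h
    rw [Prod.mk.injEq] at h
    exact Prod.ext h.2 h.1
  · intro q hq
    rw [mem_filter, mem_product] at hq
    refine ⟨(q.2, q.1), ?_, rfl⟩
    rw [mem_filter, mem_product]
    exact ⟨⟨hq.1.2, hq.1.1⟩, by rw [add_comm]; exact hq.2⟩

lemma NB_nil {v : ℕ} : NB C [] [] v 1 := by
  intro h h' ν
  refine (card_filter_le _ _).trans ?_
  simp

lemma NBt_nil : NBt C [] [] 1 := by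
  intro h h' ν
  refine (card_filter_le _ _).trans ?_
  simp

/-- general chunk lemma: lower chunks below `v`, upper chunks above `v`, and a relation `R` for the
total such that `R` implies the congruence for the lower part and, the lower part being fixed, a
relation of the same type for the upper part -/
lemma card_chunk_le {A1 A1' A2 A2' : List Reg} {v B1 B2 : ℕ} (h1 : NB C A1 A1' v B1)
    (hA : Above v A2) (hA' : Above v A2') (h h' : Hash) (ν : ℕ) (R : ℕ → Prop)
    [DecidablePred R]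
    (hR : ∀ s, R s → s ≡ ν [MOD 2 ^ v])
    (h2 : ∀ (g g' : Hash) (s : ℕ), ((Vs C A2 ×ˢ Vs C A2').filter (fun q =>
      R (s + (val C A2 g q.1 + val C A2' g' q.2)))).card ≤ B2) :
    ((Vs C (A1 ++ A2) ×ˢ Vs C (A1' ++ A2')).filter (fun q =>
      R (val C (A1 ++ A2) h q.1 + val C (A1' ++ A2') h' q.2))).card ≤ B1 * B2 := by
  set S1 := (Vs C A1 ×ˢ Vs C A1').filter (fun q =>
    val C A1 h q.1 + val C A1' h' q.2 ≡ ν [MOD 2 ^ v]) with hS1
  set F : (List ℕ × List ℕ) → Finset (List ℕ × List ℕ) := fun q =>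
    ((Vs C A2 ×ˢ Vs C A2').filter (fun p => R ((val C A1 h q.1 + val C A1' h' q.2) +
      (val C A2 (nexts A1 h q.1) p.1 + val C A2' (nexts A1' h' q.2) p.2)))).image
      (fun p => (q.1 ++ p.1, q.2 ++ p.2)) with hF
  have hsub : ((Vs C (A1 ++ A2) ×ˢ Vs C (A1' ++ A2')).filter (fun q =>
      R (val C (A1 ++ A2) h q.1 + val C (A1' ++ A2') h' q.2))) ⊆ S1.biUnion F := by
    intro q hq
    rw [mem_filter, mem_product] at hq
    obtain ⟨⟨hq1, hq2⟩, hq3⟩ := hq
    obtain ⟨a, b, hab, ha, hb⟩ := mem_Vs_append.mp hq1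
    obtain ⟨a', b', hab', ha', hb'⟩ := mem_Vs_append.mp hq2
    rw [hab, hab', val_append (length_of_mem_Vs ha), val_append (length_of_mem_Vs ha')] at hq3
    rw [mem_biUnion]
    refine ⟨(a, a'), ?_, ?_⟩
    · rw [hS1, mem_filter, mem_product]
      refine ⟨⟨ha, ha'⟩, ?_⟩
      have h3 := hR _ hq3
      have d1 : 2 ^ v ∣ val C A2 (nexts A1 h a) b := hA.dvd
      have d2 : 2 ^ v ∣ val C A2' (nexts A1' h' a') b' := hA'.dvd
      refine Nat.ModEq.trans ?_ h3
      simp only
      obtain ⟨k1, hk1⟩ := d1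
      obtain ⟨k2, hk2⟩ := d2
      rw [hk1, hk2]
      have : val C A1 h a + 2 ^ v * k1 + (val C A1' h' a' + 2 ^ v * k2) =
          val C A1 h a + val C A1' h' a' + 2 ^ v * (k1 + k2) := by ring
      rw [this]
      exact (Nat.modEq_iff_dvd' (by omega)).mpr ⟨k1 + k2, by omega⟩
    · rw [hF]
      simp only [mem_image, mem_filter, mem_product]
      refine ⟨(b, b'), ⟨⟨hb, hb'⟩, ?_⟩, ?_⟩
      · have : (val C A1 h a + val C A1' h' a') +
            (val C A2 (nexts A1 h a) b + val C A2' (nexts A1' h' a') b') =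
            val C A1 h a + val C A2 (nexts A1 h a) b +
            (val C A1' h' a' + val C A2' (nexts A1' h' a') b') := by ring
        simp only [this]
        exact hq3
      · simp only [← hab, ← hab']
  calc _ ≤ (S1.biUnion F).card := card_le_card hsub
    _ ≤ ∑ q ∈ S1, (F q).card := card_biUnion_le
    _ ≤ ∑ q ∈ S1, B2 := Finset.sum_le_sum (fun q _ => by
        rw [hF]
        exact card_image_le.trans (h2 _ _ _))
    _ = S1.card * B2 := by rw [sum_const, smul_eq_mul]
    _ ≤ B1 * B2 := Nat.mul_le_mul_right _ (h1 h h' ν)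

/-- the shift of the prescribed sum: a congruence `s + t ≡ ν` is one for `t` -/
lemma exists_modEq_shift (s ν m : ℕ) (hm : 0 < m) : ∃ ν', ∀ t, s + t ≡ ν [MOD m] → t ≡ ν' [MOD m] := by
  refine ⟨ν + (m - 1) * s, fun t ht => ?_⟩
  have h1 : s + t + (m - 1) * s ≡ ν + (m - 1) * s [MOD m] := Nat.ModEq.add_right _ ht
  have h2 : s + t + (m - 1) * s = t + m * s := by
    obtain ⟨k, rfl⟩ : ∃ k, m = k + 1 := ⟨m - 1, by omega⟩
    simp only [Nat.add_sub_cancel]
    ring
  rw [h2] at h1
  refine Nat.ModEq.trans ?_ h1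
  exact (Nat.modEq_iff_dvd' (by omega)).mpr ⟨s, by omega⟩

lemma NB.append {A1 A1' A2 A2' : List Reg} {v v' B1 B2 : ℕ} (h1 : NB C A1 A1' v B1)
    (h2 : NB C A2 A2' v' B2) (hv : v ≤ v') (hA : Above v A2) (hA' : Above v A2') :
    NB C (A1 ++ A2) (A1' ++ A2') v' (B1 * B2) := by
  intro h h' ν
  refine card_chunk_le h1 hA hA' h h' ν (fun s => s ≡ ν [MOD 2 ^ v']) ?_ ?_
  · intro s hs
    exact hs.of_dvd (pow_dvd_pow 2 hv)
  · intro g g' s
    obtain ⟨ν', hν'⟩ := exists_modEq_shift s ν (2 ^ v') (by positivity)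
    refine (card_le_card ?_).trans (h2 g g' ν')
    intro q hq
    rw [mem_filter] at hq ⊢
    exact ⟨hq.1, hν' _ hq.2⟩

lemma NB.append_top {A1 A1' A2 A2' : List Reg} {v B1 B2 : ℕ} (h1 : NB C A1 A1' v B1)
    (h2 : NBt C A2 A2' B2) (hA : Above v A2) (hA' : Above v A2') :
    NBt C (A1 ++ A2) (A1' ++ A2') (B1 * B2) := by
  intro h h' ν
  refine card_chunk_le h1 hA hA' h h' ν (fun s => s = ν) ?_ ?_
  · intro s hs
    rw [hs]
  · intro g g' s
    by_cases hs : s ≤ ν
    · refine (card_le_card ?_).trans (h2 g g' (ν - s))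
      intro q hq
      rw [mem_filter] at hq ⊢
      exact ⟨hq.1, by omega⟩
    · rw [Finset.filter_false_of_mem]
      · simp
      · intro q _
        omega

end Pool.Agent.ETS
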