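import Mathlib
import Pool.Agent.ETS.Reg

/-!
# E-T (MP_12a1af_nt), project T*: zones

A zone is the set of the possible values of the digits below a position `top`, for a fixed context
(digits below its bottom and shifts).  `zcons` is the set of the consistent pairs of values.
-/

open Finset

namespace Pool.Agent.ETS

/-- possible values of the digits below `top` -/
structure Zone where
  top : ℕ
  S : Finset ℕ

open Classical in
/-- consistent pairs of values of two zones, `a + a' = n`, `a` of scale `K`, `a'` of scale `K'` -/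
noncomputable def zcons (K K' n : ℕ) (Z Z' : Zone) : Finset (ℕ × ℕ) :=
  (Z.S ×ˢ Z'.S).filter (fun s => ∃ u u', u < 2 ^ (K - Z.top) ∧ u' < 2 ^ (K' - Z'.top) ∧
    2 ^ K + (s.1 + 2 ^ Z.top * u) + (2 ^ K' + (s.2 + 2 ^ Z'.top * u')) = n)

/-- the zone of one region, digits `a` below its bottom, shift `κ` -/
def zreg (C : Codes) (r : Reg) (a κ : ℕ) : Zone where
  top := r.top C
  S := (r.V C).image (fun z => a + 2 ^ r.bot * ((r.c C z + κ) % 2 ^ (r.top C - r.bot)))

/-- the zone of the region `R (b + W e) v` above a region `PT p e f b` with known `x`: digits `a`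
below `b`, block `t ∈ T e` on `[b, b + W e)` (shift `κ`), `y` on `[b + W e, v)` (shift `κ₂`). -/
def zRS (C : Codes) (e b v a κ κ₂ : ℕ) : Zone where
  top := v
  S := (pairs (C.Y (v - (b + C.W e))) (C.T e)).image (fun q =>
    a + 2 ^ b * (((Nat.unpair q).2 + κ) % 2 ^ C.W e) +
      2 ^ (b + C.W e) * ((C.E (v - (b + C.W e)) (Nat.unpair q).1 + κ₂) % 2 ^ (v - (b + C.W e))))

lemma mem_zcons {K K' n : ℕ} {Z Z' : Zone} {s : ℕ × ℕ} :
    s ∈ zcons K K' n Z Z' ↔ (s.1 ∈ Z.S ∧ s.2 ∈ Z'.S) ∧ ∃ u u', u < 2 ^ (K - Z.top) ∧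
      u' < 2 ^ (K' - Z'.top) ∧
      2 ^ K + (s.1 + 2 ^ Z.top * u) + (2 ^ K' + (s.2 + 2 ^ Z'.top * u')) = n := by
  classical
  unfold zcons
  rw [mem_filter, mem_product]

/-- below the smaller top the values add up to `n` -/
lemma zcons_modEq {K K' n : ℕ} {Z Z' : Zone} (hK : Z.top ≤ K) (hK' : Z'.top ≤ K')
    {s : ℕ × ℕ} (h : s ∈ zcons K K' n Z Z') {m : ℕ} (hm : m ≤ Z.top) (hm' : m ≤ Z'.top) :
    s.1 + s.2 ≡ n [MOD 2 ^ m] := by
  rw [mem_zcons] at h
  obtain ⟨-, u, u', -, -, he⟩ := h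
  obtain ⟨c1, h1⟩ := pow_dvd_pow 2 (le_trans hm hK)
  obtain ⟨c2, h2⟩ := pow_dvd_pow 2 (le_trans hm' hK')
  obtain ⟨c3, h3⟩ := pow_dvd_pow 2 hm
  obtain ⟨c4, h4⟩ := pow_dvd_pow 2 hm'
  rw [h1, h2, h3, h4] at he
  have : n = s.1 + s.2 + 2 ^ m * (c1 + c2 + c3 * u + c4 * u') := by
    rw [← he]; ring
  rw [this]
  exact (Nat.modEq_iff_dvd' (Nat.le_add_right _ _)).mpr (by
    rw [Nat.add_sub_cancel_left]; exact Dvd.intro _ rfl)

end Pool.Agent.ETS
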