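import Mathlib
import Pool.Agent.Helper3.ETF.Own
import Pool.Agent.Helper5.ETP.Phi

/-!
# E-T (MP_12a1af_nt), project T*: the probability factor as a power of two
-/

open Finset

namespace Pool.Agent.ETS

open Pool.Agent.ETP (phiV)
open Pool.Agent.Helper5.ETP (sqrt_two_pow)

/-- `phiV` as a real power -/
lemma phiV_eq {K K' al al' : ℕ} (h : al ≤ K) (h' : al' ≤ K') :
    phiV K K' al al' = (2 : ℝ) ^ ((K' : ℝ) - (max al' (min al K') : ℕ)
        - ((K : ℝ) - al) / 2 - ((K' : ℝ) - al') / 2) := by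
  unfold phiV
  have hm : max al' (min al K') ≤ K' := max_le h' (min_le_right _ _)
  rw [sqrt_two_pow, sqrt_two_pow]
  rw [← Real.rpow_natCast 2 (K' - max al' (min al K')), ← Real.rpow_natCast 2 ((K - al) + (K' - al')),
    ← Real.rpow_sub (by norm_num), ← Real.rpow_add (by norm_num), ← Real.rpow_add (by norm_num)]
  congr 1
  push_cast [Nat.cast_sub hm, Nat.cast_sub h, Nat.cast_sub h']
  ring

/-- two tops below `K'` -/
lemma phiV_eq_of_le {K K' al al' : ℕ} (hK : K' ≤ K) (h : al ≤ K') (h' : al' ≤ K') :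
    phiV K K' al al' = (2 : ℝ) ^ (-(((K : ℝ) - K') + |(al : ℝ) - al'|) / 2) := by
  rw [phiV_eq (h.trans hK) h']
  congr 1
  rcases le_total al al' with h1 | h1
  · have e : max al' (min al K') = al' := by rw [min_eq_left h, max_eq_left h1]
    rw [e]
    have h2 : (al : ℝ) ≤ al' := by exact_mod_cast h1
    rw [abs_of_nonpos (by linarith)]
    ring
  · have e : max al' (min al K') = al := by rw [min_eq_left h, max_eq_right h1]
    rw [e]
    have h2 : (al' : ℝ) ≤ al := by exact_mod_cast h1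
    rw [abs_of_nonneg (by linarith)]
    ring

/-- the top of the first zone is above `K'` -/
lemma phiV_eq_of_cut {K K' al al' : ℕ} (h0 : K' ≤ al) (h : al ≤ K) (h' : al' ≤ K') :
    phiV K K' al al' = (2 : ℝ) ^ (-((K : ℝ) - al) / 2 - ((K' : ℝ) - al') / 2) := by
  rw [phiV_eq h h']
  congr 1
  have e : max al' (min al K') = K' := by rw [min_eq_right h0, max_eq_right h']
  rw [e]
  ring

lemma phiV_nonneg (K K' al al' : ℕ) : 0 ≤ phiV K K' al al' := by
  unfold phiV; positivity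

/-- from a bound by a power of two to the final form -/
lemma fin_le {B q : ℕ} {x y φ : ℝ} (hB : (B : ℝ) ≤ (2:ℝ) ^ x) (hφ : φ = (2:ℝ) ^ y)
    (h : x + y ≤ -(q : ℝ)) : (B : ℝ) * φ ≤ (1/2) ^ q := by
  rw [hφ]
  calc (B : ℝ) * (2:ℝ) ^ y ≤ (2:ℝ) ^ x * (2:ℝ) ^ y :=
        mul_le_mul_of_nonneg_right hB (by positivity)
    _ = (2:ℝ) ^ (x + y) := by rw [← Real.rpow_add (by norm_num)]
    _ ≤ (2:ℝ) ^ (-(q:ℝ)) := Real.rpow_le_rpow_of_exponent_le (by norm_num) h
    _ = (1/2) ^ q := by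
        rw [Real.rpow_neg (by norm_num), Real.rpow_natCast, one_div, inv_pow]

/-- the same for a product `M * 2 ^ m` with `M ≤ 2 ^ p` -/
lemma fin_le' {M p m q : ℕ} {y φ : ℝ} (hM : M ≤ 2 ^ p) (hφ : φ = (2:ℝ) ^ y)
    (h : (p : ℝ) + m + y ≤ -(q : ℝ)) : ((M * 2 ^ m : ℕ) : ℝ) * φ ≤ (1/2) ^ q := by
  refine fin_le (x := (p : ℝ) + m) ?_ hφ h
  rw [Real.rpow_add (by norm_num), Real.rpow_natCast, Real.rpow_natCast]
  push_cast
  have : (M : ℝ) ≤ 2 ^ p := by exact_mod_cast hM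
  exact mul_le_mul_of_nonneg_right this (by positivity)

lemma natdiv_le (a b : ℕ) : ((a / b : ℕ) : ℝ) ≤ (a : ℝ) / b := Nat.cast_div_le

/-- **numbers for (PP)** -/
lemma num_PP {C g K K' al al' M : ℕ} (hC : 1 ≤ C) (hK : K' + g ≤ K) (h : al ≤ K') (h' : al' ≤ K')
    (hM : M ≤ 2 ^ (g / 4)) (hg : 8 ≤ g) :
    ((M * 2 ^ ((al - al' + (al' - al) + 1) / 2) : ℕ) : ℝ) * phiV K K' al al' ≤
      (1/2) ^ (g / (8 * C)) := by
  refine fin_le' hM (phiV_eq_of_le (by omega) h h') ?_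
  have h1 : ((g / (8 * C) : ℕ) : ℝ) ≤ (g : ℝ) / 8 := by
    have : g / (8 * C) ≤ g / 8 := Nat.div_le_div_left (by omega) (by norm_num)
    calc ((g / (8 * C) : ℕ) : ℝ) ≤ ((g / 8 : ℕ) : ℝ) := by exact_mod_cast this
      _ ≤ (g : ℝ) / 8 := by exact_mod_cast natdiv_le g 8
  have h2 : ((g / 4 : ℕ) : ℝ) ≤ (g : ℝ) / 4 := by exact_mod_cast natdiv_le g 4
  have h3 : (((al - al' + (al' - al) + 1) / 2 : ℕ) : ℝ) ≤ (|(al : ℝ) - al'| + 1) / 2 := by
    have e1 : ((al - al' + (al' - al) + 1 : ℕ) : ℝ) = |(al : ℝ) - al'| + 1 := by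
      rcases le_total al al' with h4 | h4
      · have h5 : (al : ℝ) ≤ al' := by exact_mod_cast h4
        rw [abs_of_nonpos (by linarith)]
        have : al - al' + (al' - al) + 1 = (al' - al) + 1 := by omega
        rw [this]; push_cast [Nat.cast_sub h4]; ring
      · have h5 : (al' : ℝ) ≤ al := by exact_mod_cast h4
        rw [abs_of_nonneg (by linarith)]
        have : al - al' + (al' - al) + 1 = (al - al') + 1 := by omega
        rw [this]; push_cast [Nat.cast_sub h4]; ring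
    have := natdiv_le (al - al' + (al' - al) + 1) 2
    rw [e1] at this
    exact_mod_cast this
  have h4 : (K' : ℝ) + g ≤ K := by exact_mod_cast hK
  have h5 : (8 : ℝ) ≤ g := by exact_mod_cast hg
  linarith

/-- **numbers for (RR) and the crossings**: loss `x / 2` with `(10 C + 9) x ≤ 10 C D` -/
lemma num_main {C g K K' al al' M x m : ℕ} {y : ℝ} (hC : 5 ≤ C) (hK : K' + g ≤ K)
    (hM : M ≤ 2 ^ (g / (4 * C)))
    (hx : (10 * C + 9) * x ≤ 10 * C * (K - K'))
    (hy : y ≤ -(((K : ℝ) - K')) / 2 - (m : ℝ) + (x : ℝ) / 2)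
    (hφ : phiV K K' al al' = (2 : ℝ) ^ y) :
    ((M * 2 ^ m : ℕ) : ℝ) * phiV K K' al al' ≤ (1/2) ^ (g / (8 * C)) := by
  refine fin_le' hM hφ ?_
  have hC' : (5 : ℝ) ≤ C := by exact_mod_cast hC
  have h1 : ((g / (8 * C) : ℕ) : ℝ) ≤ (g : ℝ) / (8 * C) := by
    have := natdiv_le g (8 * C); push_cast at this; exact this
  have h2 : ((g / (4 * C) : ℕ) : ℝ) ≤ (g : ℝ) / (4 * C) := by
    have := natdiv_le g (4 * C); push_cast at this; exact this
  have h4 : (K' : ℝ) + g ≤ K := by exact_mod_cast hK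
  have hKK : K' ≤ K := by omega
  have h5 : (10 * (C:ℝ) + 9) * x ≤ 10 * C * ((K : ℝ) - K') := by
    have : (((10 * C + 9) * x : ℕ) : ℝ) ≤ ((10 * C * (K - K') : ℕ) : ℝ) := by exact_mod_cast hx
    push_cast [Nat.cast_sub hKK] at this
    exact this
  set D : ℝ := (K : ℝ) - K' with hD
  have hDg : (g : ℝ) ≤ D := by linarith
  have hg0 : (0 : ℝ) ≤ g := Nat.cast_nonneg g
  -- x ≤ D - 9 D / (10 C + 9)
  have h6 : (x : ℝ) ≤ D - 3 / 4 * (g / C) := by
    have h7 : (x : ℝ) ≤ 10 * C * D / (10 * C + 9) := by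
      rw [le_div_iff₀ (by linarith)]
      linarith
    have h8 : 10 * C * D / (10 * C + 9) = D - 9 * D / (10 * C + 9) := by
      field_simp
      ring
    have h9 : 3 / 4 * (g / C) ≤ 9 * D / (10 * (C:ℝ) + 9) := by
      rw [le_div_iff₀ (by linarith)]
      have h10 : 3 / 4 * ((g:ℝ) / C) * (10 * C + 9) = g * (7.5 + 6.75 / C) := by
        field_simp
        ring
      rw [h10]
      have h11 : (6.75 : ℝ) / C ≤ 1.5 := by
        rw [div_le_iff₀ (by linarith)]
        linarith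
      nlinarith
    linarith
  have h7 : (g : ℝ) / (4 * C) = 1 / 4 * (g / C) := by field_simp
  have h8 : (g : ℝ) / (8 * C) = 1 / 8 * (g / C) := by field_simp
  have h9 : (0 : ℝ) ≤ g / C := by positivity
  linarith

/-- **numbers for the trivial bounds** -/
lemma num_triv {C g K K' al al' M x m : ℕ} {y : ℝ} (hC : 5 ≤ C) (hK : K' + g ≤ K)
    (hM : M ≤ 2 ^ (g / (16 * C)))
    (hx : (10 * C + 5) * x ≤ 10 * C * (K - K'))
    (hy : y ≤ -(((K : ℝ) - K')) / 2 - (m : ℝ) + (x : ℝ) / 2)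
    (hφ : phiV K K' al al' = (2 : ℝ) ^ y) :
    ((M * 2 ^ m : ℕ) : ℝ) * phiV K K' al al' ≤ (1/2) ^ (g / (8 * C)) := by
  refine fin_le' hM hφ ?_
  have hC' : (5 : ℝ) ≤ C := by exact_mod_cast hC
  have h1 : ((g / (8 * C) : ℕ) : ℝ) ≤ (g : ℝ) / (8 * C) := by
    have := natdiv_le g (8 * C); push_cast at this; exact this
  have h2 : ((g / (16 * C) : ℕ) : ℝ) ≤ (g : ℝ) / (16 * C) := by
    have := natdiv_le g (16 * C); push_cast at this; exact this
  have h4 : (K' : ℝ) + g ≤ K := by exact_mod_cast hK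
  have hKK : K' ≤ K := by omega
  have h5 : (10 * (C:ℝ) + 5) * x ≤ 10 * C * ((K : ℝ) - K') := by
    have : (((10 * C + 5) * x : ℕ) : ℝ) ≤ ((10 * C * (K - K') : ℕ) : ℝ) := by exact_mod_cast hx
    push_cast [Nat.cast_sub hKK] at this
    exact this
  set D : ℝ := (K : ℝ) - K' with hD
  have hDg : (g : ℝ) ≤ D := by linarith
  have hg0 : (0 : ℝ) ≤ g := Nat.cast_nonneg g
  have h6 : (x : ℝ) ≤ D - 3 / 8 * (g / C) := by
    have h7 : (x : ℝ) ≤ 10 * C * D / (10 * C + 5) := by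
      rw [le_div_iff₀ (by linarith)]
      linarith
    have h8 : 10 * C * D / (10 * C + 5) = D - 5 * D / (10 * C + 5) := by
      field_simp
      ring
    have h9 : 3 / 8 * (g / C) ≤ 5 * D / (10 * (C:ℝ) + 5) := by
      rw [le_div_iff₀ (by linarith)]
      have h10 : 3 / 8 * ((g:ℝ) / C) * (10 * C + 5) = g * (3.75 + 1.875 / C) := by
        field_simp
        ring
      rw [h10]
      have h11 : (1.875 : ℝ) / C ≤ 1.25 := by
        rw [div_le_iff₀ (by linarith)]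
        linarith
      nlinarith
    linarith
  have h7 : (g : ℝ) / (16 * C) = 1 / 16 * (g / C) := by field_simp
  have h8 : (g : ℝ) / (8 * C) = 1 / 8 * (g / C) := by field_simp
  have h9 : (0 : ℝ) ≤ g / C := by positivity
  linarith

end Pool.Agent.ETS
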