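import Mathlib
import Pool.Agent.ETS.Far3

/-!
# E-T (MP_12a1af_nt), project T*: decoding, and the number of window pairs for a fixed window key
-/

open Finset

namespace Pool.Agent.ETS

section

variable {M N Kmax : ℕ} (lay : ℕ → Lay N)

/-- the contents of the variables of every region are different modulo `2 ^ len` -/
def Distinct (A : Lay N) (M : ℕ) : Prop :=
  ∀ i < M, ∀ v ∈ A.V i, ∀ v' ∈ A.V i, A.c i v % 2 ^ A.len i = A.c i v' % 2 ^ A.len i → v = v'

/-- the variables below region `m` can be read off from the digits below region `m` -/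
lemma decode {L : Fin (Kmax+1)} (hb0 : (lay L).bot 0 = 0) (hb : Monotone (lay L).bot)
    (hD : Distinct (lay L) M)
    (x : ∀ q : Ind M N Kmax, Xsp lay q) {z z' : Fin M → Fin N}
    (hz : ∀ m : Fin M, z m ∈ (lay L).V m) (hz' : ∀ m : Fin M, z' m ∈ (lay L).V m)
    {m : ℕ} (_ : m ≤ M)
    (h : pval (lay L).bot (dig lay L x z) m = pval (lay L).bot (dig lay L x z') m) :
    ∀ i : Fin M, i.val < m → z i = z' i := by
  have h1 := pval_inj hb0 hb (dig_lt lay L x z) (dig_lt lay L x z') h
  intro i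
  induction' hk : i.val using Nat.strong_induction_on with k ih generalizing i
  intro him
  have hkey : key (lay L) i.val z = key (lay L) i.val z' := by
    rw [key_eq_iff]
    refine ⟨fun j hj => ih j.val (by omega) j rfl (by omega), fun j hj => ?_⟩
    rw [ih j.val (by omega) j rfl (by omega)]
  have h2 := h1 i.val (by omega)
  rw [dig_val lay x z i.isLt, dig_val lay x z' i.isLt] at h2
  have h3 : (x (L, ⟨i.val, i.isLt⟩, key (lay L) i.val z)).val =
      (x (L, ⟨i.val, i.isLt⟩, key (lay L) i.val z')).val := by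
    rw [hkey]
  rw [h3] at h2
  have h4 : (lay L).c i.val (z i) ≡ (lay L).c i.val (z' i) [MOD 2 ^ (lay L).len i.val] :=
    Nat.ModEq.add_right_cancel' _ h2
  exact hD i.val i.isLt _ (hz i) _ (hz' i) h4

lemma elt_inj {L : Fin (Kmax+1)} (hb0 : (lay L).bot 0 = 0) (hb : Monotone (lay L).bot)
    (hD : Distinct (lay L) M)
    (x : ∀ q : Ind M N Kmax, Xsp lay q) {z z' : Fin M → Fin N}
    (hz : ∀ m : Fin M, z m ∈ (lay L).V m) (hz' : ∀ m : Fin M, z' m ∈ (lay L).V m)
    (h : elt lay L x z = elt lay L x z') : z = z' := by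
  unfold elt at h
  have h1 : pval (lay L).bot (dig lay L x z) M = pval (lay L).bot (dig lay L x z') M := by omega
  funext i
  exact decode lay hb0 hb hD x hz hz' (le_refl M) h1 i i.isLt

/-- pairs of window variables with a given sum -/
def WinPairs (A A' : Lay N) (m : ℕ) (κ κ' ν : ℕ) : Finset (Fin N × Fin N) :=
  (A.V m ×ˢ A'.V m).filter (fun vv => 2 ^ A.bot m * ((A.c m vv.1 + κ) % 2 ^ A.len m) +
    2 ^ A'.bot m * ((A'.c m vv.2 + κ') % 2 ^ A'.len m) = ν)

open Classical in
/-- **(H4)** for a fixed window key of scale `K` the number of solutions with `a'` of scale `K'`,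
where the window of `K'` starts below the window of `K`, is at most the number of window pairs.
(The region below the window is not of the kind with a hidden part of the variable.) -/
theorem window_key_count (hG : GoodLay M lay Kmax) (hM : 1 ≤ M)
    (hD : ∀ L ≤ Kmax, Distinct (lay L) M)
    {K K' : Fin (Kmax+1)} (ha : (lay K').bot (M-1) ≤ (lay K).bot (M-1)) (n wn : ℕ)
    (hcore : ∀ v ∈ (lay K).V (M-2), ∀ v' ∈ (lay K).V (M-2),
      (lay K).core (M-2) v = (lay K).core (M-2) v' → v = v')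
    (hW : ∀ κ κ' ν, (WinPairs (lay K) (lay K') (M-1) κ κ' ν).card ≤ wn)
    (x : ∀ q : Ind M N Kmax, Xsp lay q) (π : Fin M → Option (Fin N)) :
    ((univ : Finset ((Fin M → Fin N) × (Fin M → Fin N))).filter (fun zz =>
      (∀ m : Fin M, zz.1 m ∈ (lay K).V m) ∧ (∀ m : Fin M, zz.2 m ∈ (lay K').V m) ∧
      key (lay K) (M-1) zz.1 = π ∧ elt lay K x zz.1 + elt lay K' x zz.2 = n)).card ≤ wn := by
  have hKm : K.val ≤ Kmax := by have := K.isLt; omega
  have hKm' : K'.val ≤ Kmax := by have := K'.isLt; omega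
  have hb0 := hG.bot0 K hKm
  have hb0' := hG.bot0 K' hKm'
  have hbm := hG.mono K hKm
  have hbm' := hG.mono K' hKm'
  obtain ⟨m, rfl⟩ : ∃ m, M = m + 1 := ⟨M - 1, by omega⟩
  simp only [Nat.add_sub_cancel] at *
  have hm2 : m + 1 - 2 = m - 1 := by omega
  rw [hm2] at hcore
  set S := ((univ : Finset ((Fin (m+1) → Fin N) × (Fin (m+1) → Fin N))).filter (fun zz =>
      (∀ j : Fin (m+1), zz.1 j ∈ (lay K).V j) ∧ (∀ j : Fin (m+1), zz.2 j ∈ (lay K').V j) ∧
      key (lay K) m zz.1 = π ∧ elt lay K x zz.1 + elt lay K' x zz.2 = n)) with hS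
  rcases S.eq_empty_or_nonempty with he | ⟨zz₀, h₀⟩
  · rw [he]; simp
  rw [hS, mem_filter] at h₀
  obtain ⟨-, h₀1, h₀2, h₀3, h₀4⟩ := h₀
  -- variables below the window
  have hvar : ∀ zz ∈ S, ∀ i : Fin (m+1), i.val < m → zz.1 i = zz₀.1 i := by
    intro zz hzz i hi
    rw [hS, mem_filter] at hzz
    obtain ⟨-, h1, h2, h3, h4⟩ := hzz
    have hk : key (lay K) m zz.1 = key (lay K) m zz₀.1 := by rw [h3, h₀3]
    rw [key_eq_iff] at hk
    by_cases hi' : i.val + 1 < m
    · exact hk.1 i hi'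
    · have hi2 : i.val + 1 = m := by omega
      have hi3 : i.val = m - 1 := by omega
      have h5 := hk.2 i hi2
      rw [hi3] at h5
      exact hcore _ (by rw [← hi3]; exact h1 i) _ (by rw [← hi3]; exact h₀1 i) h5
  have hlow : ∀ zz ∈ S, pval (lay K).bot (dig lay K x zz.1) m =
      pval (lay K).bot (dig lay K x zz₀.1) m := by
    intro zz hzz
    refine pval_congr (fun i hi => ?_)
    have him : i < m + 1 := by omega
    rw [dig_val lay x zz.1 him, dig_val lay x zz₀.1 him, hvar zz hzz ⟨i, him⟩ hi]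
    have hk : key (lay K) i zz.1 = key (lay K) i zz₀.1 := by
      rw [key_eq_iff]
      refine ⟨fun j hj => hvar zz hzz j (by omega), fun j hj => ?_⟩
      rw [hvar zz hzz j (by omega)]
    rw [hk]
  -- low digits of `a'`
  have hvar' : ∀ zz ∈ S, ∀ i : Fin (m+1), i.val < m → zz.2 i = zz₀.2 i := by
    intro zz hzz
    have hz := hzz
    rw [hS, mem_filter] at hz
    obtain ⟨-, h1, h2, h3, h4⟩ := hz
    refine decode lay hb0' hbm' (hD K' hKm') x h2 h₀2 (Nat.le_succ m) ?_
    -- both sides are congruent modulo `2 ^ bot' m`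
    have hl := hlow zz hzz
    obtain ⟨u1, hu1⟩ := pval_split (w := dig lay K x zz.1) hbm (j := m) (m := m+1) (Nat.le_succ m)
    obtain ⟨u2, hu2⟩ := pval_split (w := dig lay K x zz₀.1) hbm (j := m) (m := m+1) (Nat.le_succ m)
    obtain ⟨v1, hv1⟩ := pval_split (w := dig lay K' x zz.2) hbm' (j := m) (m := m+1)
      (Nat.le_succ m)
    obtain ⟨v2, hv2⟩ := pval_split (w := dig lay K' x zz₀.2) hbm' (j := m) (m := m+1)
      (Nat.le_succ m)
    have l1 := pval_lt hb0' hbm' (dig_lt lay K' x zz.2) m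
    have l2 := pval_lt hb0' hbm' (dig_lt lay K' x zz₀.2) m
    unfold elt at h4 h₀4
    rw [hu1, hv1, hl] at h4
    rw [hu2, hv2] at h₀4
    have hdvd : 2 ^ (lay K').bot m ∣ 2 ^ (lay K).bot m := pow_dvd_pow 2 ha
    obtain ⟨q, hq⟩ := hdvd
    rw [hq] at h4 h₀4
    have e : pval (lay K').bot (dig lay K' x zz.2) m + 2 ^ (lay K').bot m * (q * u1 + v1) =
        pval (lay K').bot (dig lay K' x zz₀.2) m + 2 ^ (lay K').bot m * (q * u2 + v2) := by
      have e1 : 2 ^ (lay K').bot m * (q * u1 + v1) = 2 ^ (lay K').bot m * q * u1 +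
          2 ^ (lay K').bot m * v1 := by ring
      have e2 : 2 ^ (lay K').bot m * (q * u2 + v2) = 2 ^ (lay K').bot m * q * u2 +
          2 ^ (lay K').bot m * v2 := by ring
      rw [e1, e2]
      omega
    have e3 := congrArg (· % 2 ^ (lay K').bot m) e
    simp only [Nat.add_mul_mod_self_left, Nat.mod_eq_of_lt l1, Nat.mod_eq_of_lt l2] at e3
    exact e3
  have hlow' : ∀ zz ∈ S, pval (lay K').bot (dig lay K' x zz.2) m =
      pval (lay K').bot (dig lay K' x zz₀.2) m := by
    intro zz hzz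
    refine pval_congr (fun i hi => ?_)
    have him : i < m + 1 := by omega
    rw [dig_val lay x zz.2 him, dig_val lay x zz₀.2 him, hvar' zz hzz ⟨i, him⟩ hi]
    have hk : key (lay K') i zz.2 = key (lay K') i zz₀.2 := by
      rw [key_eq_iff]
      refine ⟨fun j hj => hvar' zz hzz j (by omega), fun j hj => ?_⟩
      rw [hvar' zz hzz j (by omega)]
    rw [hk]
  have hmm : m < m + 1 := Nat.lt_succ_self m
  -- map to the window pairs
  refine le_trans (Finset.card_le_card_of_injOn
    (fun zz : (Fin (m+1) → Fin N) × (Fin (m+1) → Fin N) => (zz.1 ⟨m, hmm⟩, zz.2 ⟨m, hmm⟩))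
    ?_ ?_) (hW (x (K, ⟨m, hmm⟩, key (lay K) m zz₀.1)).val
      (x (K', ⟨m, hmm⟩, key (lay K') m zz₀.2)).val
      (2 ^ (lay K).bot m * dig lay K x zz₀.1 m + 2 ^ (lay K').bot m * dig lay K' x zz₀.2 m))
  · intro zz hzz
    have hzz' := Finset.mem_coe.mp hzz
    have hz := hzz'
    rw [hS, mem_filter] at hz
    obtain ⟨-, h1, h2, h3, h4⟩ := hz
    unfold WinPairs
    rw [Finset.mem_coe, mem_filter, mem_product]
    refine ⟨⟨h1 ⟨m, hmm⟩, h2 ⟨m, hmm⟩⟩, ?_⟩
    have hk : key (lay K) m zz.1 = key (lay K) m zz₀.1 := by rw [h3, h₀3]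
    have hk' : key (lay K') m zz.2 = key (lay K') m zz₀.2 := by
      rw [key_eq_iff]
      refine ⟨fun j hj => hvar' zz hzz' j (by omega), fun j hj => ?_⟩
      rw [hvar' zz hzz' j (by omega)]
    have d1 := dig_val lay (L := K) x zz.1 hmm
    have d2 := dig_val lay (L := K') x zz.2 hmm
    rw [hk] at d1
    rw [hk'] at d2
    rw [← d1, ← d2]
    have s1 := pval_succ (lay K).bot (dig lay K x zz.1) m
    have s2 := pval_succ (lay K).bot (dig lay K x zz₀.1) m
    have s3 := pval_succ (lay K').bot (dig lay K' x zz.2) m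
    have s4 := pval_succ (lay K').bot (dig lay K' x zz₀.2) m
    unfold elt at h4 h₀4
    rw [s1, s3, hlow zz hzz', hlow' zz hzz'] at h4
    rw [s2, s4] at h₀4
    omega
  · intro zz hzz zz2 hzz2 heq
    have hzz' := Finset.mem_coe.mp hzz
    have hzz2' := Finset.mem_coe.mp hzz2
    simp only [Prod.mk.injEq] at heq
    refine Prod.ext ?_ ?_
    · funext i
      by_cases hi : i.val < m
      · rw [hvar zz hzz' i hi, hvar zz2 hzz2' i hi]
      · have : i = ⟨m, hmm⟩ := Fin.ext (by have := i.isLt; simp only; omega)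
        rw [this]; exact heq.1
    · funext i
      by_cases hi : i.val < m
      · rw [hvar' zz hzz' i hi, hvar' zz2 hzz2' i hi]
      · have : i = ⟨m, hmm⟩ := Fin.ext (by have := i.isLt; simp only; omega)
        rw [this]; exact heq.2

end

end Pool.Agent.ETS
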