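import Mathlib
import Pool.Agent.ETS.Far4
import Pool.Agent.ETS.Win
import Pool.Agent.ETS.Zone

/-!
# E-T (MP_12a1af_nt), project T*: reduction of the consistent pairs of blocks to zones
-/

open Finset

namespace Pool.Agent.ETS

/-- region `i` of the layout `A` is the region `r` -/
structure IsReg {N : ℕ} (C : Codes) (A : Lay N) (i : ℕ) (r : Reg) : Prop where
  bot : A.bot i = r.bot
  top : A.bot (i+1) = r.top C
  le : r.bot ≤ r.top C
  V : ∀ v ∈ A.V i, v.val ∈ r.V C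
  c : ∀ v ∈ A.V i, A.c i v = r.c C v.val
  core : ∀ v ∈ A.V i, (A.core i v).val = r.core v.val

/-- the zones that belong to the pair of consecutive regions `r0`, `r1` -/
def ZoneOf (C : Codes) (r0 r1 : Reg) (Z : Zone) : Prop :=
  match r0 with
  | Reg.PT _ e _ b => ∃ a κ κ₂, a < 2 ^ b ∧ Z = zRS C e b (r1.top C) a κ κ₂
  | _ => ∃ a κ, a < 2 ^ r1.bot ∧ Z = zreg C r1 a κ

/-- a region of kind `PT` is followed by its own `R` region -/
def Follows (C : Codes) (r0 r1 : Reg) : Prop :=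
  match r0 with
  | Reg.PT _ e _ b => ∃ v, r1 = Reg.R (b + C.W e) v
  | _ => True

lemma mod_split (q t s w : ℕ) :
    (q + 2 ^ s * t) % 2 ^ (s + w) = q % 2 ^ s + 2 ^ s * ((t + q / 2 ^ s) % 2 ^ w) := by
  have h1 : q + 2 ^ s * t = q % 2 ^ s + 2 ^ s * (t + q / 2 ^ s) := by
    have := Nat.div_add_mod q (2 ^ s)
    calc q + 2 ^ s * t = (2 ^ s * (q / 2 ^ s) + q % 2 ^ s) + 2 ^ s * t := by rw [this]
      _ = _ := by ring
  rw [h1, pow_add, Nat.mod_mul, Nat.add_mul_mod_self_left, Nat.mod_mod]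
  congr 2
  rw [Nat.add_mul_div_left _ _ (by positivity), Nat.div_eq_of_lt (Nat.mod_lt _ (by positivity)),
    zero_add]

/-- values of the blocks of two consecutive regions lie in a zone -/
lemma exists_zone {N : ℕ} (C : Codes) (A : Lay N) {i : ℕ} (hi : 1 ≤ i) {r0 r1 : Reg}
    (h0 : IsReg C A (i-1) r0) (h1 : IsReg C A i r1) (hf : Follows C r0 r1)
    (hP : ∀ p e f b, r0 = Reg.PT p e f b → f ≤ b) (a κ₁ κ₂ : ℕ) (co : Fin N)
    (ha : a < 2 ^ A.bot (i-1)) :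
    ∃ Z, ZoneOf C r0 r1 Z ∧ Z.top = A.bot (i+1) ∧
      ∀ b : Fin N × Fin N, b.1 ∈ A.V (i-1) → b.2 ∈ A.V i → A.core (i-1) b.1 = co →
        a + 2 ^ A.bot (i-1) * ((A.c (i-1) b.1 + κ₁) % 2 ^ A.len (i-1)) +
          2 ^ A.bot i * ((A.c i b.2 + κ₂) % 2 ^ A.len i) ∈ Z.S := by
  have hii : i - 1 + 1 = i := by omega
  have hbi : A.bot i = r0.top C := by rw [← h0.top, hii]
  have hlen0 : A.len (i-1) = r0.top C - r0.bot := by
    unfold Lay.len; rw [h0.top, h0.bot]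
  have hlen1 : A.len i = r1.top C - r1.bot := by
    unfold Lay.len; rw [h1.top, h1.bot]
  -- the case of an injective core
  have hgen : (∀ z, r0.core z = z) → ZoneOf C r0 r1 = (fun Z => ∃ a κ, a < 2 ^ r1.bot ∧
      Z = zreg C r1 a κ) → ∃ Z, ZoneOf C r0 r1 Z ∧ Z.top = A.bot (i+1) ∧
      ∀ b : Fin N × Fin N, b.1 ∈ A.V (i-1) → b.2 ∈ A.V i → A.core (i-1) b.1 = co →
        a + 2 ^ A.bot (i-1) * ((A.c (i-1) b.1 + κ₁) % 2 ^ A.len (i-1)) +
          2 ^ A.bot i * ((A.c i b.2 + κ₂) % 2 ^ A.len i) ∈ Z.S := by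
    intro hcore hZ
    have hlt : a + 2 ^ A.bot (i-1) * ((r0.c C co.val + κ₁) % 2 ^ A.len (i-1)) < 2 ^ r1.bot := by
      have e1 : r1.bot = A.bot (i-1) + A.len (i-1) := by
        rw [← h1.bot, hbi, hlen0, h0.bot]
        have := h0.le
        omega
      rw [e1, pow_add]
      have h3 : (r0.c C co.val + κ₁) % 2 ^ A.len (i-1) + 1 ≤ 2 ^ A.len (i-1) :=
        Nat.mod_lt _ (by positivity)
      calc _ < 2 ^ A.bot (i-1) + 2 ^ A.bot (i-1) * ((r0.c C co.val + κ₁) % 2 ^ A.len (i-1)) := by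
            omega
        _ = 2 ^ A.bot (i-1) * ((r0.c C co.val + κ₁) % 2 ^ A.len (i-1) + 1) := by ring
        _ ≤ _ := Nat.mul_le_mul_left _ h3
    refine ⟨zreg C r1 (a + 2 ^ A.bot (i-1) * ((r0.c C co.val + κ₁) % 2 ^ A.len (i-1))) κ₂, ?_, ?_, ?_⟩
    · rw [hZ]; exact ⟨_, _, hlt, rfl⟩
    · rw [h1.top]; rfl
    · intro b hb1 hb2 hco
      have hb1' : b.1.val = co.val := by
        have := h0.core b.1 hb1
        rw [hco, hcore] at this
        exact this.symm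
      unfold zreg
      simp only
      rw [mem_image]
      refine ⟨b.2.val, h1.V _ hb2, ?_⟩
      rw [h0.c _ hb1, h1.c _ hb2, hb1', ← hlen1, ← h1.bot]
  cases r0 with
  | PT p e f b =>
    obtain ⟨v, rfl⟩ := hf
    have hfb : f ≤ b := hP p e f b rfl
    simp only [Reg.top, Reg.bot] at hbi hlen0 hlen1
    have hbot0 : A.bot (i-1) = f := h0.bot
    set q := C.P p (b + C.W e - f) co.val + κ₁ with hq
    have hlenq : A.len (i-1) = (b - f) + C.W e := by rw [hlen0]; omega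
    refine ⟨zRS C e b v (a + 2 ^ f * (q % 2 ^ (b - f))) (q / 2 ^ (b - f)) κ₂, ?_, ?_, ?_⟩
    · refine ⟨_, _, _, ?_, rfl⟩
      have h3 : q % 2 ^ (b - f) + 1 ≤ 2 ^ (b - f) := Nat.mod_lt _ (by positivity)
      have h4 : 2 ^ b = 2 ^ f * 2 ^ (b - f) := by rw [← pow_add]; congr 1; omega
      rw [hbot0] at ha
      calc _ < 2 ^ f + 2 ^ f * (q % 2 ^ (b - f)) := by omega
        _ = 2 ^ f * (q % 2 ^ (b - f) + 1) := by ring
        _ ≤ 2 ^ f * 2 ^ (b - f) := Nat.mul_le_mul_left _ h3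
        _ = _ := h4.symm
    · rw [h1.top]; rfl
    · intro bb hb1 hb2 hco
      have hx : (Nat.unpair bb.1.val).1 = co.val := by
        have := h0.core bb.1 hb1
        rw [hco] at this
        exact this.symm
      unfold zRS
      simp only
      rw [mem_image]
      refine ⟨Nat.pair bb.2.val (Nat.unpair bb.1.val).2, ?_, ?_⟩
      · rw [mem_pairs, Nat.unpair_pair]
        have m1 := h1.V _ hb2
        have m2 := h0.V _ hb1
        simp only [Reg.V] at m1 m2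
        rw [mem_pairs] at m2
        exact ⟨m1, m2.2⟩
      · rw [Nat.unpair_pair]
        simp only
        rw [h0.c _ hb1, h1.c _ hb2, hlenq, hlen1, hbot0, hbi]
        simp only [Reg.c]
        rw [hx]
        have e2 : C.P p (b + C.W e - f) co.val + 2 ^ (b - f) * (Nat.unpair bb.1.val).2 + κ₁ =
            q + 2 ^ (b - f) * (Nat.unpair bb.1.val).2 := by rw [hq]; ring
        rw [e2, mod_split]
        have e3 : (2:ℕ) ^ b = 2 ^ f * 2 ^ (b - f) := by rw [← pow_add]; congr 1; omega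
        rw [e3]
        ring
  | P p f b => exact hgen (fun _ => rfl) rfl
  | R b v => exact hgen (fun _ => rfl) rfl
  | RT e b v => exact hgen (fun _ => rfl) rfl
  | RTh e b v => exact hgen (fun _ => rfl) rfl
  | win b v => exact hgen (fun _ => rfl) rfl
  | winC e b h v => exact hgen (fun _ => rfl) rfl

/-- different blocks have different values -/
lemma block_inj {N : ℕ} (A : Lay N) {i : ℕ} (hi : 1 ≤ i) (hmono : Monotone A.bot)
    (hD0 : ∀ v ∈ A.V (i-1), ∀ v' ∈ A.V (i-1),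
      A.c (i-1) v % 2 ^ A.len (i-1) = A.c (i-1) v' % 2 ^ A.len (i-1) → v = v')
    (hD1 : ∀ v ∈ A.V i, ∀ v' ∈ A.V i,
      A.c i v % 2 ^ A.len i = A.c i v' % 2 ^ A.len i → v = v') {a κ₁ κ₂ : ℕ}
    {b b' : Fin N × Fin N} (h1 : b.1 ∈ A.V (i-1)) (h2 : b.2 ∈ A.V i) (h1' : b'.1 ∈ A.V (i-1))
    (h2' : b'.2 ∈ A.V i)
    (h : a + 2 ^ A.bot (i-1) * ((A.c (i-1) b.1 + κ₁) % 2 ^ A.len (i-1)) +
          2 ^ A.bot i * ((A.c i b.2 + κ₂) % 2 ^ A.len i) =
        a + 2 ^ A.bot (i-1) * ((A.c (i-1) b'.1 + κ₁) % 2 ^ A.len (i-1)) +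
          2 ^ A.bot i * ((A.c i b'.2 + κ₂) % 2 ^ A.len i)) : b = b' := by
  have hle : A.bot (i-1) ≤ A.bot i := hmono (by omega)
  have hlen : A.bot i = A.bot (i-1) + A.len (i-1) := by
    unfold Lay.len
    have : i - 1 + 1 = i := by omega
    rw [this]; omega
  have hp : 2 ^ A.bot i = 2 ^ A.bot (i-1) * 2 ^ A.len (i-1) := by rw [hlen, pow_add]
  set u := (A.c (i-1) b.1 + κ₁) % 2 ^ A.len (i-1)
  set u' := (A.c (i-1) b'.1 + κ₁) % 2 ^ A.len (i-1)
  set w := (A.c i b.2 + κ₂) % 2 ^ A.len i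
  set w' := (A.c i b'.2 + κ₂) % 2 ^ A.len i
  have hu : u < 2 ^ A.len (i-1) := Nat.mod_lt _ (by positivity)
  have hu' : u' < 2 ^ A.len (i-1) := Nat.mod_lt _ (by positivity)
  have hpos : 0 < 2 ^ A.bot (i-1) := by positivity
  have hpos2 : 0 < 2 ^ A.len (i-1) := by positivity
  have h3 : u + 2 ^ A.len (i-1) * w = u' + 2 ^ A.len (i-1) * w' := by
    rw [hp] at h
    have h4 : 2 ^ A.bot (i-1) * (u + 2 ^ A.len (i-1) * w) =
        2 ^ A.bot (i-1) * (u' + 2 ^ A.len (i-1) * w') := by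
      have e1 : 2 ^ A.bot (i-1) * (u + 2 ^ A.len (i-1) * w) =
        2 ^ A.bot (i-1) * u + 2 ^ A.bot (i-1) * 2 ^ A.len (i-1) * w := by ring
      have e2 : 2 ^ A.bot (i-1) * (u' + 2 ^ A.len (i-1) * w') =
        2 ^ A.bot (i-1) * u' + 2 ^ A.bot (i-1) * 2 ^ A.len (i-1) * w' := by ring
      omega
    exact Nat.eq_of_mul_eq_mul_left hpos h4
  have huu : u = u' := by
    have := congrArg (· % 2 ^ A.len (i-1)) h3
    simpa [Nat.add_mul_mod_self_left, Nat.mod_eq_of_lt hu, Nat.mod_eq_of_lt hu'] using this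
  have hww : w = w' := by
    rw [huu] at h3
    have : 2 ^ A.len (i-1) * w = 2 ^ A.len (i-1) * w' := by omega
    exact Nat.eq_of_mul_eq_mul_left hpos2 this
  refine Prod.ext ?_ ?_
  · exact hD0 _ h1 _ h1' (Nat.ModEq.add_right_cancel' κ₁ huu)
  · exact hD1 _ h2 _ h2' (Nat.ModEq.add_right_cancel' κ₂ hww)

/-- **Reduction.** -/
theorem consSet_le_zcons {N : ℕ} (C : Codes) (lay : ℕ → Lay N) {K K' i i' M : ℕ} (hi : 1 ≤ i)
    (hi' : 1 ≤ i') (hiM : i < M) (hiM' : i' < M)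
    (hm : Monotone (lay K).bot) (hm' : Monotone (lay K').bot)
    (hD : Distinct (lay K) M) (hD' : Distinct (lay K') M)
    {r0 r1 r0' r1' : Reg} (h0 : IsReg C (lay K) (i-1) r0) (h1 : IsReg C (lay K) i r1)
    (h0' : IsReg C (lay K') (i'-1) r0') (h1' : IsReg C (lay K') i' r1')
    (hf : Follows C r0 r1) (hf' : Follows C r0' r1')
    (hP : ∀ p e f b, r0 = Reg.PT p e f b → f ≤ b)
    (hP' : ∀ p e f b, r0' = Reg.PT p e f b → f ≤ b)
    (n a κ₁ κ₂ a' κ₁' κ₂' : ℕ) (co co' : Fin N)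
    (ha : a < 2 ^ (lay K).bot (i-1)) (ha' : a' < 2 ^ (lay K').bot (i'-1)) :
    ∃ Z Z', ZoneOf C r0 r1 Z ∧ ZoneOf C r0' r1' Z' ∧
      (ConsSet lay K K' i i' n a κ₁ κ₂ a' κ₁' κ₂' co co').card ≤ (zcons K K' n Z Z').card := by
  classical
  obtain ⟨Z, hZ, hZt, hZm⟩ := exists_zone C (lay K) hi h0 h1 hf hP a κ₁ κ₂ co ha
  obtain ⟨Z', hZ', hZt', hZm'⟩ := exists_zone C (lay K') hi' h0' h1' hf' hP' a' κ₁' κ₂' co' ha'
  refine ⟨Z, Z', hZ, hZ', ?_⟩
  refine Finset.card_le_card_of_injOn (fun bb => 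
    (a + 2 ^ (lay K).bot (i-1) * (((lay K).c (i-1) bb.1.1 + κ₁) % 2 ^ (lay K).len (i-1)) +
          2 ^ (lay K).bot i * (((lay K).c i bb.1.2 + κ₂) % 2 ^ (lay K).len i),
     a' + 2 ^ (lay K').bot (i'-1) * (((lay K').c (i'-1) bb.2.1 + κ₁') % 2 ^ (lay K').len (i'-1)) +
          2 ^ (lay K').bot i' * (((lay K').c i' bb.2.2 + κ₂') % 2 ^ (lay K').len i'))) ?_ ?_
  · intro bb hbb
    have hbb' := Finset.mem_coe.mp hbb
    unfold ConsSet at hbb'
    rw [mem_filter, mem_product, mem_product, mem_product] at hbb'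
    obtain ⟨⟨⟨b1, b2⟩, b3, b4⟩, hco, hco', u, u', hu, hu', he⟩ := hbb'
    rw [Finset.mem_coe, mem_zcons]
    refine ⟨⟨hZm _ b1 b2 hco, hZm' _ b3 b4 hco'⟩, u, u', ?_, ?_, ?_⟩
    · rw [hZt]; exact hu
    · rw [hZt']; exact hu'
    · rw [hZt, hZt']
      exact he
  · intro bb hbb cc hcc heq
    have hbb' := Finset.mem_coe.mp hbb
    have hcc' := Finset.mem_coe.mp hcc
    unfold ConsSet at hbb' hcc'
    rw [mem_filter, mem_product, mem_product, mem_product] at hbb' hcc'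
    obtain ⟨⟨⟨b1, b2⟩, b3, b4⟩, -⟩ := hbb'
    obtain ⟨⟨⟨c1, c2⟩, c3, c4⟩, -⟩ := hcc'
    simp only [Prod.mk.injEq] at heq
    have e1 := block_inj (lay K) hi hm (fun v hv v' hv' => hD (i-1) (by omega) v hv v' hv')
      (fun v hv v' hv' => hD i hiM v hv v' hv') b1 b2 c1 c2 heq.1
    have e2 := block_inj (lay K') hi' hm' (fun v hv v' hv' => hD' (i'-1) (by omega) v hv v' hv')
      (fun v hv v' hv' => hD' i' hiM' v hv v' hv') b3 b4 c3 c4 heq.2
    exact Prod.ext e1 e2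

end Pool.Agent.ETS
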