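import Mathlib
import Pool.Agent.ETS.Reg

/-!
# E-T (MP_12a1af_nt), project T*: what the pair bounds use about one `P` code

`X l` variables of length `l`, `P l x` content of length `l`.
-/

open Finset

namespace Pool.Agent.ETS

/-- the properties of a `P` code which the pair bounds use -/
structure PCode (X : ℕ → Finset ℕ) (P : ℕ → ℕ → ℕ) : Prop where
  /-- the variables are odd -/
  odd : ∀ l, ∀ x ∈ X l, x % 2 = 1
  /-- restriction -/
  res : ∀ l k l₀, k ≤ l → ∀ x ∈ X l₀, P l x % 2 ^ k = P k x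
  /-- the content of length `l` determines the variable of length `l` -/
  inj : ∀ l, ∀ x ∈ X l, ∀ y ∈ X l, P l x ≡ P l y [MOD 2 ^ l] → x = y
  /-- sums of contents give products -/
  dec : ∀ l l' k, k ≤ l → k ≤ l' → ∀ x ∈ X l, ∀ y ∈ X l, ∀ x' ∈ X l', ∀ y' ∈ X l',
    P k x + P k x' ≡ P k y + P k y' [MOD 2 ^ k] → x * x' ≡ y * y' [MOD 2 ^ (k + 2)]
  /-- the Sidon property -/
  sid : ∀ l, ∀ x ∈ X l, ∀ x' ∈ X l, ∀ y ∈ X l, ∀ y' ∈ X l,
    P l x + P l x' ≡ P l y + P l y' [MOD 2 ^ l] → (x = y ∧ x' = y') ∨ (x = y' ∧ x' = y)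
  /-- variables in a residue class -/
  cls : ∀ l k c, ((X l).filter (fun x => x % 2 ^ (k + 2) = c)).card ≤ 2 ^ ((l + 1) / 2 - k) + 1
  /-- first factors of products in a residue class -/
  fst : ∀ l a, a ≤ l → ∀ G, ((X l).filter (fun x => ∃ x' ∈ X a, x * x' % 2 ^ (a + 2) = G)).card ≤
    2 ^ ((l - a) / 2 + 4)

end Pool.Agent.ETS
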