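import Mathlib
import Pool.Agent.Helper16.ETL.Body
import Pool.Agent.Helper3.ETF.Lists
import Pool.Agent.ETS.Red

/-!
# E-T (MP_12a1af_nt), project T*: the pairs of consecutive regions of a layout
-/

open Finset

namespace Pool.Agent.ETS

open Pool.Agent.Helper29.ETK (Kid kid wb ep Wd av ab ag ak CC Hb wcomp)
open Pool.Agent.ETP (isPT)

/-- all consecutive pairs of `p :: l` satisfy `Q` -/
def Adj (Q : Reg → Reg → Prop) : Reg → List Reg → Prop
  | _, [] => True
  | p, r :: l => Q p r ∧ Adj Q r l

/-- last element of `p :: l` -/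
def lastR : Reg → List Reg → Reg
  | p, [] => p
  | _, r :: l => lastR r l

lemma Adj.get {Q : Reg → Reg → Prop} : ∀ {l : List Reg} {p : Reg}, Adj Q p l →
    ∀ {j : ℕ} {r0 r1 : Reg}, (p :: l)[j]? = some r0 → l[j]? = some r1 → Q r0 r1
  | [], p, _, j, r0, r1, _, h1 => by simp at h1
  | r :: l, p, h, j, r0, r1, h0, h1 => by
    cases j with
    | zero =>
      simp only [List.getElem?_cons_zero, Option.some.injEq] at h0 h1
      subst h0 h1
      exact h.1
    | succ j =>
      rw [List.getElem?_cons_succ] at h0 h1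
      exact Adj.get h.2 h0 h1

lemma Adj.append {Q : Reg → Reg → Prop} : ∀ {l1 : List Reg} {p : Reg} {l2 : List Reg},
    Adj Q p l1 → Adj Q (lastR p l1) l2 → Adj Q p (l1 ++ l2)
  | [], _, _, _, h2 => h2
  | _ :: _, _, _, h1, h2 => ⟨h1.1, Adj.append h1.2 h2⟩

lemma lastR_append : ∀ (l1 : List Reg) (p : Reg) (l2 : List Reg),
    lastR p (l1 ++ l2) = lastR (lastR p l1) l2
  | [], _, _ => rfl
  | _ :: l1, _, l2 => lastR_append l1 _ l2

/-- kinds of zones below the window -/
inductive Desc
  | P (g e : ℕ)
  | PT (g b : ℕ)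
  | RS (g b v : ℕ)
  | R (b v : ℕ)
  | RT (b v : ℕ)
  | RTh (b v : ℕ)

/-- `r0, r1` are consecutive regions of the layout at the time `t`, `r1` below the window, with the
description `d` -/
def IsDesc (c t : ℕ) : Desc → Reg → Reg → Prop
  | .P g e, r0, r1 => r1 = Reg.P (pidx c g) g e ∧ ¬ isPT r0 ∧ g < e ∧ e ≤ wb c t ∧
      (∀ s, g ≤ s → s < e → kid c t s = .P g) ∧ (e = wb c t ∨ kid c t e ≠ .P g)
  | .PT g b, r0, r1 => r1 = Reg.PT (pidx c g) (ep c b) g b ∧ ¬ isPT r0 ∧ g ≤ b ∧
      b + Wd c b ≤ av c t ∧ av c t ≤ wb c t ∧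
      (∀ s, g ≤ s → s < b + Wd c b → kid c t s = .PT g b) ∧
      (∀ s, b + Wd c b ≤ s → s < av c t → kid c t s = .R (av c t))
  | .RS g b v, r0, r1 => r0 = Reg.PT (pidx c g) (ep c b) g b ∧ r1 = Reg.R (b + Wd c b) v ∧
      v = av c t ∧ g ≤ b ∧ b + Wd c b ≤ v ∧ v ≤ wb c t ∧
      (∀ s, g ≤ s → s < b + Wd c b → kid c t s = .PT g b) ∧
      (∀ s, b + Wd c b ≤ s → s < v → kid c t s = .R v)
  | .R b v, r0, r1 => r1 = Reg.R b v ∧ ¬ isPT r0 ∧ b < v ∧ v ≤ wb c t ∧
      (∀ s, b ≤ s → s < v → kid c t s = .R v) ∧ (b = 0 ∨ kid c t (b - 1) ≠ .R v)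
  | .RT b v, r0, r1 => r1 = Reg.RT (ep c b) b v ∧ ¬ isPT r0 ∧ b < v ∧ v ≤ wb c t ∧
      (∀ s, b ≤ s → s < v → kid c t s = .RT v) ∧ (b = 0 ∨ kid c t (b - 1) ≠ .RT v)
  | .RTh b v, r0, r1 => r1 = Reg.RTh (ep c b) b v ∧ ¬ isPT r0 ∧ b < v ∧ v ≤ wb c t ∧
      (∀ s, b ≤ s → s < v → kid c t s = .RTh v) ∧ (b = 0 ∨ kid c t (b - 1) ≠ .RTh v)

/-- description of some consecutive pair -/
def HasDesc (c t : ℕ) (r0 r1 : Reg) : Prop := ∃ d, IsDesc c t d r0 r1

/-- condition on the region before the position `u` -/
def Before (c t : ℕ) (p : Reg) (u : ℕ) : Prop :=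
  ¬ isPT p ∨ ∃ g b, p = Reg.PT (pidx c g) (ep c b) g b ∧ u = b + Wd c b ∧ g ≤ b ∧ u < av c t ∧
    av c t ≤ wb c t ∧ (∀ s, g ≤ s → s < b + Wd c b → kid c t s = .PT g b) ∧
    (∀ s, b + Wd c b ≤ s → s < av c t → kid c t s = .R (av c t))

variable {c t : ℕ}

lemma Before.notPT {p : Reg} {u : ℕ} (h : Before c t p u)
    (hu : u < wb c t → ∀ v, kid c t u ≠ .R v) (hu2 : u ≤ wb c t) : ¬ isPT p := by
  rcases h with h | ⟨g, b, rfl, rfl, h1, h2, h3, h4, h5⟩
  · exact h
  · exact absurd (h5 _ le_rfl h2) (hu (by omega) _)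

lemma adj_runs (H : KidOK c t) : ∀ (n u : ℕ) (p : Reg), wb c t - u ≤ n → u ≤ wb c t →
    (u = 0 ∨ kid c t (u - 1) ≠ kid c t u ∨ u = wb c t) → Before c t p u →
    Adj (HasDesc c t) p ((runs (kid c t) (wb c t) u).flatMap (toRegs c t)) ∧
    ¬ isPT (lastR p ((runs (kid c t) (wb c t) u).flatMap (toRegs c t)))
  | 0, u, p, hn, hu, _, hp => by
    have : u = wb c t := by omega
    subst this
    rw [runs_of_le _ le_rfl]
    exact ⟨trivial, hp.notPT (fun h => absurd h (lt_irrefl _)) le_rfl⟩
  | n + 1, u, p, hn, hu, hcut, hp => by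
    rcases Nat.eq_or_lt_of_le hu with rfl | hlt
    · rw [runs_of_le _ le_rfl]
      exact ⟨trivial, hp.notPT (fun h => absurd h (lt_irrefl _)) le_rfl⟩
    have h3 := lt_rend (kid c t) u (wb c t)
    have h4 := rend_le (kid c t) hlt
    have h5 : ∀ s, u ≤ s → s < rend (kid c t) u (wb c t) → kid c t s = kid c t u :=
      fun s h1 h2 => of_lt_rend _ h1 h2
    have h6 := rend_spec (kid c t) u (wb c t)
    rw [runs_of_lt _ hlt, List.flatMap_cons]
    obtain ⟨e, he⟩ : ∃ e, e = rend (kid c t) u (wb c t) := ⟨_, rfl⟩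
    rw [← he] at h3 h4 h5 h6 ⊢
    have hcut' : u = 0 ∨ kid c t (u - 1) ≠ kid c t u := by
      rcases hcut with h | h | h
      · exact Or.inl h
      · exact Or.inr h
      · omega
    have hcute : e = 0 ∨ kid c t (e - 1) ≠ kid c t e ∨ e = wb c t := by
      rcases h6 with h | h
      · right; right; omega
      · right; left
        rw [h5 (e-1) (by omega) (by omega)]
        exact fun h' => h h'.symm
    cases hk : kid c t u with
    | P g =>
      have hnp : ¬ isPT p := hp.notPT (fun _ v hv => by rw [hk] at hv; cases hv) hu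
      have hg : u = g := by
        obtain ⟨h7, h8⟩ := H.P u g hlt hk
        by_contra hne
        rcases hcut' with h9 | h9
        · omega
        · exact h9 (by rw [hk]; exact h8 (u-1) (by omega) (by omega))
      have ih := adj_runs H n e (Reg.P (pidx c g) g e) (by omega) h4 hcute (Or.inl (by simp [isPT]))
      simp only [toRegs, List.cons_append, List.nil_append]
      refine ⟨⟨⟨.P g e, ?_⟩, ih.1⟩, ih.2⟩
      refine ⟨rfl, hnp, by omega, h4, fun s h1 h2 => ?_, ?_⟩
      · rw [h5 s (by omega) h2, hk]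
      · rcases h6 with h | h
        · left; omega
        · right; rw [hk] at h; exact h
    | PT g b =>
      have hnp : ¬ isPT p := hp.notPT (fun _ v hv => by rw [hk] at hv; cases hv) hu
      obtain ⟨h7, h8, h9, h10, h11, h12, h13⟩ := H.PT u g b hlt hk
      have hg : u = g := by
        by_contra hne
        rcases hcut' with h14 | h14
        · omega
        · exact h14 (by rw [hk]; exact h12 (u-1) (by omega) (by omega))
      have hee : e = b + Wd c b := by
        rw [he]
        refine rend_eq _ (by omega) (by omega) (fun s h1 h2 => ?_) ?_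
        · rw [h12 s (by omega) h2, hk]
        · by_cases h14 : b + Wd c b = wb c t
          · exact Or.inl h14
          · right
            intro h15
            rw [hk] at h15
            have h16 := (H.PT (b + Wd c b) g b (by omega) h15).2.2.1
            omega
      simp only [toRegs]
      by_cases hav : av c t = b + Wd c b
      · rw [if_pos hav]
        have ih := adj_runs H n e (Reg.R (b + Wd c b) (b + Wd c b)) (by omega) h4 hcute
          (Or.inl (by simp [isPT]))
        simp only [List.cons_append, List.nil_append]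
        refine ⟨⟨⟨.PT g b, ?_⟩, ⟨.RS g b (b + Wd c b), ?_⟩, ih.1⟩, ih.2⟩
        · exact ⟨rfl, hnp, h7, h10, h11, h12, h13⟩
        · exact ⟨rfl, rfl, hav.symm, h7, le_rfl, by omega, h12, fun s h1 h2 => by omega⟩
      · rw [if_neg hav]
        have ih := adj_runs H n e (Reg.PT (pidx c g) (ep c b) g b) (by omega) h4 hcute
          (Or.inr ⟨g, b, rfl, hee, h7, by omega, h11, h12, h13⟩)
        simp only [List.cons_append, List.nil_append]
        exact ⟨⟨⟨.PT g b, rfl, hnp, h7, h10, h11, h12, h13⟩, ih.1⟩, ih.2⟩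
    | R v =>
      obtain ⟨h7, h8, h9⟩ := H.R u v hlt hk
      have hev : e = v := by
        rw [he]
        refine rend_eq _ h7 h8 (fun s h1 h2 => by rw [h9 s h1 h2, hk]) ?_
        by_cases h14 : v = wb c t
        · exact Or.inl h14
        · right
          intro h15
          rw [hk] at h15
          exact absurd (H.R v v (by omega) h15).1 (lt_irrefl _)
      have ih := adj_runs H n e (Reg.R u v) (by omega) h4 hcute (Or.inl (by simp [isPT]))
      simp only [toRegs, List.cons_append, List.nil_append]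
      rcases hp with hp | ⟨g, b, rfl, rfl, q1, q2, q3, q4, q5⟩
      · refine ⟨⟨⟨.R u v, ?_⟩, ih.1⟩, ih.2⟩
        exact ⟨rfl, hp, h7, h8, h9, by
          rcases hcut' with h | h
          · exact Or.inl h
          · right; rw [hk] at h; exact h⟩
      · have hv : v = av c t := by
          have := q5 _ le_rfl q2
          rw [hk] at this
          injection this
        refine ⟨⟨⟨.RS g b v, ?_⟩, ih.1⟩, ih.2⟩
        exact ⟨rfl, rfl, hv, q1, h7.le, h8, q4, h9⟩
    | RT v =>
      have hnp : ¬ isPT p := hp.notPT (fun _ v hv => by rw [hk] at hv; cases hv) hu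
      obtain ⟨h7, h8, h9⟩ := H.RT u v hlt hk
      have hev : e = v := by
        rw [he]
        refine rend_eq _ h7 h8 (fun s h1 h2 => by rw [h9 s h1 h2, hk]) ?_
        by_cases h14 : v = wb c t
        · exact Or.inl h14
        · right
          intro h15
          rw [hk] at h15
          exact absurd (H.RT v v (by omega) h15).1 (lt_irrefl _)
      have ih := adj_runs H n e (Reg.RT (ep c u) u v) (by omega) h4 hcute (Or.inl (by simp [isPT]))
      simp only [toRegs, List.cons_append, List.nil_append]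
      refine ⟨⟨⟨.RT u v, ?_⟩, ih.1⟩, ih.2⟩
      exact ⟨rfl, hnp, h7, h8, h9, by
          rcases hcut' with h | h
          · exact Or.inl h
          · right; rw [hk] at h; exact h⟩
    | RTh v =>
      have hnp : ¬ isPT p := hp.notPT (fun _ v hv => by rw [hk] at hv; cases hv) hu
      obtain ⟨h7, h8, h9⟩ := H.RTh u v hlt hk
      have hev : e = v := by
        rw [he]
        refine rend_eq _ h7 h8 (fun s h1 h2 => by rw [h9 s h1 h2, hk]) ?_
        by_cases h14 : v = wb c t
        · exact Or.inl h14
        · right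
          intro h15
          rw [hk] at h15
          exact absurd (H.RTh v v (by omega) h15).1 (lt_irrefl _)
      have ih := adj_runs H n e (Reg.RTh (ep c u) u v) (by omega) h4 hcute (Or.inl (by simp [isPT]))
      simp only [toRegs, List.cons_append, List.nil_append]
      refine ⟨⟨⟨.RTh u v, ?_⟩, ih.1⟩, ih.2⟩
      exact ⟨rfl, hnp, h7, h8, h9, by
          rcases hcut' with h | h
          · exact Or.inl h
          · right; rw [hk] at h; exact h⟩

/-- **Consecutive regions.**  `r0, r1` consecutive in `Reg.R 0 0 :: layL c t`: a description, or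
`r1` is the window. -/
theorem layL_cases (H : KidOK c t) {j : ℕ} {r0 r1 : Reg}
    (h0 : (Reg.R 0 0 :: layL c t)[j]? = some r0) (h1 : (layL c t)[j]? = some r1) :
    HasDesc c t r0 r1 ∨ (r1 = winReg c t ∧ j + 1 = (layL c t).length ∧ ¬ isPT r0) := by
  have hA := adj_runs H _ 0 (Reg.R 0 0) le_rfl (Nat.zero_le _) (Or.inl rfl)
    (Or.inl (by simp [isPT]))
  have hlen : (layL c t).length = (body c t).length + 1 := by simp [layL]
  rcases lt_or_ge j (body c t).length with hj | hj
  · left
    refine hA.1.get (j := j) ?_ ?_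
    · rw [← h0]
      unfold layL
      rw [← List.cons_append, List.getElem?_append_left (by simp; omega)]
      rfl
    · rw [← h1]
      unfold layL
      rw [List.getElem?_append_left hj]
      rfl
  · right
    have hj1 : j < (layL c t).length := by
      by_contra h
      rw [List.getElem?_eq_none (by omega)] at h1
      cases h1
    have hj2 : j = (body c t).length := by omega
    subst hj2
    have hr1 : r1 = winReg c t := by
      unfold layL at h1
      rw [List.getElem?_append_right le_rfl, Nat.sub_self] at h1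
      simpa using h1.symm
    refine ⟨hr1, hlen.symm, ?_⟩
    have : r0 = lastR (Reg.R 0 0) (body c t) := by
      have key : ∀ (l : List Reg) (p w : Reg), (p :: (l ++ [w]))[l.length]? = some (lastR p l) := by
        intro l
        induction l with
        | nil => intro p w; rfl
        | cons a l ih =>
          intro p w
          rw [List.length_cons, List.getElem?_cons_succ, List.cons_append]
          exact ih a w
      have h2 := key (body c t) (Reg.R 0 0) (winReg c t)
      unfold layL at h0
      rw [h2] at h0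
      exact (Option.some_injective _ h0).symm
    rw [this]
    exact hA.2

end Pool.Agent.ETS
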