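import Mathlib
import Pool.Agent.ETS.Desc
import Pool.Agent.ETS.PhiV

/-!
# E-T (MP_12a1af_nt), project T*: far pairs, the interface between kinematics and counting
-/

open Finset

namespace Pool.Agent.ETS

open Pool.Agent.Helper29.ETK (Kid kid wb ep Wd av ab ag ak CC Hb nb wcomp gth j0 lg)
open Pool.Agent.ETP (isPT phiV)

/-- the bound wanted for one far pair of pairs of consecutive regions -/
def FarOK (C : Codes) (c K K' : ℕ) (r0 r1 r0' r1' : Reg) : Prop :=
  ∃ B : ℕ, (∀ n Z Z', ZoneOf C r0 r1 Z → ZoneOf C r0' r1' Z' → (zcons K K' n Z Z').card ≤ B) ∧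
    (B : ℝ) * phiV K K' (r1.top C) (r1'.top C) ≤ (1/2) ^ (gth c K / (8 * CC c))

namespace Desc

/-- bottom of the zone -/
def lo : Desc → ℕ
  | .P g _ => g
  | .PT g _ => g
  | .RS _ b _ => b
  | .R b _ => b
  | .RT b _ => b
  | .RTh b _ => b

/-- top of the zone -/
def hi (c : ℕ) : Desc → ℕ
  | .P _ e => e
  | .PT _ b => b + Wd c b
  | .RS _ _ v => v
  | .R _ v => v
  | .RT _ v => v
  | .RTh _ v => v

/-- end of the boundary interval which belongs to the zone: the top for the `P` types, the bottom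
of the part with the variable `y` for the `R` types -/
def Ip (c : ℕ) : Desc → ℕ
  | .P _ e => e
  | .PT _ b => b + Wd c b
  | .RS _ b _ => b + Wd c b
  | .R b _ => b
  | .RT b _ => b + Wd c b
  | .RTh b _ => b + Wd c b

/-- lower end of the boundary interval of a zone of `R` type -/
def Im (c : ℕ) : Desc → ℕ
  | .P _ e => e
  | .PT _ b => b + Wd c b
  | .RS _ b _ => b + Wd c b
  | .R b _ => b
  | .RT b _ => b
  | .RTh b _ => b

/-- `P` type -/
def IsP : Desc → Prop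
  | .P _ _ => True
  | .PT _ _ => True
  | _ => False

/-- `R` type -/
def IsR : Desc → Prop
  | .P _ _ => False
  | .PT _ _ => False
  | _ => True

end Desc

/-- distance of the boundary intervals -/
def ddist (c : ℕ) (d d' : Desc) : ℕ := (d.Im c - d'.Ip c) + (d'.Im c - d.Ip c)

/-- there are consecutive regions with the description `d` at the time `t` -/
def Occ (c t : ℕ) (d : Desc) : Prop := ∃ r0 r1, IsDesc c t d r0 r1

/-- **The kinematic facts for two far times** `K' + gth c K ≤ K`. -/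
structure FarKin (c K K' : ℕ) : Prop where
  wbK' : wb c K' ≤ K'
  wbK : wb c K ≤ K
  /-- laminarity -/
  lamR : ∀ d d', Occ c K d → Occ c K' d' → d.IsR → d.hi c ≤ wb c K' →
    d'.hi c ≤ d.hi c ∨ d.hi c ≤ d'.lo
  lamP : ∀ d d', Occ c K d → Occ c K' d' → d.IsP → d.lo ≤ wb c K' →
    d'.hi c ≤ d.lo ∨ d.lo ≤ d'.lo
  /-- `P` run of `g` at `K`, `R` zone at `K'` above `g` -/
  F1 : ∀ d d', Occ c K d → Occ c K' d' → d.IsP → d'.IsR → d.lo ≤ d'.lo →
    (10 * CC c + 9) * (d.hi c - d'.Ip c) ≤ 10 * CC c * (K - K')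
  /-- `P` run of `g` at `K`, `P` run of `g' > g` at `K'` -/
  F1P : ∀ d d', Occ c K d → Occ c K' d' → d.IsP → d'.IsP → d.lo < d'.lo →
    (10 * CC c + 9) * (d.hi c - d'.lo) ≤ 10 * CC c * (K - K')
  /-- `R` zone at `K`, `P` run at `K'` -/
  F2 : ∀ d d', Occ c K d → Occ c K' d' → d.IsR → d'.IsP → d'.hi c ≤ d.hi c →
    (10 * CC c + 9) * (d'.hi c - d.Ip c) ≤ 10 * CC c * (K - K')
  /-- `R` zone at `K`, `P` run at `K'` which starts strictly above the bottom of the zone -/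
  F2L : ∀ d d', Occ c K d → Occ c K' d' → d.IsR → d'.IsP → d.lo < d'.lo → d'.hi c ≤ d.hi c →
    (10 * CC c + 5) * (d'.hi c - d.lo) ≤ 10 * CC c * (K - K')
  /-- `R` zone at `K`, `R` zone with smaller top at `K'` -/
  F2R : ∀ d d', Occ c K d → Occ c K' d' → d.IsR → d'.IsR → d'.hi c < d.hi c →
    (10 * CC c + 9) * (d'.hi c - d.lo) ≤ 10 * CC c * (K - K')
  /-- same top -/
  F3 : ∀ d d', Occ c K d → Occ c K' d' → d.IsR → d'.IsR → d.hi c = d'.hi c →
    ep c d.lo = ep c d'.lo ∧ (10 * CC c + 9) * ddist c d d' ≤ 10 * CC c * (K - K')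
  /-- `P` run at `K` ending above the bottom of the window of `K'` -/
  F4P : ∀ d, Occ c K d → d.IsP → d.hi c ≤ K' →
    (10 * CC c + 5) * (d.hi c - wb c K') ≤ 10 * CC c * (K - K')
  /-- `R` zone at `K` above the bottom of the window of `K'`: newborn cell, or far away -/
  F4R : ∀ d, Occ c K d → d.IsR → wb c K' < d.hi c → d.hi c ≤ K' →
    (∃ b v, d = .RTh b v ∧ wb c K' ≤ b ∧ v = b + nb c b) ∨
    (10 * CC c + 5) * (d.hi c - min d.lo (wb c K')) ≤ 10 * CC c * (K - K')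
  /-- zones are far below the top -/
  F5R : ∀ d, Occ c K d → d.IsR → (CC c + 1) * (d.hi c - d.lo) ≤ CC c * (K - d.hi c) ∧
    d.hi c + 2 * Hb c d.lo ≤ K
  F5P : ∀ d, Occ c K d → d.IsP → ∃ l, 1 ≤ l ∧ d.hi c - d.lo ≤ CC c ^ l ∧
    d.hi c + 5 * CC c ^ (l - 1) ≤ K ∧ (0 < d.lo → Hb c d.lo ≤ CC c ^ (l - 1)) ∧
    (d.lo = 0 → CC c ^ (l - 1) ≤ d.hi c)
  /-- cells have length at least `nb` -/
  F6 : ∀ d d', Occ c K d → Occ c K' d' → d.IsP → d'.IsR → d'.lo = d.lo →
    d'.lo + nb c d'.lo ≤ d'.hi c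
  /-- a `P` zone of `K` which contains `K'` -/
  F7 : ∀ d, Occ c K d → d.IsP → d.lo < K' → K' < d.hi c → 10 * (K' - wb c K') ≤ 9 * (K - K')
  /-- all zones are far below the top -/
  F8 : ∀ d, Occ c K d → d.hi c + 2 * gth c K ≤ K

end Pool.Agent.ETS
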