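import Mathlib
import Pool.Agent.ETS.Glue1
import Pool.Agent.Helper41.ETPR
import Pool.Agent.Helper86.ET.Q7

/-!
# E-T (MP_12a1af_nt), project T*: the far bounds (PP) and (RR) for the zones of the layouts
-/

open Finset

namespace Pool.Agent.ETS

open Pool.Agent.Helper29.ETK (Kid kid wb ep Wd av ab ag ak CC Hb wcomp gth lg)
open Pool.Agent.ETP (isPT phiV)
open Pool.Agent.Helper5.ETP
open Pool.Agent.Helper41.ETPP (IsPr PTok dl dw dT)

/-- code properties for far pairs: `g` the near threshold, `E` the largest epoch -/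
structure FarCodes (c e1 : ℕ) (C : Codes) (g E : ℕ) : Prop where
  reg : RegCodes c e1 C
  T : ∀ e, e1 ≤ e → (C.T e).card ^ 2 ≤ 2 ^ C.W e
  rr : ∀ e, e1 ≤ e → e ≤ E → ∃ B r, RC.RHyp C e B r ∧ 153738 * B ≤ 2 ^ (g / (4 * CC c))
  pp : ∀ p, ∃ cd : Pool.Agent.Helper83.ET.Code, (∀ l, C.X p l = cd.X l) ∧
    (∀ l x, C.P p l x = cd.P l x) ∧ ∃ B, 1 ≤ B ∧ 4 * B ≤ 2 ^ (g / 4) ∧
      ∀ a b, pidx c a = p → e1 ≤ ep c b → ep c b ≤ E → a ≤ b → Wd c b ∣ b → Wd c b ∣ a →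
        (a = 0 ∨ ep c a = ep c b) → PTok C cd B (ep c b) (b - a)

variable {C : Codes} {c t : ℕ}

lemma ep_mono {a b : ℕ} (h : a ≤ b) : ep c a ≤ ep c b := by
  unfold ep lg
  exact Nat.div_le_div_right (Nat.log_mono_right h)

lemma Wd_dvd {a b : ℕ} (h : a ≤ b) : Wd c a ∣ Wd c b := pow_dvd_pow _ (ep_mono h)

lemma isPr_desc {e1 g E : ℕ} (HF : FarCodes c e1 C g E) (hc : 1 ≤ c) (H : OneK c e1 t)
    (hE : ep c t ≤ E) {d : Desc} {r0 r1 : Reg} (hd : IsDesc c t d r0 r1) (hP : d.IsP)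
    {cd : Pool.Agent.Helper83.ET.Code} {B : ℕ}
    (hB : ∀ a b, pidx c a = pidx c d.lo → e1 ≤ ep c b → ep c b ≤ E → a ≤ b → Wd c b ∣ b →
      Wd c b ∣ a → (a = 0 ∨ ep c a = ep c b) → PTok C cd B (ep c b) (b - a)) :
    IsPr C cd B (pidx c d.lo) d.lo r1 ∧ ¬ isPT r0 ∧ r1.bot = d.lo ∧
    ∃ L, dl r1 = L - d.lo ∧ d.lo ≤ L ∧ (∀ s, s < L → Wd c s ∣ L) ∧
      ∀ p' e' f' b', r1 = Reg.PT p' e' f' b' → b' = L ∧ e' = ep c L ∧ Wd c L ∣ d.lo ∧
        Wd c L ∣ L := by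
  have hwt := H.K.wbt
  cases d with
  | P a e =>
    obtain ⟨rfl, h1, h2, h3, h4, h5⟩ := hd
    refine ⟨⟨rfl, rfl, h2.le⟩, h1, rfl, e, rfl, h2.le, ?_, ?_⟩
    · intro s hs
      have hcut : KCut c t e := by
        rcases h5 with h | h
        · exact Or.inr (Or.inl h)
        · refine Or.inr (Or.inr ?_)
          rw [h4 (e - 1) (by omega) (by omega)]
          exact fun h' => h h'.symm
      have h6 := (H.S.P a a (by omega) (h4 a le_rfl h2) e h2 h3 hcut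
        (fun s' h7 h8 => h4 s' h7 h8)).1
      exact (Wd_dvd (by omega)).trans h6
    · intro p' e' f' b' h
      cases h
  | PT a b =>
    obtain ⟨rfl, h1, h2, h3, h4, h5, -⟩ := hd
    obtain ⟨d1, d2, -, -, d5, d6⟩ := desc_PT H hc h2 (by omega) h5
    have hbt : ep c b ≤ E := (ep_mono (by omega)).trans hE
    refine ⟨⟨rfl, rfl, h2, hB a b rfl d5 hbt h2 d1 d2 d6⟩, h1, rfl, b, rfl, h2, ?_, ?_⟩
    · intro s hs
      exact (Wd_dvd hs.le).trans d1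
    · intro p' e' f' b' h
      injection h with q1 q2 q3 q4
      subst q1 q2 q3 q4
      exact ⟨rfl, rfl, d2, d1⟩
  | RS => exact hP.elim
  | R => exact hP.elim
  | RT => exact hP.elim
  | RTh => exact hP.elim

/-- **(PP)** -/
theorem far_PP {e1 E K K' : ℕ} (HN : FarNum c K K') (HF : FarCodes c e1 C (gth c K) E)
    (hc : 1 ≤ c) (H : OneK c e1 K) (H' : OneK c e1 K') (hE : ep c K ≤ E) {d d' : Desc}
    {r0 r1 r0' r1' : Reg} (hd : IsDesc c K d r0 r1) (hd' : IsDesc c K' d' r0' r1') (hP : d.IsP)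
    (hP' : d'.IsP) (hlo : d.lo = d'.lo) (hK' : d.hi c ≤ K') : FarOK C c K K' r0 r1 r0' r1' := by
  have hW : ∀ s, C.W (ep c s) = Wd c s := fun s => HF.reg.W _
  obtain ⟨cd, hX, hPc, B, hB1, hB4, hB⟩ := HF.pp (pidx c d.lo)
  obtain ⟨i1, n1, b1, L, l1, l2, l3, l4⟩ := isPr_desc HF hc H hE hd hP hB
  obtain ⟨i2, n2, b2, L', m1, m2, m3, m4⟩ := isPr_desc HF hc H'
    ((ep_mono (by have := HN.g; omega)).trans hE) hd' hP' (by rw [← hlo]; exact hB)
  rw [← hlo] at i2 m1 m2 m4 b2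
  have t1 := top_desc HF.reg hd
  have t2 := top_desc HF.reg hd'
  have w2 := (desc_le hd').2
  have w3 := H'.K.wbt
  have hKg := HN.g
  refine ⟨4 * B * 2 ^ ((r1.top C - r1'.top C + (r1'.top C - r1.top C) + 1) / 2), ?_, ?_⟩
  · intro n Z Z' h h'
    obtain ⟨a, κ, -, rfl⟩ := zoneOf_notPT n1 h
    obtain ⟨a', κ', -, rfl⟩ := zoneOf_notPT n2 h'
    refine Pool.Agent.Helper41.ETPP.PP hX hPc hB1 i1 i2 ?_ ?_ ?_ (by rw [t1]; omega)
      (by rw [t2]; omega) n a a' κ κ'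
    · intro p' e' f' b' hr hlt
      obtain ⟨q1, q2, q3, q4⟩ := l4 p' e' f' b' hr
      rw [l1, m1] at hlt
      rw [l1, m1, q2, hW]
      exact ⟨Nat.dvd_sub q4 q3, Nat.dvd_sub (m3 L (by omega)) q3⟩
    · intro p' e' f' b' hr hlt
      obtain ⟨q1, q2, q3, q4⟩ := m4 p' e' f' b' hr
      rw [l1, m1] at hlt
      rw [l1, m1, q2, hW]
      exact ⟨Nat.dvd_sub q4 q3, Nat.dvd_sub (l3 L' (by omega)) q3⟩
    · intro p₁ e₁ f₁ b₁ p₂ e₂ f₂ b₂ hr hr' heq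
      obtain ⟨q1, q2, -, -⟩ := l4 _ _ _ _ hr
      obtain ⟨q3, q4, -, -⟩ := m4 _ _ _ _ hr'
      rw [l1, m1] at heq
      have : L = L' := by omega
      rw [q2, q4, this]
  · have hC5 := HN.c5
    have h16 := HN.g16
    exact num_PP (by omega) hKg (by rw [t1]; exact hK') (by rw [t2]; omega) hB4 (by omega)

/-- kind of a description -/
def rkind : Desc → RC.RKind
  | .RS _ _ _ => .RS
  | .RT _ _ => .RT
  | .RTh _ _ => .RTh
  | _ => .R

lemma rzone_desc {e1 : ℕ} (HR : RegCodes c e1 C) (hc : 1 ≤ c) (H : OneK c e1 t)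
    {d : Desc} {r0 r1 : Reg} (hd : IsDesc c t d r0 r1) (hd2 : d.IsR) :
    e1 ≤ ep c d.lo ∧ (rkind d).lo (Wd c d.lo) d.lo = d.Im c ∧
      (rkind d).hi (Wd c d.lo) d.lo = d.Ip c ∧
    ∀ Z, ZoneOf C r0 r1 Z → ∃ a κ₀ κ, Z = (rkind d).zone C (ep c d.lo) (d.hi c) d.lo a κ₀ κ ∧
      RC.RPos (Wd c d.lo) (d.hi c) (rkind d) d.lo a := by
  cases d with
  | P g e => exact hd2.elim
  | PT g b => exact hd2.elim
  | RS g b v =>
    obtain ⟨rfl, rfl, h1, h2, h3, h4, h5, -⟩ := hd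
    obtain ⟨d1, d2, d3, -, d5, d6⟩ := desc_PT H hc h2 (by omega) h5
    have hW := Wd_pos c b
    refine ⟨d5, rfl, rfl, ?_⟩
    rintro Z ⟨a, κ, κ₂, ha, rfl⟩
    refine ⟨a, κ, κ₂, rfl, ?_⟩
    exact
      { ha := ha
        hb := by show b < v; omega
        hhi := h3
        hdvd := by rw [h1]; exact Nat.dvd_sub d3 d1 }
  | R b v =>
    obtain ⟨rfl, h1, h2, h3, h4, h5⟩ := hd
    have hkb := h4 b le_rfl h2
    have hcut : KCut c t b := by
      rcases h5 with h | h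
      · exact Or.inl h
      · exact Or.inr (Or.inr (by rw [hkb]; exact h))
    obtain ⟨q0, q1, q2⟩ := H.R v b (by omega) hkb hcut
    have h6 := H.S.low b q0 (by omega) hcut
    refine ⟨H.e1_le hc h6, rfl, rfl, ?_⟩
    intro Z hZ
    obtain ⟨a, κ, ha, rfl⟩ := zoneOf_notPT h1 hZ
    refine ⟨a, 0, κ, rfl, ?_⟩
    exact
      { ha := ha
        hb := h2
        hhi := h2.le
        hdvd := Nat.dvd_sub q2 q1 }
  | RT b v =>
    obtain ⟨rfl, h1, h2, h3, h4, h5⟩ := hd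
    obtain ⟨d1, d2, -, -, d5, d6⟩ := desc_RT H hc h2 h3 h4 h5
    refine ⟨d5, rfl, rfl, ?_⟩
    intro Z hZ
    obtain ⟨a, κ, ha, rfl⟩ := zoneOf_notPT h1 hZ
    refine ⟨a, 0, κ, rfl, ?_⟩
    exact
      { ha := ha
        hb := h2
        hhi := d6
        hdvd := Nat.dvd_sub d2 d1 }
  | RTh b v =>
    obtain ⟨rfl, h1, h2, h3, h4, h5⟩ := hd
    obtain ⟨d1, d2, -, -, d5, d6⟩ := desc_RTh H hc h2 h3 h4 h5
    refine ⟨d5, rfl, rfl, ?_⟩
    intro Z hZ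
    obtain ⟨a, κ, ha, rfl⟩ := zoneOf_notPT h1 hZ
    refine ⟨a, 0, κ, rfl, ?_⟩
    exact
      { ha := ha
        hb := h2
        hhi := d6
        hdvd := Nat.dvd_sub d2 d1 }

/-- **(RR)**: the same top -/
theorem far_RR {e1 E K K' : ℕ} (HN : FarNum c K K') (HF : FarCodes c e1 C (gth c K) E)
    (hc : 1 ≤ c) (H : OneK c e1 K) (H' : OneK c e1 K') (hE : ep c K ≤ E) {d d' : Desc}
    {r0 r1 r0' r1' : Reg} (hd : IsDesc c K d r0 r1) (hd' : IsDesc c K' d' r0' r1') (hR : d.IsR)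
    (hR' : d'.IsR) (hhi : d.hi c = d'.hi c) (he : ep c d.lo = ep c d'.lo)
    (hx : (10 * CC c + 9) * ddist c d d' ≤ 10 * CC c * (K - K')) :
    FarOK C c K K' r0 r1 r0' r1' := by
  have hW : ∀ s, C.W (ep c s) = Wd c s := fun s => HF.reg.W _
  obtain ⟨a1, a2, a3, a4⟩ := rzone_desc HF.reg hc H hd hR
  obtain ⟨b1, b2, b3, b4⟩ := rzone_desc HF.reg hc H' hd' hR'
  have t1 := top_desc HF.reg hd
  have t2 := top_desc HF.reg hd'
  have w2 := (desc_le hd').2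
  have w3 := H'.K.wbt
  have v1 := desc_le hd
  have hKg := HN.g
  have hWW : Wd c d'.lo = Wd c d.lo := by unfold Wd; rw [he]
  obtain ⟨B, r, hRH, hB⟩ := HF.rr (ep c d.lo) a1 ((ep_mono (by omega)).trans hE)
  have hdist : RC.rdist (Wd c d.lo) (rkind d) (rkind d') d.lo d'.lo = ddist c d d' := by
    unfold RC.rdist ddist
    rw [hWW] at b2 b3
    rw [a2, a3, b2, b3]
  refine ⟨153738 * B * 2 ^ (ddist c d d' / 2), ?_, ?_⟩
  · intro n Z Z' h h'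
    obtain ⟨a, κ₀, κ, rfl, hp⟩ := a4 Z h
    obtain ⟨a', κ₀', κ', rfl, hp'⟩ := b4 Z' h'
    rw [← he, ← hhi]
    rw [hWW, ← hhi] at hp'
    have := RC.RR hRH (rkind d) (rkind d') (v := d.hi c) (b := d.lo) (a := a) (b' := d'.lo)
      (a' := a') (by rw [hW]; exact hp) (by rw [hW]; exact hp') κ₀ κ κ₀' κ' (K := K) (K' := K') n
      (by omega) (by omega)
    rw [hW, hdist] at this
    exact this
  · rw [t1, t2, ← hhi]
    refine num_main HN.c5 hKg hB hx ?_ (phiV_eq_of_le (by omega) (by omega) (by omega))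
    rw [sub_self, abs_zero]
    have h1 : ((ddist c d d' / 2 : ℕ) : ℝ) ≤ (ddist c d d' : ℝ) / 2 := by
      exact_mod_cast natdiv_le (ddist c d d') 2
    linarith

end Pool.Agent.ETS
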