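import Mathlib
import Pool.Agent.ETS.Glue2
import Pool.Agent.Helper86.ET.CutR

/-!
# E-T (MP_12a1af_nt), project T*: the far pairs, all cases
-/

open Finset

namespace Pool.Agent.ETS

open Pool.Agent.Helper29.ETK (Kid kid wb ep Wd av ab ag ak CC Hb nb wcomp gth lg)
open Pool.Agent.ETP (isPT phiV)
open Pool.Agent.Helper5.ETP

variable {C : Codes} {c : ℕ}

/-- what occurs at the time `K'` -/
def Sec (c K' : ℕ) (r0' r1' : Reg) : Prop :=
  HasDesc c K' r0' r1' ∨ (r1' = winReg c K' ∧ ¬ isPT r0')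

/-- the cases which are proved elsewhere -/
structure FarCases (c : ℕ) (C : Codes) (K K' : ℕ) : Prop where
  /-- `P` zone at `K`, `R` zone above it at `K'` with a larger top -/
  X1 : ∀ d d' r0 r1 r0' r1', IsDesc c K d r0 r1 → IsDesc c K' d' r0' r1' → d.IsP → d'.IsR →
    d.lo ≤ d'.lo → d.hi c ≤ d'.hi c → FarOK C c K K' r0 r1 r0' r1'
  /-- `R` zone at `K`, `P` zone at `K'` -/
  X2 : ∀ d d' r0 r1 r0' r1', IsDesc c K d r0 r1 → IsDesc c K' d' r0' r1' → d.IsR → d'.IsP →
    d.hi c ≤ K' → d'.hi c ≤ d.hi c → FarOK C c K K' r0 r1 r0' r1'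
  /-- `P` zone at `K`, zone above its bottom and below its top at `K'` -/
  LOW : ∀ d d' r0 r1 r0' r1', IsDesc c K d r0 r1 → IsDesc c K' d' r0' r1' → d.IsP →
    d.hi c ≤ K' → d.lo ≤ d'.lo → (d'.IsP → d.lo < d'.lo) → d'.hi c < d.hi c →
    FarOK C c K K' r0 r1 r0' r1'
  CUTP : ∀ d r0 r1 r0' r1', IsDesc c K d r0 r1 → Sec c K' r0' r1' → d.IsP → d.lo < K' →
    K' < d.hi c → FarOK C c K K' r0 r1 r0' r1'
  ABOVE : ∀ d r0 r1 r0' r1', IsDesc c K d r0 r1 → Sec c K' r0' r1' → d.IsP → K' ≤ d.lo →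
    FarOK C c K K' r0 r1 r0' r1'
  /-- the window of `K'` and a newborn cell at `K` -/
  WIN : ∀ b v r0 r1 r0', IsDesc c K (.RTh b v) r0 r1 → ¬ isPT r0' → wb c K' ≤ b →
    v = b + nb c b → v ≤ K' → FarOK C c K K' r0 r1 r0' (winReg c K')

/-- **All far pairs.** -/
theorem far_tree {e1 E K K' : ℕ} (HN : FarNum c K K') (HF : FarCodes c e1 C (gth c K) E)
    (hc : 1 ≤ c) (H : OneK c e1 K) (H' : OneK c e1 K') (hE : ep c K ≤ E) (hk : FarKin c K K')
    (hw' : (winReg c K').Good C) (hX : FarCases c C K K') {r0 r1 r0' r1' : Reg}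
    (h : HasDesc c K r0 r1) (h' : Sec c K' r0' r1') : FarOK C c K K' r0 r1 r0' r1' := by
  obtain ⟨d, hd⟩ := h
  have hoc : Occ c K d := ⟨r0, r1, hd⟩
  have t1 := top_desc HF.reg hd
  have z1 : ∀ Z, ZoneOf C r0 r1 Z → ZFacts Z d.lo (d.hi c) := fun Z hZ =>
    zfacts_desc HF.reg HF.T hc H hd hZ
  have l1 := desc_le hd
  have hKg := HN.g
  have hwK := H.K.wbt
  have hwK' := H'.K.wbt
  have hRP : d.IsR ∨ d.IsP := by cases d <;> simp [Desc.IsR, Desc.IsP]
  rcases hRP with hR | hP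
  · -- `R` type
    rcases lt_or_ge K' (d.hi c) with hcut | hcut
    · -- cut
      obtain ⟨a1, a2, a3, a4⟩ := rzone_desc HF.reg hc H hd hR
      obtain ⟨B, r, hRH, -⟩ := HF.rr (ep c d.lo) a1 ((ep_mono (by omega)).trans hE)
      have hlen : d.Ip c ≤ d.hi c := by
        have e1 : ∃ Z, ZoneOf C r0 r1 Z := by
          cases r0 with
          | PT p e f b => exact ⟨_, 0, 0, 0, Nat.two_pow_pos _, rfl⟩
          | P => exact ⟨_, 0, 0, Nat.two_pow_pos _, rfl⟩
          | R => exact ⟨_, 0, 0, Nat.two_pow_pos _, rfl⟩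
          | RT => exact ⟨_, 0, 0, Nat.two_pow_pos _, rfl⟩
          | RTh => exact ⟨_, 0, 0, Nat.two_pow_pos _, rfl⟩
          | win => exact ⟨_, 0, 0, Nat.two_pow_pos _, rfl⟩
          | winC => exact ⟨_, 0, 0, Nat.two_pow_pos _, rfl⟩
        obtain ⟨Z, hZ⟩ := e1
        obtain ⟨a, κ₀, κ, -, hp⟩ := a4 Z hZ
        rw [← a3]
        exact hp.hhi
      rcases h' with ⟨d', hd'⟩ | ⟨rfl, hn⟩
      · have t2 := top_desc HF.reg hd'
        have l2 := desc_le hd'
        exact RC.cutR hk hRH.toRBase (HF.reg.W _) hd hR hlen (by omega) hcut.le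
          (by rw [t2]; omega) (fun Z' hZ' => (zfacts_desc HF.reg HF.T hc H' hd' hZ').ok)
      · exact RC.cutR hk hRH.toRBase (HF.reg.W _) hd hR hlen (by omega) hcut.le
          (by rw [winReg_top]) (fun Z' hZ' => (zfacts_win hn hw' hwK' hZ').ok)
    rcases h' with ⟨d', hd'⟩ | ⟨rfl, hn⟩
    · have hoc' : Occ c K' d' := ⟨r0', r1', hd'⟩
      have t2 := top_desc HF.reg hd'
      have l2 := desc_le hd'
      have z2 : ∀ Z, ZoneOf C r0' r1' Z → ZFacts Z d'.lo (d'.hi c) := fun Z hZ =>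
        zfacts_desc HF.reg HF.T hc H' hd' hZ
      have hRP' : d'.IsR ∨ d'.IsP := by cases d' <;> simp [Desc.IsR, Desc.IsP]
      rcases lt_trichotomy (d'.hi c) (d.hi c) with hlt | heq | hgt
      · rcases hRP' with hR' | hP'
        · have h2 := hk.F2R d d' hoc hoc' hR hR' hlt
          refine triv_left HN (x := d'.hi c - d.lo) t1 t2 z1 z2 hlt.le hcut l1.1.le (by omega) ?_
          refine le_trans (Nat.mul_le_mul_right _ (by omega)) h2
        · exact hX.X2 d d' r0 r1 r0' r1' hd hd' hR hP' hcut hlt.le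
      · rcases hRP' with hR' | hP'
        · obtain ⟨h3, h4⟩ := hk.F3 d d' hoc hoc' hR hR' heq.symm
          exact far_RR HN HF hc H H' hE hd hd' hR hR' heq.symm h3 h4
        · exact hX.X2 d d' r0 r1 r0' r1' hd hd' hR hP' hcut heq.le
      · rcases hk.lamR d d' hoc hoc' hR (by omega) with h5 | h5
        · omega
        · refine triv_right HN (x := 0) t1 t2 z1 z2 hgt.le (by omega) l2.1.le (by omega) ?_
          omega
    · -- window at `K'`
      have z2 : ∀ Z, ZoneOf C r0' (winReg c K') Z → ZFacts Z (wb c K') K' := fun Z hZ =>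
        zfacts_win hn hw' hwK' hZ
      rcases Nat.lt_or_ge (wb c K') (d.hi c) with hwlt | hwge
      · rcases hk.F4R d hoc hR hwlt hcut with ⟨b, v, rfl, h5, h6⟩ | h5
        · exact hX.WIN b v r0 r1 r0' hd hn h5 h6 hcut
        · refine triv_right HN (x := d.hi c - wb c K') t1 winReg_top z1 z2 hcut le_rfl hwK'
            (by omega) ?_
          refine le_trans (Nat.mul_le_mul_left _ ?_) h5
          have := min_le_right d.lo (wb c K')
          omega
      · exact triv_right HN (x := 0) t1 winReg_top z1 z2 hcut le_rfl hwK' (by omega) (by omega)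
  · -- `P` type
    rcases lt_or_ge K' (d.hi c) with hcut | hcut
    · rcases lt_or_ge d.lo K' with hlo | hlo
      · exact hX.CUTP d r0 r1 r0' r1' hd h' hP hlo hcut
      · exact hX.ABOVE d r0 r1 r0' r1' hd h' hP hlo
    rcases h' with ⟨d', hd'⟩ | ⟨rfl, hn⟩
    · have hoc' : Occ c K' d' := ⟨r0', r1', hd'⟩
      have t2 := top_desc HF.reg hd'
      have l2 := desc_le hd'
      have z2 : ∀ Z, ZoneOf C r0' r1' Z → ZFacts Z d'.lo (d'.hi c) := fun Z hZ =>
        zfacts_desc HF.reg HF.T hc H' hd' hZ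
      have hRP' : d'.IsR ∨ d'.IsP := by cases d' <;> simp [Desc.IsR, Desc.IsP]
      have hlam : d'.hi c ≤ d.lo ∨ d.lo ≤ d'.lo := by
        rcases Nat.lt_or_ge (wb c K') d.lo with h5 | h5
        · left; omega
        · exact hk.lamP d d' hoc hoc' hP h5
      rcases hlam with h5 | h5
      · exact triv_left HN (x := 0) t1 t2 z1 z2 (by omega) hcut l1.1.le (by omega) (by omega)
      · rcases hRP' with hR' | hP'
        · rcases Nat.lt_or_ge (d'.hi c) (d.hi c) with h6 | h6
          · refine hX.LOW d d' r0 r1 r0' r1' hd hd' hP hcut h5 ?_ h6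
            intro hP'
            cases d' <;> simp [Desc.IsR, Desc.IsP] at hR' hP'
          · exact hX.X1 d d' r0 r1 r0' r1' hd hd' hP hR' h5 h6
        · rcases Nat.eq_or_lt_of_le h5 with h6 | h6
          · exact far_PP HN HF hc H H' hE hd hd' hP hP' h6 hcut
          · rcases Nat.lt_or_ge (d'.hi c) (d.hi c) with h7 | h7
            · exact hX.LOW d d' r0 r1 r0' r1' hd hd' hP hcut h5 (fun _ => h6) h7
            · have h8 := hk.F1P d d' hoc hoc' hP hP' h6
              refine triv_right HN (x := d.hi c - d'.lo) t1 t2 z1 z2 h7 (by omega) l2.1.le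
                (by omega) ?_
              exact le_trans (Nat.mul_le_mul_right _ (by omega)) h8
    · have z2 : ∀ Z, ZoneOf C r0' (winReg c K') Z → ZFacts Z (wb c K') K' := fun Z hZ =>
        zfacts_win hn hw' hwK' hZ
      have h5 := hk.F4P d hoc hP hcut
      exact triv_right HN (x := d.hi c - wb c K') t1 winReg_top z1 z2 hcut le_rfl hwK'
        (by omega) h5

end Pool.Agent.ETS
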