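import Mathlib
import Pool.Agent.ETS.Glue3
import Pool.Agent.ETS.FarMk
import Pool.Agent.Helper3.ETF.Final2

/-!
# E-T (MP_12a1af_nt), project T*: the far pairs, final form
-/

open Finset

namespace Pool.Agent.ETS

open Pool.Agent.Helper29.ETK (Kid kid wb ep Wd av ab ag ak CC Hb wcomp gth lg epo Gq kk)
open Pool.Agent.ETP Pool.Agent.Helper83.ET

variable {a b c K1 : ℕ} {TK : ℕ → Finset ℕ}

lemma epo_mono {s t : ℕ} (h : s ≤ t) : epo c s ≤ epo c t := by
  unfold epo lg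
  exact Nat.div_le_div_right (Nat.sub_le_sub_right (Nat.log_mono_right h) 1)

lemma epo_pow {n : ℕ} (hc : 1 ≤ c) : epo c (CC c ^ n) = (n - 1) / 3 := by
  unfold epo lg
  rw [Nat.log_pow]
  unfold CC
  calc 1 < 2 := by norm_num
    _ = 2 ^ 1 := rfl
    _ ≤ 2 ^ c := Nat.pow_le_pow_right (by norm_num) hc

/-- **All far pairs of the layouts.** -/
theorem farGood_of (hc : 20 ≤ c) (hK1 : CC c ^ 64 ≤ K1) (HS : SchedGood a c K1)
    (hR : ∀ t, K1 ≤ t → ∀ v, ∀ s < wb c t, kid c t s = .R v → KCut c t s →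
      0 < s ∧ Wd c s ∣ s ∧ Wd c s ∣ v)
    (hkin : ∀ K K', K1 ≤ K' → K' + gth c K ≤ K → FarKin c K K')
    (hW : WinGood b c K1 (mk (CC c) TK))
    (hX : ∀ K K', K1 ≤ K' → K' + gth c K ≤ K → FarCases c (mk (CC c) TK) K K') :
    FarGood c K1 (mk (CC c) TK) := by
  intro K K' h1 h2 j j' r0 r1 r0' r1' hj h0 hr1 h0' hr1'
  have hK : K1 ≤ K := by omega
  have hone : ∀ t, K1 ≤ t → OneK c 20 t := fun t ht =>
    { K := HS.ok t ht
      S := HS.size t ht
      R := hR t ht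
      t := hK1.trans ht }
  have hepo : 20 ≤ epo c K := by
    have := epo_mono (c := c) (hK1.trans hK)
    rw [epo_pow (by omega)] at this
    omega
  have hA : HasDesc c K r0 r1 := by
    rcases layL_cases (HS.ok K hK) h0 hr1 with h | ⟨-, h, -⟩
    · exact h
    · omega
  have hB : Sec c K' r0' r1' := by
    rcases layL_cases (HS.ok K' h1) h0' hr1' with h | ⟨h, -, h3⟩
    · exact Or.inl h
    · exact Or.inr ⟨h, h3⟩
  exact far_tree (farNum_mk hc hepo h2) (farCodes_mk hc hepo) (by omega) (hone K hK) (hone K' h1)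
    le_rfl (hkin K K' h1 h2) (hW.good K' h1) (hX K K' h1 h2) hA hB

end Pool.Agent.ETS
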