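import Mathlib
import Pool.Agent.ETS.FarEnd
import Pool.Agent.Helper16.ETX.X1b
import Pool.Agent.Helper83.ET.X2F
import Pool.Agent.Helper83.ET.WinFar3
import Pool.Agent.Helper84.ET.TK8
import Pool.Agent.Helper99.ETK.FarKin
import Pool.Agent.Helper32.ETT.Size2
import Pool.Agent.Helper3.ETF.Final3

/-!
# E-T (MP_12a1af_nt), project T*: the final assembly
-/

open Finset

namespace Pool.Agent.ETS

open Pool.Agent.Helper29.ETK (Kid kid wb ep Wd av ab ag ak CC Hb nb wcomp gth lg epo Gq kk)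
open Pool.Agent.ETP Pool.Agent.Helper83.ET

variable {c : ℕ}

/-- the hypotheses of the last three cases -/
structure CaseHyp (c K K' : ℕ) : Prop where
  c20 : 20 ≤ c
  K1 : CC c ^ 64 ≤ K'
  g : K' + gth c K ≤ K
  O : OneK c 20 K
  O' : OneK c 20 K'
  F : FarKin c K K'

/-- **final assembly from the last three cases** -/
theorem final_of_cases
    (hLOW : ∀ (c K K' : ℕ) (TK : ℕ → Finset ℕ), CaseHyp c K K' →
      ∀ d d' r0 r1 r0' r1', IsDesc c K d r0 r1 → IsDesc c K' d' r0' r1' → d.IsP →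
      d.hi c ≤ K' → d.lo ≤ d'.lo → (d'.IsP → d.lo < d'.lo) → d'.hi c < d.hi c →
      FarOK (mk (CC c) TK) c K K' r0 r1 r0' r1')
    (hCUT : ∀ (c K K' : ℕ) (TK : ℕ → Finset ℕ), CaseHyp c K K' →
      (winReg c K').Good (mk (CC c) TK) →
      ∀ d r0 r1 r0' r1', IsDesc c K d r0 r1 → Sec c K' r0' r1' → d.IsP → d.lo < K' →
      K' < d.hi c → FarOK (mk (CC c) TK) c K K' r0 r1 r0' r1')
    (hABO : ∀ (c K K' : ℕ) (TK : ℕ → Finset ℕ), CaseHyp c K K' →
      (winReg c K').Good (mk (CC c) TK) →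
      ∀ d r0 r1 r0' r1', IsDesc c K d r0 r1 → Sec c K' r0' r1' → d.IsP → K' ≤ d.lo →
      FarOK (mk (CC c) TK) c K K' r0 r1 r0' r1') : FinalStmt := by
  refine finalStmt_of (c0 := 20) fun c hc => ?_
  obtain ⟨K0, HS0⟩ := schedGood hc
  obtain ⟨b, TK, hTK⟩ := TKS.exists_win hc
  have hCp := CC_pos c
  set K1 := K0 + CC c ^ 64 with hK1
  have h64 : CC c ^ 64 ≤ K1 := by omega
  have HS : SchedGood 24 c K1 := HS0.mono (by omega)
  obtain ⟨hG, hW⟩ := hTK K1 h64
  have hepo : ∀ t, K1 ≤ t → 20 ≤ epo c t := by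
    intro t ht
    have h1 := epo_mono (c := c) (h64.trans ht)
    rw [epo_pow (by omega)] at h1
    omega
  have hR : ∀ t, K1 ≤ t → ∀ v, ∀ s < wb c t, kid c t s = .R v → KCut c t s →
      0 < s ∧ Wd c s ∣ s ∧ Wd c s ∣ v := fun t ht =>
    Pool.Agent.Helper29.ETK.kid_R_sizes (by omega) (by have := hepo t ht; omega)
  have hkin : ∀ K K', K1 ≤ K' → K' + gth c K ≤ K → FarKin c K K' := fun K K' h1 h2 =>
    Pool.Agent.Helper99.ETK.farKin (by omega) (by have := hepo K' h1; omega) (by omega)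
  have hone : ∀ t, K1 ≤ t → OneK c 20 t := fun t ht =>
    { K := HS.ok t ht
      S := HS.size t ht
      R := hR t ht
      t := h64.trans ht }
  have hX : ∀ K K', K1 ≤ K' → K' + gth c K ≤ K → FarCases c (mk (CC c) TK) K K' := by
    intro K K' h1 h2
    have hK : K1 ≤ K := by omega
    have hyp : CaseHyp c K K' := ⟨hc, h64.trans h1, h2, hone K hK, hone K' h1, hkin K K' h1 h2⟩
    exact
      { X1 := Pool.Agent.Helper16.ETX.far_X1 hc h2 (h64.trans h1) (HS.size K hK) (HS.size K' h1)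
          (hkin K K' h1 h2)
        X2 := X2_mk hc (h64.trans h1) h2 (HS.size K hK) (HS.size K' h1) (HS.ok K hK).wbt
          (hkin K K' h1 h2)
        LOW := hLOW c K K' TK hyp
        CUTP := hCUT c K K' TK hyp (hW.good K' h1)
        ABOVE := hABO c K K' TK hyp (hW.good K' h1)
        WIN := WIN_mk hc hG h1 (h64.trans h1) h2 (HS.size K hK) (HS.ok K hK).wbt (by
          show 8 * (6 * Hb c K') ≤ _
          rw [Pool.Agent.Helper82.ETN.Hb_eq]
          have h48 : 48 ≤ CC c := le_trans (by norm_num) (Pool.Agent.ETP.CC_ge hc)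
          have e1 : Wd c K' = CC c ^ ep c K' := rfl
          rw [e1]
          calc 8 * (6 * (CC c ^ 8 * CC c ^ ep c K')) = 48 * (CC c ^ 8 * CC c ^ ep c K') := by ring
            _ ≤ CC c ^ 2 * (CC c ^ 8 * CC c ^ ep c K') := by
              apply Nat.mul_le_mul_right
              exact h48.trans (Nat.le_self_pow (by norm_num) _)
            _ = CC c ^ 10 * CC c ^ ep c K' := by ring) }
  have hF : FarGood c K1 (mk (CC c) TK) := farGood_of hc h64 HS hR hkin hW hX
  have hD := Pool.Agent.Helper32.ETT.sizeGood (TK := TK) hc h64 HS (fun K hK => by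
    have := hG.card K hK
    rw [this]
    exact le_rfl)
  refine ⟨b + 3 * (6 * CC c ^ 13 + 30), K1, TK, ?_, hF,
    Pool.Agent.Helper32.ETT.SizeGood.mono_left hD (by omega)⟩
  exact
    { good := hW.good
      near := fun K K' h1 h2 h3 => WP.mono (hW.near K K' h1 h2 h3) (bwF_mono (by omega))
      far := fun K K' h1 h2 h3 => WP.mono (hW.far K K' h1 h2 h3) (bwF_mono (by omega)) }

end Pool.Agent.ETS
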