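import Mathlib
import Pool.Agent.ETS.FinalA
import Pool.Agent.Helper5.ETP.Low

/-!
# E-T (MP_12a1af_nt), project T*: a `P` zone of `K` above `K'`
-/

open Finset

namespace Pool.Agent.ETS

open Pool.Agent.Helper29.ETK (Kid kid wb ep Wd av ab ag ak CC Hb nb wcomp gth lg epo Gq kk)
open Pool.Agent.ETP Pool.Agent.Helper83.ET

theorem hABO (c K K' : ℕ) (TK : ℕ → Finset ℕ) (hyp : CaseHyp c K K')
    (hw : (winReg c K').Good (mk (CC c) TK)) (d : Desc) (r0 r1 r0' r1' : Reg)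
    (hd : IsDesc c K d r0 r1) (h' : Sec c K' r0' r1') (_hP : d.IsP) (hlo : K' ≤ d.lo) :
    FarOK (mk (CC c) TK) c K K' r0 r1 r0' r1' := by
  have hc : 1 ≤ c := by have := hyp.c20; omega
  have hR := regCodes_mk (TK := TK) hyp.c20
  have hT : ∀ e, 20 ≤ e → ((mk (CC c) TK).T e).card ^ 2 ≤ 2 ^ (mk (CC c) TK).W e := by
    intro e he
    show (locT (CC c) e).card ^ 2 ≤ 2 ^ (CC c ^ e)
    rw [(locGood (Pool.Agent.ETP.CC_ge hyp.c20) (two_dvd_CC hyp.c20) he).T_card, ← pow_mul]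
    exact Nat.pow_le_pow_right (by norm_num) (by omega)
  have t1 := top_desc hR hd
  have l1 := desc_le hd
  have hwK := hyp.O.K.wbt
  have hwK' := hyp.O'.K.wbt
  have f8 := hyp.F.F8 d ⟨r0, r1, hd⟩
  have z1 : ∀ Z, ZoneOf (mk (CC c) TK) r0 r1 Z → ZFacts Z d.lo (d.hi c) := fun Z hZ =>
    zfacts_desc hR hT hc hyp.O hd hZ
  have hsec : r1'.top (mk (CC c) TK) ≤ K' ∧ ∀ Z, ZoneOf (mk (CC c) TK) r0' r1' Z →
      Pool.Agent.Helper5.ETP.Zone.Ok Z ∧ Z.top = r1'.top (mk (CC c) TK) := by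
    rcases h' with ⟨d', hd'⟩ | ⟨rfl, hn⟩
    · have t2 := top_desc hR hd'
      have l2 := desc_le hd'
      refine ⟨by rw [t2]; omega, fun Z hZ => ?_⟩
      have f := zfacts_desc hR hT hc hyp.O' hd' hZ
      exact ⟨f.ok, by rw [f.top, t2]⟩
    · refine ⟨le_of_eq winReg_top, fun Z hZ => ?_⟩
      have f := zfacts_win hn hw hwK' hZ
      exact ⟨f.ok, by rw [f.top, winReg_top]⟩
  refine ⟨2, ?_, ?_⟩
  · intro n Z Z' h h''
    have f := z1 Z h
    obtain ⟨f1, f2⟩ := hsec.2 Z' h''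
    obtain ⟨r, hr⟩ := f.low
    exact Pool.Agent.Helper5.ETP.above f.ok f1 hr (by rw [f.top]; exact f.le)
      (by rw [f.top]; omega) (by rw [f2]; exact hsec.1) hlo
  · rw [t1]
    refine fin_le (x := 1) (by norm_num) (phiV_eq_of_cut (by omega) (by omega) hsec.1) ?_
    have h1 : ((gth c K / (8 * CC c) : ℕ) : ℝ) ≤ (gth c K : ℝ) / 8 := by
      have h2 : gth c K / (8 * CC c) ≤ gth c K / 8 :=
        Nat.div_le_div_left (by have := CC_pos c; omega) (by norm_num)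
      calc ((gth c K / (8 * CC c) : ℕ) : ℝ) ≤ ((gth c K / 8 : ℕ) : ℝ) := by exact_mod_cast h2
        _ ≤ (gth c K : ℝ) / 8 := by exact_mod_cast natdiv_le (gth c K) 8
    have h3 : ((d.hi c : ℕ) : ℝ) + 2 * gth c K ≤ K := by exact_mod_cast f8
    have h4 : ((r1'.top (mk (CC c) TK) : ℕ) : ℝ) ≤ K' := by exact_mod_cast hsec.1
    have hepo : 20 ≤ epo c K := by
      have h5 := epo_mono (c := c) (hyp.K1.trans (by have := hyp.g; omega : K' ≤ K))
      rw [epo_pow hc] at h5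
      omega
    have h5 : (16 : ℝ) ≤ gth c K := by
      have h6 := (farNum_mk hyp.c20 hepo hyp.g).g16
      have h7 := CC_pos c
      have : 16 ≤ gth c K := by omega
      exact_mod_cast this
    linarith

end Pool.Agent.ETS
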