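import Mathlib
import Pool.Agent.Helper3.WAR.Main
import Pool.Agent.Helper3.ETF.Final

/-!
# E-T (MP_12a1af_nt): the two constructions of thick sets in one statement
-/

open Filter

namespace Pool.Agent.ETS

/-- the trade-off between the representation function and the loss -/
theorem curve_of (h : Pool.Agent.ETP.FinalStmt) (ρ : ℝ) (h0 : 0 ≤ ρ) (h1 : ρ ≤ 2 / 3) (ε : ℝ)
    (hε : 0 < ε) : ∃ (A : Set ℕ) (B : ℝ),
    (∀ᶠ n : ℕ in atTop,
      ({q : ℕ × ℕ | q.1 ∈ A ∧ q.2 ∈ A ∧ q.1 + q.2 = n}.ncard : ℝ) ≤ Real.log n ^ (ρ + ε)) ∧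
    ∀ᶠ x : ℕ in atTop, √(x : ℝ) * Real.exp (-(if ρ < 2 / 3 then Real.log x ^ ((1 - ρ) / 2 + ε)
      else B * Real.log (Real.log x) ^ 3)) ≤ ((A ∩ Set.Iio x).ncard : ℝ) := by
  by_cases hρ : ρ < 2 / 3
  · obtain ⟨A, hA⟩ := Pool.Agent.Helper3.WAR.main (α := (1 - ρ) / 2) (by linarith) (by linarith)
    obtain ⟨h2, h3⟩ := hA ε hε
    refine ⟨A, 0, ?_, ?_⟩
    · have e1 : 1 - 2 * ((1 - ρ) / 2) + ε = ρ + ε := by ring
      rw [e1] at h2
      exact h2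
    · simp only [if_pos hρ]
      exact h3
  · have hρ' : ρ = 2 / 3 := le_antisymm h1 (not_lt.mp hρ)
    subst hρ'
    obtain ⟨A, B, -, h2, h3⟩ := h ε hε
    refine ⟨A, B, h2, ?_⟩
    simp only [lt_irrefl, if_false]
    exact h3

end Pool.Agent.ETS
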