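import Mathlib
import Pool.Agent.ETS.Above
import Pool.Agent.Helper3.ETF.LowFin
import Pool.Agent.Helper5.ETP.CutMk

/-!
# E-T (MP_12a1af_nt), project T*: the final statement
-/

namespace Pool.Agent.ETS

open Pool.Agent.ETP

/-- **project T*** -/
theorem finalStmt : FinalStmt :=
  final_of_cases hLOW (fun _ _ _ _ hyp hw => Pool.Agent.Helper5.ETP.CUTP_mk hyp hw) hABO

end Pool.Agent.ETS
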