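import Mathlib
import Pool.Agent.ETS.Far4

/-!
# E-T (MP_12a1af_nt), project T*: the far lemma, factorial moments of the solutions
-/

open Finset

namespace Pool.Agent.ETS

section

variable {M N Kmax : ℕ} (lay : ℕ → Lay N)

/-- candidates with `K' + g ≤ K` -/
abbrev CandG (M N Kmax : ℕ) (K : Fin (Kmax+1)) (g : ℕ) := {w : Cand M N Kmax // w.1.val + g ≤ K.val}

open Classical in
/-- expected number of new solutions -/
lemma far_new (hG : GoodLay M lay Kmax) (hM : 3 ≤ M)
    (hV : ∀ L ≤ Kmax, ∀ i < M, ((lay L).V i).card ^ 2 ≤ 2 ^ (lay L).len i)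
    (hV0 : ∀ L ≤ Kmax, ((lay L).V 0).card ≤ 1)
    (K : Fin (Kmax+1)) {g : ℕ} (hg : 1 ≤ g) (n : ℕ) (ε : ℝ) (hε0 : 0 ≤ ε) (Nb : ℕ → ℕ → ℕ → ℕ)
    (hN : ∀ K', K' + g ≤ K.val → ∀ i i', 1 ≤ i → 1 ≤ i' → i + 1 < M → i' < M →
      ∀ a κ₁ κ₂ a' κ₁' κ₂' co co', a < 2 ^ (lay K).bot (i-1) → a' < 2 ^ (lay K').bot (i'-1) →
      (ConsSet lay K K' i i' n a κ₁ κ₂ a' κ₁' κ₂' co co').card ≤ Nb K' i i')
    (hε : ∀ K', K' + g ≤ K.val → ∀ i i', 1 ≤ i → 1 ≤ i' → i + 1 < M → i' < M →
      (Nb K' i i' : ℝ) * phi lay K K' i i' ≤ ε)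
    (T : Finset (CandG M N Kmax K g)) (x : ∀ q : Ind M N Kmax, Xsp lay q) :
    ∑ y ∈ fib (U0 ∪ T.biUnion (fun w => Sidx lay K w.1)) x,
      (nnew (fun (w : CandG M N Kmax K g) y => IsSol lay K g n w.1 y)
        (fun w' w => Rdiff lay K w'.1 w.1) T y : ℝ) ≤
      ((K.val + 1) * ((M : ℝ) * M * (2 * T.card + 1) ^ 2 * ε)) *
        (fib (U0 ∪ T.biUnion (fun w => Sidx lay K w.1)) x).card := by
  set T1 : Finset (Cand M N Kmax) := T.image Subtype.val with hT1
  have hT1c : T1.card ≤ T.card := card_image_le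
  have hU : (U0 ∪ T.biUnion (fun w => Sidx lay K w.1)) = Uof lay K T1 := by
    unfold Uof
    congr 1
    ext q
    simp [hT1]
  rw [hU]
  have hT1K : ∀ w ∈ T1, w.1 ≠ K := by
    intro w hw
    rw [hT1, mem_image] at hw
    obtain ⟨w', _, rfl⟩ := hw
    intro h
    have := w'.2
    rw [h] at this
    omega
  -- swap
  have h1 : ∑ y ∈ fib (Uof lay K T1) x,
      (nnew (fun (w : CandG M N Kmax K g) y => IsSol lay K g n w.1 y)
        (fun w' w => Rdiff lay K w'.1 w.1) T y : ℝ) =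
      ∑ w : CandG M N Kmax K g, (((fib (Uof lay K T1) x).filter
        (fun y => IsSol lay K g n w.1 y ∧ ∀ w' ∈ T, Rdiff lay K w'.1 w.1)).card : ℝ) := by
    unfold nnew
    simp only [Finset.card_filter]
    push_cast
    rw [Finset.sum_comm]
  rw [h1]
  let F : Fin (Kmax+1) → (Fin M → Fin N) × (Fin M → Fin N) → ℝ := fun K' zz =>
      (if (∀ m : Fin M, zz.1 m ∈ (lay K).V m) ∧ (∀ m : Fin M, zz.2 m ∈ (lay K').V m) ∧
          (∀ w' ∈ T1, Rdiff lay K w' (K', zz.1, zz.2)) then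
        (((fib (Uof lay K T1) x).filter
          (fun y => elt lay K y zz.1 + elt lay K' y zz.2 = n)).card : ℝ)
        else 0)
  have hF0 : ∀ K' zz, 0 ≤ F K' zz := by
    intro K' zz
    simp only [F]
    split_ifs <;> positivity
  have h2 : ∑ w : CandG M N Kmax K g, (((fib (Uof lay K T1) x).filter
        (fun y => IsSol lay K g n w.1 y ∧ ∀ w' ∈ T, Rdiff lay K w'.1 w.1)).card : ℝ) ≤
      ∑ w : CandG M N Kmax K g, F w.1.1 w.1.2 := by
    refine Finset.sum_le_sum (fun w _ => ?_)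
    by_cases hc : (∀ m : Fin M, w.1.2.1 m ∈ (lay K).V m) ∧
        (∀ m : Fin M, w.1.2.2 m ∈ (lay w.1.1).V m) ∧
          (∀ w' ∈ T1, Rdiff lay K w' (w.1.1, w.1.2.1, w.1.2.2))
    · simp only [F]
      rw [if_pos hc]
      have : ((fib (Uof lay K T1) x).filter
        (fun y => IsSol lay K g n w.1 y ∧ ∀ w' ∈ T, Rdiff lay K w'.1 w.1)).card ≤
        ((fib (Uof lay K T1) x).filter
          (fun y => elt lay K y w.1.2.1 + elt lay w.1.1 y w.1.2.2 = n)).card := by
        refine card_le_card (fun y hy => ?_)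
        rw [mem_filter] at hy ⊢
        exact ⟨hy.1, hy.2.1.2.2.2⟩
      exact_mod_cast this
    · have : ((fib (Uof lay K T1) x).filter
        (fun y => IsSol lay K g n w.1 y ∧ ∀ w' ∈ T, Rdiff lay K w'.1 w.1)) = ∅ := by
        rw [Finset.filter_eq_empty_iff]
        intro y _ hy
        apply hc
        refine ⟨hy.1.2.1, hy.1.2.2.1, fun w' hw' => ?_⟩
        rw [hT1, mem_image] at hw'
        obtain ⟨w'', hw'', rfl⟩ := hw'
        exact hy.2 w'' hw''
      rw [this]
      simp only [card_empty, Nat.cast_zero]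
      exact hF0 _ _
  have h3 : ∑ w : CandG M N Kmax K g, F w.1.1 w.1.2 =
      ∑ K' : Fin (Kmax+1), if K'.val + g ≤ K.val then ∑ zz, F K' zz else 0 := by
    have e1 : ∑ w : CandG M N Kmax K g, F w.1.1 w.1.2 =
        ∑ w : Cand M N Kmax, if w.1.val + g ≤ K.val then F w.1 w.2 else 0 := by
      rw [← Finset.sum_filter]
      refine (Finset.sum_subtype (univ.filter (fun w : Cand M N Kmax => w.1.val + g ≤ K.val))
        (fun w => ?_) (fun w => F w.1 w.2)).symm
      simp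
    rw [e1, Fintype.sum_prod_type]
    refine Finset.sum_congr rfl (fun K' _ => ?_)
    split_ifs
    · rfl
    · simp
  have h4 : ∀ K' : Fin (Kmax+1), (if K'.val + g ≤ K.val then ∑ zz, F K' zz else 0) ≤
      (M : ℝ) * M * (2 * T.card + 1) ^ 2 * ε * (fib (Uof lay K T1) x).card := by
    intro K'
    split_ifs with hK'
    · have hlt : K' < K := by
        rw [Fin.lt_def]; omega
      have := far_scale lay hG hM hV hV0 hlt n ε (Nb K') (hN K' hK') (hε K' hK') T1 hT1K x
      refine this.trans ?_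
      have hc : (T1.card : ℝ) ≤ T.card := by exact_mod_cast hT1c
      gcongr
    · positivity
  have h5 : ∑ K' : Fin (Kmax+1), (if K'.val + g ≤ K.val then ∑ zz, F K' zz else 0) ≤
      ∑ K' : Fin (Kmax+1), if K'.val ≤ K.val then
        (M : ℝ) * M * (2 * T.card + 1) ^ 2 * ε * (fib (Uof lay K T1) x).card else 0 := by
    refine Finset.sum_le_sum (fun K' _ => ?_)
    by_cases hK' : K'.val ≤ K.val
    · rw [if_pos hK']
      exact h4 K'
    · rw [if_neg hK', if_neg (by omega)]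
  have h6 : ((univ : Finset (Fin (Kmax+1))).filter (fun K' => K'.val ≤ K.val)).card ≤ K.val + 1 := by
    have : ((univ : Finset (Fin (Kmax+1))).filter (fun K' => K'.val ≤ K.val)).card ≤
        (range (K.val + 1)).card := by
      refine card_le_card_of_injOn (fun K' => K'.val) ?_ ?_
      · intro K' hK'
        have := (mem_filter.mp (mem_coe.mp hK')).2
        simp only [coe_range, Set.mem_Iio]
        omega
      · intro a _ b _ hab
        exact Fin.ext hab
    simpa using this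
  calc _ ≤ _ := h2
    _ = _ := h3
    _ ≤ _ := h5
    _ = (((univ : Finset (Fin (Kmax+1))).filter (fun K' => K'.val ≤ K.val)).card : ℝ) *
        ((M : ℝ) * M * (2 * T.card + 1) ^ 2 * ε * (fib (Uof lay K T1) x).card) := by
        rw [← Finset.sum_filter, Finset.sum_const, nsmul_eq_mul]
    _ ≤ ((K.val + 1 : ℕ) : ℝ) *
        ((M : ℝ) * M * (2 * T.card + 1) ^ 2 * ε * (fib (Uof lay K T1) x).card) := by
        refine mul_le_mul_of_nonneg_right ?_ (by positivity)
        exact_mod_cast h6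
    _ = _ := by
        push_cast
        ring

open Classical in
/-- **Far lemma.**  Total number of ordered `s`-tuples of solutions of `a + a' = n` (with `a` of
scale `K`, `a'` of scale `≤ K - g`) with pairwise different keys of the window of `a`, summed over
all hash values. -/
theorem far_moment (hG : GoodLay M lay Kmax) (hM : 3 ≤ M)
    (hV : ∀ L ≤ Kmax, ∀ i < M, ((lay L).V i).card ^ 2 ≤ 2 ^ (lay L).len i)
    (hV0 : ∀ L ≤ Kmax, ((lay L).V 0).card ≤ 1)
    (K : Fin (Kmax+1)) {g : ℕ} (hg : 1 ≤ g) (n : ℕ) (ε : ℝ) (hε0 : 0 ≤ ε) (Nb : ℕ → ℕ → ℕ → ℕ)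
    (hN : ∀ K', K' + g ≤ K.val → ∀ i i', 1 ≤ i → 1 ≤ i' → i + 1 < M → i' < M →
      ∀ a κ₁ κ₂ a' κ₁' κ₂' co co', a < 2 ^ (lay K).bot (i-1) → a' < 2 ^ (lay K').bot (i'-1) →
      (ConsSet lay K K' i i' n a κ₁ κ₂ a' κ₁' κ₂' co co').card ≤ Nb K' i i')
    (hε : ∀ K', K' + g ≤ K.val → ∀ i i', 1 ≤ i → 1 ≤ i' → i + 1 < M → i' < M →
      (Nb K' i i' : ℝ) * phi lay K K' i i' ≤ ε) (t : ℕ) :
    ∀ s ≤ t + 1, ∑ x : (∀ q : Ind M N Kmax, Xsp lay q),
      (ntup (fun (w : CandG M N Kmax K g) y => IsSol lay K g n w.1 y)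
        (fun w' w => Rdiff lay K w'.1 w.1) s x : ℝ) ≤
      ((K.val + 1) * ((M : ℝ) * M * (2 * t + 1) ^ 2 * ε)) ^ s *
        Fintype.card (∀ q : Ind M N Kmax, Xsp lay q) := by
  refine factMoment (fun w : CandG M N Kmax K g => Sidx lay K w.1) _ ?_ _ U0 _ (by positivity) t ?_
  · intro w x y h
    exact isSol_congr lay K g n w.1 x y h
  · intro T hT x
    refine (far_new lay hG hM hV hV0 K hg n ε hε0 Nb hN hε T x).trans ?_
    have : (T.card : ℝ) ≤ t := by exact_mod_cast hT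
    gcongr

open Classical in
/-- the number of hash values with at least `s` pairwise different window keys in solutions -/
theorem far_count (hG : GoodLay M lay Kmax) (hM : 3 ≤ M)
    (hV : ∀ L ≤ Kmax, ∀ i < M, ((lay L).V i).card ^ 2 ≤ 2 ^ (lay L).len i)
    (hV0 : ∀ L ≤ Kmax, ((lay L).V 0).card ≤ 1)
    (K : Fin (Kmax+1)) {g : ℕ} (hg : 1 ≤ g) (n : ℕ) (ε : ℝ) (hε0 : 0 ≤ ε) (Nb : ℕ → ℕ → ℕ → ℕ)
    (hN : ∀ K', K' + g ≤ K.val → ∀ i i', 1 ≤ i → 1 ≤ i' → i + 1 < M → i' < M →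
      ∀ a κ₁ κ₂ a' κ₁' κ₂' co co', a < 2 ^ (lay K).bot (i-1) → a' < 2 ^ (lay K').bot (i'-1) →
      (ConsSet lay K K' i i' n a κ₁ κ₂ a' κ₁' κ₂' co co').card ≤ Nb K' i i')
    (hε : ∀ K', K' + g ≤ K.val → ∀ i i', 1 ≤ i → 1 ≤ i' → i + 1 < M → i' < M →
      (Nb K' i i' : ℝ) * phi lay K K' i i' ≤ ε) (s : ℕ) :
    (((univ : Finset (∀ q : Ind M N Kmax, Xsp lay q)).filter (fun x =>
      s ≤ ((univ.filter (fun w : CandG M N Kmax K g => IsSol lay K g n w.1 x)).image
        (fun w => key (lay K) (M-1) w.1.2.1)).card)).card : ℝ) ≤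
      ((K.val + 1) * ((M : ℝ) * M * (2 * s + 1) ^ 2 * ε)) ^ s *
        Fintype.card (∀ q : Ind M N Kmax, Xsp lay q) := by
  have h := far_moment lay hG hM hV hV0 K hg n ε hε0 Nb hN hε s s (by omega)
  refine le_trans ?_ h
  rw [Finset.card_filter]
  push_cast
  refine Finset.sum_le_sum (fun x _ => ?_)
  split_ifs with hs
  · -- choose s solutions with different keys
    have h1 : 1 ≤ ntup (fun (w : CandG M N Kmax K g) y => IsSol lay K g n w.1 y)
        (fun w' w => Rdiff lay K w'.1 w.1) s x := by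
      obtain ⟨S, hSsub, hScard⟩ := Finset.exists_subset_card_eq hs
      have hch : ∀ p ∈ S, ∃ w : CandG M N Kmax K g, IsSol lay K g n w.1 x ∧
          key (lay K) (M-1) w.1.2.1 = p := by
        intro p hp
        have := hSsub hp
        rw [mem_image] at this
        obtain ⟨w, hw, rfl⟩ := this
        exact ⟨w, (mem_filter.mp hw).2, rfl⟩
      choose f hf using hch
      let e : Fin s ≃ S := (Fintype.equivFinOfCardEq (by simp [hScard])).symm
      unfold ntup
      rw [Nat.succ_le_iff, card_pos]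
      refine ⟨fun j => f (e j) (e j).2, ?_⟩
      rw [mem_filter]
      refine ⟨mem_univ _, fun j => (hf _ (e j).2).1, fun i j hij => ?_⟩
      show key (lay K) (M-1) (f (e i) (e i).2).1.2.1 ≠ key (lay K) (M-1) (f (e j) (e j).2).1.2.1
      rw [(hf _ (e i).2).2, (hf _ (e j).2).2]
      intro heq
      have : e i = e j := Subtype.ext heq
      have := e.injective this
      exact absurd this (ne_of_lt hij)
    exact_mod_cast h1
  · positivity

end

end Pool.Agent.ETS
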